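import Pool.Agent.H685R3.PR

set_option autoImplicit false

namespace Pool.Agent.H685R3

open Encodable
open Pool.Agent.Helper227

/-- Reducibility by a primitive recursive `f` with `n < f n` and a primitive recursive left
inverse. -/
def SLe (x y : ℕ → Bool) : Prop :=
  ∃ f f' : ℕ → ℕ, Primrec f ∧ Primrec f' ∧ (∀ n, n < f n) ∧ (∀ n, f' (f n) = n) ∧
    ∀ n, x n = y (f n)

namespace Myhill

section
variable (f f' g g' : ℕ → ℕ)

/-- One backward step of the Cantor-Bernstein chain; the side `true` is the side of the domain
of `f`. -/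
def step (p : ℕ × Bool) : ℕ × Bool :=
  if p.2 = true then (if g (g' p.1) = p.1 then (g' p.1, false) else p)
  else (if f (f' p.1) = p.1 then (f' p.1, true) else p)

/-- The side at which the chain stops. -/
def fin (c : ℕ) (s : Bool) : Bool := ((step f f' g g')^[c + 1] (c, s)).2

/-- The permutation. -/
def fwd (n : ℕ) : ℕ := if fin f f' g g' n true = true then f n else g' n

/-- The inverse permutation. -/
def bwd (n : ℕ) : ℕ := if fin f f' g g' n false = true then f' n else g n

end

section
variable {f f' g g' : ℕ → ℕ}
variable (hf : ∀ n, n < f n) (hg : ∀ n, n < g n) (hf' : ∀ n, f' (f n) = n)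
  (hg' : ∀ n, g' (g n) = n)
include hf hg

theorem step_lt (p : ℕ × Bool) : step f f' g g' p = p ∨ (step f f' g g' p).1 < p.1 := by
  unfold step
  split_ifs with h1 h2 h2
  · right
    have := hg (g' p.1)
    rw [h2] at this
    exact this
  · left; rfl
  · right
    have := hf (f' p.1)
    rw [h2] at this
    exact this
  · left; rfl

theorem stable (c : ℕ) : ∀ (p : ℕ × Bool), p.1 ≤ c → ∀ k, c + 1 ≤ k →
    (step f f' g g')^[k] p = (step f f' g g')^[c + 1] p := by
  have fixed : ∀ (p : ℕ × Bool), step f f' g g' p = p → ∀ k, (step f f' g g')^[k] p = p :=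
    fun p hp k => Function.iterate_fixed hp k
  induction c with
  | zero =>
    intro p hp k hk
    have h1 : step f f' g g' p = p := by
      rcases step_lt hf hg p with h | h
      · exact h
      · omega
    rw [fixed p h1, fixed p h1]
  | succ c ih =>
    intro p hp k hk
    rcases step_lt hf hg p with h | h
    · rw [fixed p h, fixed p h]
    · obtain ⟨k, rfl⟩ : ∃ k', k = k' + 1 := ⟨k - 1, by omega⟩
      rw [Function.iterate_succ_apply, Function.iterate_succ_apply]
      exact ih _ (by omega) k (by omega)

include hf' in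
theorem fin_f (n : ℕ) : fin f f' g g' (f n) false = fin f f' g g' n true := by
  have h1 : step f f' g g' (f n, false) = (n, true) := by
    simp [step, hf']
  have h2 := hf n
  unfold fin
  rw [Function.iterate_succ_apply, h1, stable hf hg n (n, true) le_rfl (f n) (by omega)]

include hg' in
theorem fin_g (n : ℕ) : fin f f' g g' (g n) true = fin f f' g g' n false := by
  have h1 : step f f' g g' (g n, true) = (n, false) := by
    simp [step, hg']
  have h2 := hg n
  unfold fin
  rw [Function.iterate_succ_apply, h1, stable hf hg n (n, false) le_rfl (g n) (by omega)]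

omit hf hg in
theorem fin_true {n : ℕ} (h : ¬ fin f f' g g' n true = true) : g (g' n) = n := by
  by_contra hc
  have h1 : step f f' g g' (n, true) = (n, true) := by simp [step, hc]
  apply h
  unfold fin
  rw [Function.iterate_fixed h1]

omit hf hg in
theorem fin_false {n : ℕ} (h : fin f f' g g' n false = true) : f (f' n) = n := by
  by_contra hc
  have h1 : step f f' g g' (n, false) = (n, false) := by simp [step, hc]
  unfold fin at h
  rw [Function.iterate_fixed h1] at h
  cases h

include hf' hg'

theorem bwd_fwd (n : ℕ) : bwd f f' g g' (fwd f f' g g' n) = n := by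
  unfold fwd
  split_ifs with h
  · unfold bwd
    rw [fin_f hf hg hf', if_pos h, hf']
  · have h1 := fin_true h
    have h2 := fin_g (f' := f') hf hg hg' (g' n)
    rw [h1] at h2
    unfold bwd
    rw [← h2, if_neg h, h1]

theorem fwd_bwd (n : ℕ) : fwd f f' g g' (bwd f f' g g' n) = n := by
  unfold bwd
  split_ifs with h
  · have h1 := fin_false h
    have h2 := fin_f (g' := g') hf hg hf' (f' n)
    rw [h1] at h2
    unfold fwd
    rw [← h2, if_pos h, h1]
  · unfold fwd
    rw [fin_g hf hg hg', if_neg h, hg']

end

variable {f f' g g' : ℕ → ℕ}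
variable (pf : Primrec f) (pf' : Primrec f') (pg : Primrec g) (pg' : Primrec g')
include pf pf' pg pg'

theorem primrec_fin (s : Bool) : Primrec fun n => fin f f' g g' n s := by
  have hstep : Primrec (step f f' g g') := by
    refine Primrec.ite (Primrec.eq.comp Primrec.snd (Primrec.const true))
      (Primrec.ite (Primrec.eq.comp (pg.comp (pg'.comp Primrec.fst)) Primrec.fst)
        ((pg'.comp Primrec.fst).pair (Primrec.const false)) Primrec.id)
      (Primrec.ite (Primrec.eq.comp (pf.comp (pf'.comp Primrec.fst)) Primrec.fst)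
        ((pf'.comp Primrec.fst).pair (Primrec.const true)) Primrec.id)
  refine Primrec.snd.comp (Primrec.nat_iterate (f := fun n : ℕ => n + 1)
    (g := fun n : ℕ => (n, s)) (h := fun _ p => step f f' g g' p) Primrec.succ
    (Primrec.id.pair (Primrec.const s)) (hstep.comp Primrec.snd))

theorem primrec_fwd : Primrec (fwd f f' g g') :=
  Primrec.ite (Primrec.eq.comp (primrec_fin pf pf' pg pg' true) (Primrec.const true)) pf pg'

theorem primrec_bwd : Primrec (bwd f f' g g') :=
  Primrec.ite (Primrec.eq.comp (primrec_fin pf pf' pg pg' false) (Primrec.const true)) pf' pg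

end Myhill

/-- Myhill's theorem for this reducibility. -/
theorem SLe.iso {x y : ℕ → Bool} (h : SLe x y) (h' : SLe y x) :
    ∃ π : Equiv.Perm ℕ, Primrec π ∧ Primrec π.symm ∧ x = y ∘ π := by
  obtain ⟨f, f', pf, pf', hf, hf', e⟩ := h
  obtain ⟨g, g', pg, pg', hg, hg', e'⟩ := h'
  refine ⟨⟨Myhill.fwd f f' g g', Myhill.bwd f f' g g', Myhill.bwd_fwd hf hg hf' hg',
    Myhill.fwd_bwd hf hg hf' hg'⟩, Myhill.primrec_fwd pf pf' pg pg',
    Myhill.primrec_bwd pf pf' pg pg', funext fun n => ?_⟩
  change x n = y (Myhill.fwd f f' g g' n)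
  unfold Myhill.fwd
  split_ifs with h1
  · exact e n
  · rw [e' (g' n), Myhill.fin_true h1]

end Pool.Agent.H685R3
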