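import Pool.Agent.H685R3.Use
import Pool.Agent.H685R3.Myhill

set_option autoImplicit false

namespace Pool.Agent.H685R3

open Encodable
open Pool.Agent.Helper227

theorem primrec_strs : Primrec strs :=
  Primrec.option_getD.comp (Primrec.decode.comp (Primrec.fst.comp Primrec.unpair))
    (Primrec.const [])

theorem ttJump_def (u : ℕ → Bool) (n : ℕ) :
    ttJump u n = decide (∃ σ ∈ strs n, pre (jump u) σ.length = σ) := rfl

/-- A bound for the lengths of the strings coded by `n`. -/
def useK (n : ℕ) : ℕ := (strs n).flatten.length

theorem primrec_useK : Primrec useK :=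
  Primrec.list_length.comp (Primrec.list_flatten.comp primrec_strs)

theorem le_useK {n : ℕ} {σ : List Bool} (h : σ ∈ strs n) : σ.length ≤ useK n :=
  (List.sublist_flatten_of_mem h).length_le

/-- Strings that are initial segments of `τ`. -/
def Q (τ : List Bool) (n : ℕ) : Bool := decide (∃ σ ∈ strs n, τ.take σ.length = σ)

theorem primrec_Q : Primrec₂ Q := by
  have h1 : PrimrecRel fun (σ : List Bool) (τ : List Bool) => τ.take σ.length = σ :=
    Primrec.eq.comp (Primrec.list_take.comp (Primrec.list_length.comp Primrec.fst) Primrec.snd)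
      Primrec.fst
  have h2 : PrimrecRel fun (L : List (List Bool)) (τ : List Bool) =>
      ∃ σ ∈ L, τ.take σ.length = σ := h1.exists_mem_list
  have h3 : PrimrecPred fun x : List Bool × ℕ => ∃ σ ∈ strs x.2, x.1.take σ.length = σ :=
    h2.comp (primrec_strs.comp Primrec.snd) Primrec.fst
  exact h3.decide

theorem K_eq {u : ℕ → Bool} {n s : ℕ} (h : useK n ≤ s) : ttJump u n = Q (pre (jump u) s) n := by
  rw [ttJump_def, Q]
  congr 1
  refine propext (exists_congr fun σ => and_congr_right fun h1 => ?_)
  rw [take_pre _ _ _ ((le_useK h1).trans h)]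

theorem K_congr {u v : ℕ → Bool} {n : ℕ} (h : ∀ i < useK n, jump u i = jump v i) :
    ttJump u n = ttJump v n := by
  rw [K_eq le_rfl, K_eq le_rfl]
  congr 1
  refine List.ext_getElem (by simp) fun i h1 _ => ?_
  rw [getElem_pre, getElem_pre]
  exact h i (by simpa using h1)

/-- Functions of initial segments. -/
theorem pLe_of_pre {x y : ℕ → Bool} {R : List Bool → ℕ → Bool} {m : ℕ → ℕ} (hR : Primrec₂ R)
    (hm : Primrec m) (h : ∀ n, x n = R (pre y (m n)) n) : PLe x y := by
  have hstep : Primrec₂ fun t v : ℕ =>
      encode (((decode (α := List Bool) t.unpair.2).getD []) ++ [decide (v = 1)]) := by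
    refine Primrec.encode.comp (Primrec.list_append.comp ?_ (Primrec.list_cons.comp ?_
      (Primrec.const [])))
    · exact Primrec.option_getD.comp (Primrec.decode.comp (Primrec.snd.comp
        (Primrec.unpair.comp Primrec.fst))) (Primrec.const [])
    · exact (Primrec.eq.comp Primrec.snd (Primrec.const 1)).decide
  have hL : PRF fun g t => g t.unpair.1 :=
    PRF.precomp PRF.oracle (Primrec.fst.comp Primrec.unpair)
  have hid : PRF fun _ t => t := PRF.of_primrec Primrec.id
  have hC := PRF.rec0 (encode ([] : List Bool)) (PRF.post₂ hstep hid hL)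
  have hfun : Primrec₂ fun c n : ℕ => (R ((decode (α := List Bool) c).getD []) n).toNat := by
    have h1 : Primrec fun b : Bool => b.toNat := Primrec.dom_finite _
    exact h1.comp (hR.comp (Primrec.option_getD.comp (Primrec.decode.comp Primrec.fst)
      (Primrec.const [])) Primrec.snd)
  have hfin := PRF.post₂ hfun (PRF.precomp hC hm) hid
  refine ⟨_, hfin, fun n => ?_⟩
  have key : ∀ n, Nat.rec (motive := fun _ => ℕ) (encode ([] : List Bool))
      (fun k IH => encode (((decode (α := List Bool) (Nat.pair k IH).unpair.2).getD []) ++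
        [decide ((y (Nat.pair k IH).unpair.1).toNat = 1)])) n = encode (pre y n) := by
    intro n
    induction n with
    | zero => rfl
    | succ n ih =>
      simp only at ih ⊢
      rw [ih]
      simp only [Nat.unpair_pair, encodek, Option.getD_some, pre_succ]
      congr 3
      cases y n <;> rfl
  simp only
  rw [key (m n)]
  simp [h n]

theorem K_pLe (u : ℕ → Bool) : PLe (ttJump u) (jump u) :=
  pLe_of_pre primrec_Q primrec_useK fun _ => K_eq le_rfl

/-- Everything primitive recursive in the jump reduces to the cylinder. -/
theorem sLe_K {x u : ℕ → Bool} (h : PLe x (jump u)) : SLe x (ttJump u) := by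
  obtain ⟨Φ, hΦ, e⟩ := h
  obtain ⟨E, m, hE, hm, eE⟩ := hΦ.use
  let L : ℕ → List (List Bool) := fun n =>
    (allStr (m n)).flatMap fun σ => if E σ n = 1 then [σ] else []
  have hL : Primrec L := by
    refine Primrec.list_flatMap (primrec_allStr.comp hm) ?_
    exact Primrec.ite (Primrec.eq.comp (hE.comp Primrec.snd Primrec.fst) (Primrec.const 1))
      (Primrec.list_cons.comp Primrec.snd (Primrec.const [])) (Primrec.const [])
  refine ⟨fun n => Nat.pair (encode (L n)) (n + 1), fun k => k.unpair.2 - 1, ?_, ?_, ?_, ?_, ?_⟩
  · exact Primrec₂.natPair.comp (Primrec.encode.comp hL) Primrec.succ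
  · exact Primrec.nat_sub.comp (Primrec.snd.comp Primrec.unpair) (Primrec.const 1)
  · intro n
    have := Nat.right_le_pair (encode (L n)) (n + 1)
    simp only
    omega
  · intro n
    simp
  · intro n
    have h1 : strs (Nat.pair (encode (L n)) (n + 1)) = L n := by simp [strs]
    have h2 : ttJump u (Nat.pair (encode (L n)) (n + 1)) = true ↔ x n = true := by
      rw [ttJump_def, h1, decide_eq_true_iff]
      have h3 := eE (jump u) n (m n) le_rfl
      rw [← e n] at h3
      constructor
      · rintro ⟨σ, h4, h5⟩
        simp only [L, List.mem_flatMap] at h4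
        obtain ⟨τ, h6, h7⟩ := h4
        split_ifs at h7 with h8
        · rw [List.mem_singleton] at h7
          subst h7
          rw [mem_allStr h6] at h5
          rw [h5, h8] at h3
          cases hx : x n
          · rw [hx] at h3; cases h3
          · rfl
        · cases h7
      · intro h4
        rw [h4, Bool.toNat_true] at h3
        refine ⟨pre (jump u) (m n), ?_, by simp⟩
        simp only [L, List.mem_flatMap]
        refine ⟨_, pre_mem_allStr (jump u) (m n), ?_⟩
        rw [if_pos h3]
        exact List.mem_singleton_self _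
    simp only
    cases h3 : x n <;> cases h4 : ttJump u (Nat.pair (encode (L n)) (n + 1)) <;> simp_all

end Pool.Agent.H685R3
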