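import Mathlib

set_option autoImplicit false

namespace Pool.Agent.H685R3

/-- The first `n` moves of the play `x`. -/
def hist (x : ℕ → Bool) (n : ℕ) : List Bool := (List.range n).map x

/-- Player I (who chooses `x 0, x 2, ...`) has a winning strategy in the Gale-Stewart game with
payoff set `A`; a strategy maps the finite sequence of all previous moves to the next move. -/
def WinsI (A : Set (ℕ → Bool)) : Prop :=
  ∃ s : List Bool → Bool, ∀ x : ℕ → Bool, (∀ n, x (2 * n) = s (hist x (2 * n))) → x ∈ A

/-- Player II (who chooses `x 1, x 3, ...`) has a winning strategy in the Gale-Stewart game with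
payoff set `A`. -/
def WinsII (A : Set (ℕ → Bool)) : Prop :=
  ∃ s : List Bool → Bool, ∀ x : ℕ → Bool,
    (∀ n, x (2 * n + 1) = s (hist x (2 * n + 1))) → x ∉ A

/-- `A` is closed under permuting the positions by primitive recursive permutations of the natural
numbers with primitive recursive inverse. -/
def PermInvariant (A : Set (ℕ → Bool)) : Prop :=
  ∀ π : Equiv.Perm ℕ, Primrec π → Primrec π.symm → ∀ x : ℕ → Bool, x ∈ A → x ∘ π ∈ A

/-- The characteristic function of `x`, as an oracle. -/
def charFn (x : ℕ → Bool) : ℕ →. ℕ := fun n => Part.some (x n).toNat

/-- `A` is closed under Turing equivalence (in the sense of Mathlib, for characteristic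
functions). -/
def TuringInvariant (A : Set (ℕ → Bool)) : Prop :=
  ∀ x y, TuringReducible (charFn x) (charFn y) → TuringReducible (charFn y) (charFn x) →
    x ∈ A → y ∈ A

open Classical in
/-- The Turing jump of `u`: the bit at `e` is one iff for some `k` the `e`-th program halts on the
input consisting of the first `k` bits of `u` and of `e`. -/
noncomputable def turingJump (u : ℕ → Bool) (e : ℕ) : Bool :=
  decide (∃ k, ((Denumerable.ofNat Nat.Partrec.Code e).eval (Encodable.encode (hist u k, e))).Dom)

/-- The finite list of finite strings coded by the first component of `n` (every finite list of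
finite strings is coded by infinitely many `n`). -/
def strs (n : ℕ) : List (List Bool) :=
  (Encodable.decode (α := List (List Bool)) n.unpair.1).getD []

/-- The truth-table cylinder of the Turing jump: the bit at `n` is one iff one of the strings in
the finite list coded by `n` is an initial segment of the jump of `u`. -/
noncomputable def ttJump (u : ℕ → Bool) (n : ℕ) : Bool :=
  decide (∃ σ ∈ strs n, hist (turingJump u) σ.length = σ)

end Pool.Agent.H685R3
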