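import Pool.Agent.Helper227.RD.Jump
import Pool.Agent.H685R3.KDefs

set_option autoImplicit false

namespace Pool.Agent.H685R3

open Pool.Agent.Helper227

/-- The game with payoff set `A` is determined. -/
def Determined (A : Set (ℕ → Bool)) : Prop := WinsI A ∨ WinsII A

/-- Primitive recursive many-one reducibility. -/
def MLe (x y : ℕ → Bool) : Prop := ∃ f : ℕ → ℕ, Primrec f ∧ ∀ n, x n = y (f n)

/-- `A` is invariant under primitive recursive many-one equivalence. -/
def ManyOneInvariant (A : Set (ℕ → Bool)) : Prop :=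
  ∀ x y, MLe x y → MLe y x → x ∈ A → y ∈ A

/-- The primitive recursive functionals of one function argument and one number argument: the
least class containing zero, successor, the two unpairing functions and evaluation of the function
argument, and closed under pairing, composition and primitive recursion. -/
inductive PRF : ((ℕ → ℕ) → ℕ → ℕ) → Prop
  | zero : PRF fun _ _ => 0
  | succ : PRF fun _ n => n + 1
  | left : PRF fun _ n => n.unpair.1
  | right : PRF fun _ n => n.unpair.2
  | oracle : PRF fun g n => g n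
  | pair {Φ Ψ : (ℕ → ℕ) → ℕ → ℕ} : PRF Φ → PRF Ψ → PRF fun g n => Nat.pair (Φ g n) (Ψ g n)
  | comp {Φ Ψ : (ℕ → ℕ) → ℕ → ℕ} : PRF Φ → PRF Ψ → PRF fun g n => Φ g (Ψ g n)
  | prec {Φ Ψ : (ℕ → ℕ) → ℕ → ℕ} : PRF Φ → PRF Ψ → PRF fun g n =>
      Nat.rec (motive := fun _ => ℕ) (Φ g n.unpair.1)
        (fun y IH => Ψ g (Nat.pair n.unpair.1 (Nat.pair y IH))) n.unpair.2

/-- The map `F` on Cantor space is a primitive recursive functional. -/
def IsPRMap (F : (ℕ → Bool) → ℕ → Bool) : Prop :=
  ∃ Φ, PRF Φ ∧ ∀ x n, (F x n).toNat = Φ (fun m => (x m).toNat) n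

/-- `x` is primitive recursive in `y`. -/
def PLe (x y : ℕ → Bool) : Prop :=
  ∃ Φ, PRF Φ ∧ ∀ n, (x n).toNat = Φ (fun m => (y m).toNat) n

/-- `A` is invariant under primitive recursive equivalence. -/
def PrimrecInvariant (A : Set (ℕ → Bool)) : Prop :=
  ∀ x y, PLe x y → PLe y x → x ∈ A → y ∈ A

/-- The set of all `x` whose Turing jump lies in `A`. -/
def jumpPreimage (A : Set (ℕ → Bool)) : Set (ℕ → Bool) := {x | jump x ∈ A}

end Pool.Agent.H685R3
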