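import Pool.Agent.H685R3.Om

set_option autoImplicit false

namespace Pool.Agent.H685R3

open Encodable
open Nat.Partrec (Code)
open Pool.Agent.Helper227

/-- The positive part of the forcing relation. -/
def FT (R : List Bool × ℕ × Bool → Prop) (σ : List Bool) (e : ℕ) : Prop :=
  ∃ ρ : List Bool, Halt e ρ ∧ ∀ i < ρ.length, R (σ, i, ρ.getD i false)

/-- One step of the forcing relation. -/
def FN (R : List Bool × ℕ × Bool → Prop) (x : List Bool × ℕ × Bool) : Prop :=
  (x.2.2 = true ∧ FT R x.1 x.2.1) ∨ (x.2.2 = false ∧ ∀ τ, x.1 <+: τ → ¬ FT R τ x.2.1)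

/-- `σ` forces that the bit `e` of the `n`-th jump of the join of `z` with the generic is `b`. -/
def Fz (z : ℕ → Bool) : ℕ → List Bool × ℕ × Bool → Prop
  | 0 => fun x => (x.2.1 % 2 = 0 ∧ z (x.2.1 / 2) = x.2.2) ∨
      (¬ x.2.1 % 2 = 0 ∧ x.1[x.2.1 / 2]? = some x.2.2)
  | n + 1 => FN (Fz z n)

theorem us_F0 : US fun z (x : List Bool × ℕ × Bool) => Fz z 0 x := by
  have hm : PrimrecPred fun x : List Bool × ℕ × Bool => x.2.1 % 2 = 0 :=
    Primrec.eq.comp (Primrec.nat_mod.comp (Primrec.fst.comp Primrec.snd) (Primrec.const 2))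
      (Primrec.const 0)
  have hd : Primrec fun x : List Bool × ℕ × Bool => x.2.1 / 2 :=
    Primrec.nat_div.comp (Primrec.fst.comp Primrec.snd) (Primrec.const 2)
  refine US.or (US.and (US.of_prim hm) ?_) (US.of_prim (hm.not.and ?_))
  · exact US.query.comp (f := fun x : List Bool × ℕ × Bool => (x.2.1 / 2, x.2.2))
      (hd.pair (Primrec.snd.comp Primrec.snd))
  · exact Primrec.eq.comp (Primrec.list_getElem?.comp Primrec.fst hd)
      (Primrec.option_some.comp (Primrec.snd.comp Primrec.snd))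

theorem us_P1 : US fun Y (x : Code × List Bool × ℕ) => ∃ ρ : List Bool, Halt x.2.2 ρ ∧
    ∀ i < ρ.length, ∃ m, m ∈ x.1.eval (encode (x.2.1, i, ρ.getD i false)) ∧ Y m = true := by
  refine US.ex (p := fun Y (x : Code × List Bool × ℕ) (ρ : List Bool) => Halt x.2.2 ρ ∧
    ∀ i < ρ.length, ∃ m, m ∈ x.1.eval (encode (x.2.1, i, ρ.getD i false)) ∧ Y m = true)
    (US.and (US.of_s1 ?_) ?_)
  · exact s1_Halt.comp ((Primrec.snd.comp (Primrec.snd.comp Primrec.fst)).pair Primrec.snd)
  · refine US.all_lt (α := (Code × List Bool × ℕ) × List Bool) (p := fun Y x i =>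
      ∃ m, m ∈ x.1.1.eval (encode (x.1.2.1, i, x.2.getD i false)) ∧ Y m = true)
      (f := fun x => x.2.length) ?_ (Primrec.list_length.comp Primrec.snd)
    refine US.ex (α := ((Code × List Bool × ℕ) × List Bool) × ℕ) (p := fun Y x m =>
      m ∈ x.1.1.1.eval (encode (x.1.1.2.1, x.2, x.1.2.getD x.2 false)) ∧ Y m = true)
      (US.and (US.of_s1 ?_) ?_)
    · refine s1_graph.comp (f := fun y : (((Code × List Bool × ℕ) × List Bool) × ℕ) × ℕ =>
        ((y.1.1.1.1, encode (y.1.1.1.2.1, y.1.2, y.1.1.2.getD y.1.2 false)), y.2)) ?_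
      refine Primrec.pair (Primrec.pair (Primrec.fst.comp (Primrec.fst.comp (Primrec.fst.comp
        Primrec.fst))) (Primrec.encode.comp (Primrec.pair (Primrec.fst.comp (Primrec.snd.comp
          (Primrec.fst.comp (Primrec.fst.comp Primrec.fst)))) (Primrec.pair
            (Primrec.snd.comp Primrec.fst) ?_)))) Primrec.snd
      exact (Primrec.list_getD false).comp (Primrec.snd.comp (Primrec.fst.comp Primrec.fst))
        (Primrec.snd.comp Primrec.fst)
    · exact US.query.comp (f := fun y : (((Code × List Bool × ℕ) × List Bool) × ℕ) × ℕ =>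
        (y.2, true)) (Primrec.snd.pair (Primrec.const true))

theorem exists_g3 : ∃ g : Code × (List Bool × ℕ × Bool) → ℕ, Primrec g ∧
    ∀ (R : List Bool × ℕ × Bool → Prop) (Y : ℕ → Bool) (c : Code),
      (∀ x, ∃ m, m ∈ c.eval (encode x) ∧ (R x ↔ Y m = true)) →
      ∀ x, FN R x ↔ jump (jump (jump Y)) (g (c, x)) = true := by
  obtain ⟨g1, hg1, e1⟩ := us_P1.to_jump
  have h2 : US fun Y (x : Code × List Bool × ℕ) => ∃ τ : List Bool,
      τ.take x.2.1.length = x.2.1 ∧ Y (g1 (x.1, τ, x.2.2)) = true := by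
    refine US.ex (p := fun Y (x : Code × List Bool × ℕ) (τ : List Bool) =>
      τ.take x.2.1.length = x.2.1 ∧ Y (g1 (x.1, τ, x.2.2)) = true) (US.and (US.of_prim ?_) ?_)
    · exact Primrec.eq.comp (Primrec.list_take.comp (Primrec.list_length.comp (Primrec.fst.comp
        (Primrec.snd.comp Primrec.fst))) Primrec.snd) (Primrec.fst.comp
          (Primrec.snd.comp Primrec.fst))
    · exact US.query.comp (f := fun y : (Code × List Bool × ℕ) × List Bool =>
        (g1 (y.1.1, y.2, y.1.2.2), true)) ((hg1.comp ((Primrec.fst.comp Primrec.fst).pair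
          (Primrec.snd.pair (Primrec.snd.comp (Primrec.snd.comp Primrec.fst))))).pair
            (Primrec.const true))
  obtain ⟨g2, hg2, e2⟩ := h2.to_jump
  have hq : US fun Y (m : ℕ) => Y m = true :=
    US.query.comp (f := fun m : ℕ => (m, true)) (Primrec.id.pair (Primrec.const true))
  obtain ⟨q, hq, eq⟩ := hq.to_jump
  have hx : Primrec fun x : Code × (List Bool × ℕ × Bool) => (x.1, x.2.1, x.2.2.1) :=
    Primrec.fst.pair ((Primrec.fst.comp Primrec.snd).pair
      (Primrec.fst.comp (Primrec.snd.comp Primrec.snd)))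
  have hb : Primrec fun x : Code × (List Bool × ℕ × Bool) => x.2.2.2 :=
    Primrec.snd.comp (Primrec.snd.comp Primrec.snd)
  have h3 : US fun Y (x : Code × (List Bool × ℕ × Bool)) =>
      (x.2.2.2 = true ∧ Y (q (g1 (x.1, x.2.1, x.2.2.1))) = true) ∨
      (x.2.2.2 = false ∧ Y (g2 (x.1, x.2.1, x.2.2.1)) = false) := by
    refine US.or (US.and (US.of_prim (Primrec.eq.comp hb (Primrec.const true))) ?_)
      (US.and (US.of_prim (Primrec.eq.comp hb (Primrec.const false))) ?_)
    · exact US.query.comp (f := fun x : Code × (List Bool × ℕ × Bool) =>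
        (q (g1 (x.1, x.2.1, x.2.2.1)), true)) ((hq.comp (hg1.comp hx)).pair (Primrec.const true))
    · exact US.query.comp (f := fun x : Code × (List Bool × ℕ × Bool) =>
        (g2 (x.1, x.2.1, x.2.2.1), false)) ((hg2.comp hx).pair (Primrec.const false))
  obtain ⟨g3, hg3, e3⟩ := h3.to_jump
  refine ⟨g3, hg3, fun R Y c hc x => ?_⟩
  have k1 : ∀ σ e, FT R σ e ↔ jump Y (g1 (c, σ, e)) = true := by
    intro σ e
    rw [← e1 Y (c, σ, e)]
    refine exists_congr fun ρ => and_congr_right fun _ => forall_congr' fun i =>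
      forall_congr' fun _ => ?_
    obtain ⟨m, h4, h5⟩ := hc (σ, i, ρ.getD i false)
    rw [h5]
    constructor
    · intro h6
      exact ⟨m, h4, h6⟩
    · rintro ⟨m', h6, h7⟩
      rw [Part.mem_unique h4 h6]
      exact h7
  have k2 : ∀ σ e, (∃ τ, σ <+: τ ∧ FT R τ e) ↔ jump (jump Y) (g2 (c, σ, e)) = true := by
    intro σ e
    rw [← e2 (jump Y) (c, σ, e)]
    refine exists_congr fun τ => and_congr ?_ (k1 τ e)
    rw [List.prefix_iff_eq_take]
    exact eq_comm
  rw [← e3 (jump (jump Y)) (c, x)]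
  refine or_congr (and_congr_right fun _ => ?_) (and_congr_right fun _ => ?_)
  · rw [← eq (jump Y)]
    exact k1 _ _
  · have h4 := k2 x.1 x.2.1
    simp only
    rw [← Bool.not_eq_true, ← h4]
    simp only [not_exists, not_and]

theorem si_F (z : ℕ → Bool) : (SI (om z) fun x : ℕ × (List Bool × ℕ × Bool) => Fz z x.1 x.2) ∧
    SI (om z) fun x : ℕ × (List Bool × ℕ × Bool) => ¬ Fz z x.1 x.2 := by
  obtain ⟨g0, hg0, e0⟩ := us_F0.to_jump
  obtain ⟨g, hg, eg⟩ := exists_g3
  obtain ⟨s, hs, es⟩ := exists_smn hg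
  obtain ⟨s0, hs0, es0⟩ := exists_smn (g := fun x : Code × (List Bool × ℕ × Bool) => g0 x.2)
    (hg0.comp Primrec.snd)
  obtain ⟨c0, hc0⟩ : ∃ c0 : Code, ∀ x, g0 x ∈ c0.eval (encode x) := ⟨s0 Code.zero, es0 _⟩
  have key : ∀ n x, ∃ m, m ∈ (s^[n] c0).eval (encode x) ∧
      (Fz z n x ↔ jn z (3 * n + 1) m = true) := by
    intro n
    induction n with
    | zero =>
      intro x
      exact ⟨g0 x, hc0 x, e0 z x⟩
    | succ n ih =>
      intro x
      refine ⟨g (s^[n] c0, x), ?_, ?_⟩
      · rw [Function.iterate_succ_apply']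
        exact es _ _
      · exact eg _ _ _ ih x
  have hit : Primrec fun x : ℕ × (List Bool × ℕ × Bool) => s^[x.1] c0 :=
    Primrec.nat_iterate (f := fun x : ℕ × (List Bool × ℕ × Bool) => x.1) (g := fun _ => c0)
      (h := fun _ c => s c) Primrec.fst (Primrec.const c0) (hs.comp Primrec.snd)
  have h1 : ∀ b : Bool, SI (om z) fun x : ℕ × (List Bool × ℕ × Bool) =>
      ∃ m, m ∈ (s^[x.1] c0).eval (encode x.2) ∧ om z (Nat.pair (3 * x.1 + 1) m) = b := by
    intro b
    refine SI.ex (p := fun (x : ℕ × (List Bool × ℕ × Bool)) (m : ℕ) =>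
      m ∈ (s^[x.1] c0).eval (encode x.2) ∧ om z (Nat.pair (3 * x.1 + 1) m) = b)
      (SI.and (SI.of_s1 ?_) ?_)
    · exact s1_graph.comp (f := fun y : (ℕ × (List Bool × ℕ × Bool)) × ℕ =>
        ((s^[y.1.1] c0, encode y.1.2), y.2)) (((hit.comp Primrec.fst).pair
          (Primrec.encode.comp (Primrec.snd.comp Primrec.fst))).pair Primrec.snd)
    · exact SI.query.comp (f := fun y : (ℕ × (List Bool × ℕ × Bool)) × ℕ =>
        (Nat.pair (3 * y.1.1 + 1) y.2, b)) ((Primrec₂.natPair.comp (Primrec.succ.comp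
          (Primrec.nat_mul.comp (Primrec.const 3) (Primrec.fst.comp Primrec.fst)))
            Primrec.snd).pair (Primrec.const b))
  refine ⟨(h1 true).of_eq fun x => ?_, (h1 false).of_eq fun x => ?_⟩
  · obtain ⟨m, h2, h3⟩ := key x.1 x.2
    rw [h3]
    constructor
    · rintro ⟨m', h4, h5⟩
      rw [om_pair] at h5
      rw [Part.mem_unique h2 h4]
      exact h5
    · intro h4
      exact ⟨m, h2, by rw [om_pair]; exact h4⟩
  · obtain ⟨m, h2, h3⟩ := key x.1 x.2
    rw [h3]
    constructor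
    · rintro ⟨m', h4, h5⟩
      rw [om_pair] at h5
      rw [Part.mem_unique h2 h4, h5]
      simp
    · intro h4
      refine ⟨m, h2, ?_⟩
      rw [om_pair]
      simpa using h4

end Pool.Agent.H685R3
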