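import Pool.Agent.H685R3.PR

set_option autoImplicit false

namespace Pool.Agent.H685R3

open Encodable
open Pool.Agent.Helper227

/-- The player moving at the positions congruent to `b` modulo 2 can force the play into `A`. -/
def Wins (b : ℕ) (A : Set (ℕ → Bool)) : Prop :=
  ∃ s : List Bool → Bool, ∀ x : ℕ → Bool,
    (∀ n, x (2 * n + b) = s (hist x (2 * n + b))) → x ∈ A

theorem winsI_iff {A : Set (ℕ → Bool)} : WinsI A ↔ Wins 0 A := Iff.rfl

theorem winsII_iff {A : Set (ℕ → Bool)} : WinsII A ↔ Wins 1 Aᶜ := Iff.rfl

theorem wins_of_code {b : ℕ} (hb : b < 2) {A : Set (ℕ → Bool)} (w : ℕ → Bool)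
    (h : ∀ x : ℕ → Bool, (∀ n, x (2 * n + b) = w n) → x ∈ A) : Wins b A := by
  refine ⟨fun L => w (L.length / 2), fun x hx => h x fun n => ?_⟩
  rw [hx n]
  simp only [hist, List.length_map, List.length_range]
  congr 1
  omega

theorem tLe_of_positions {b : ℕ} {z x : ℕ → Bool} (h : ∀ n, x (2 * n + b) = z n) : TLe z x := by
  have hf : Primrec fun n : ℕ => 2 * n + b :=
    Primrec.nat_add.comp (Primrec.nat_mul.comp (Primrec.const 2) Primrec.id) (Primrec.const b)
  exact tLe_of_computable hf.to_comp fun n => (h n).symm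

theorem wins_of_cone {b : ℕ} (hb : b < 2) {B : Set (ℕ → Bool)} {z : ℕ → Bool}
    (h : ∀ u, TLe z u → u ∈ B) : Wins b B :=
  wins_of_code hb z fun x hx => h x (tLe_of_positions hx)

/-- The move at position `n` when the history has code `c`. -/
def bit (z u : ℕ → Bool) (b n c : ℕ) : Bool := if n % 2 = b then z c else u (n / 2)

/-- The histories of the play of the coded strategy `z` against the moves `u`. -/
def plays (z u : ℕ → Bool) (b : ℕ) : ℕ → List Bool
  | 0 => []
  | n + 1 => plays z u b n ++ [bit z u b n (encode (plays z u b n))]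

/-- The play of the coded strategy `z` against the moves `u`. -/
def play (z u : ℕ → Bool) (b n : ℕ) : Bool := bit z u b n (encode (plays z u b n))

theorem pre_play (z u : ℕ → Bool) (b n : ℕ) : pre (play z u b) n = plays z u b n := by
  induction n with
  | zero => rfl
  | succ n ih => rw [pre_succ, ih]; rfl

theorem play_own {z u : ℕ → Bool} {b : ℕ} (hb : b < 2) (n : ℕ) :
    play z u b (2 * n + b) = z (encode (pre (play z u b) (2 * n + b))) := by
  rw [pre_play]
  simp only [play, bit]
  rw [if_pos (by omega)]

theorem play_other {z u : ℕ → Bool} {b : ℕ} (hb : b < 2) (n : ℕ) :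
    play z u b (2 * n + (1 - b)) = u n := by
  simp only [play, bit]
  rw [if_neg (by omega)]
  congr 1
  omega

theorem tLe_play {z u : ℕ → Bool} {b : ℕ} (h : TLe z u) : TLe (play z u b) u := by
  rw [tLe_iff_SI]
  have hz := tLe_iff_SI.1 h
  have hbit : SI u fun y : ℕ × List Bool × Bool =>
      (y.1 % 2 = b ∧ z (encode y.2.1) = y.2.2) ∨ (¬ y.1 % 2 = b ∧ u (y.1 / 2) = y.2.2) := by
    have hm : PrimrecPred fun y : ℕ × List Bool × Bool => y.1 % 2 = b :=
      Primrec.eq.comp (Primrec.nat_mod.comp Primrec.fst (Primrec.const 2)) (Primrec.const b)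
    refine SI.or (SI.and (SI.of_prim hm) ?_) (SI.and (SI.of_prim hm.not) ?_)
    · exact hz.comp (f := fun y : ℕ × List Bool × Bool => (encode y.2.1, y.2.2))
        ((Primrec.encode.comp (Primrec.fst.comp Primrec.snd)).pair
          (Primrec.snd.comp Primrec.snd))
    · exact SI.query.comp (f := fun y : ℕ × List Bool × Bool => (y.1 / 2, y.2.2))
        ((Primrec.nat_div.comp Primrec.fst (Primrec.const 2)).pair
          (Primrec.snd.comp Primrec.snd))
  have h1 : SI u fun x : ℕ × Bool => ∃ L : List Bool, (L.length = x.1 + 1 ∧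
      L.getD x.1 false = x.2) ∧ ∀ i < x.1 + 1,
        (i % 2 = b ∧ z (encode (L.take i)) = L.getD i false) ∨
        (¬ i % 2 = b ∧ u (i / 2) = L.getD i false) := by
    refine SI.ex (p := fun (x : ℕ × Bool) (L : List Bool) => (L.length = x.1 + 1 ∧
      L.getD x.1 false = x.2) ∧ ∀ i < x.1 + 1,
        (i % 2 = b ∧ z (encode (L.take i)) = L.getD i false) ∨
        (¬ i % 2 = b ∧ u (i / 2) = L.getD i false)) (SI.and (SI.of_prim (PrimrecPred.and ?_ ?_)) ?_)
    · exact Primrec.eq.comp (Primrec.list_length.comp Primrec.snd)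
        (Primrec.succ.comp (Primrec.fst.comp Primrec.fst))
    · exact Primrec.eq.comp ((Primrec.list_getD false).comp Primrec.snd
        (Primrec.fst.comp Primrec.fst)) (Primrec.snd.comp Primrec.fst)
    · refine SI.all_lt (α := (ℕ × Bool) × List Bool) (p := fun x i =>
        (i % 2 = b ∧ z (encode (x.2.take i)) = x.2.getD i false) ∨
        (¬ i % 2 = b ∧ u (i / 2) = x.2.getD i false)) (f := fun x => x.1.1 + 1) ?_
        (Primrec.succ.comp (Primrec.fst.comp Primrec.fst))
      exact hbit.comp (f := fun y : ((ℕ × Bool) × List Bool) × ℕ =>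
        (y.2, y.1.2.take y.2, y.1.2.getD y.2 false))
        (Primrec.snd.pair ((Primrec.list_take.comp Primrec.snd (Primrec.snd.comp Primrec.fst)).pair
          ((Primrec.list_getD false).comp (Primrec.snd.comp Primrec.fst) Primrec.snd)))
  refine h1.of_eq fun x => ?_
  obtain ⟨n, c⟩ := x
  constructor
  · rintro ⟨L, ⟨h2, h3⟩, h4⟩
    have h5 : ∀ i ≤ n + 1, L.take i = plays z u b i := by
      intro i
      induction i with
      | zero => intro _; simp [plays]
      | succ i ih =>
        intro hi
        have h6 := ih (by omega)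
        have h7 : i < L.length := by simp only at h2; omega
        rw [List.take_succ_eq_append_getElem h7, h6]
        have h8 := h4 i (by simp only; omega)
        rw [h6] at h8
        have h9 : L[i] = bit z u b i (encode (plays z u b i)) := by
          rw [List.getD_eq_getElem _ _ h7] at h8
          rcases h8 with ⟨h8, h10⟩ | ⟨h8, h10⟩
          · rw [← h10, bit, if_pos h8]
          · rw [← h10, bit, if_neg h8]
        rw [h9]
        rfl
    have h6 := h4 n (by simp)
    rw [h5 n (by omega)] at h6
    simp only at h3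
    rw [h3] at h6
    change play z u b n = c
    rcases h6 with ⟨h8, h10⟩ | ⟨h8, h10⟩
    · rw [← h10, play, bit, if_pos h8]
    · rw [← h10, play, bit, if_neg h8]
  · intro h2
    have h2 : play z u b n = c := h2
    refine ⟨pre (play z u b) (n + 1), ⟨by simp, ?_⟩, ?_⟩
    · exact (pre_getD _ _ _ _ (by simp)).trans h2
    · intro i hi
      have hi : i < n + 1 := hi
      rw [take_pre _ _ _ hi.le, pre_getD _ _ _ _ hi, pre_play]
      by_cases h3 : i % 2 = b
      · exact Or.inl ⟨h3, by rw [play, bit, if_pos h3]⟩
      · exact Or.inr ⟨h3, by rw [play, bit, if_neg h3]⟩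

/-- Martin's cone argument. -/
theorem cone_of_wins {b : ℕ} (hb : b < 2) {B : Set (ℕ → Bool)} (hB : TuringInvariant B)
    (h : Wins b B) : ∃ z : ℕ → Bool, ∀ u, TLe z u → u ∈ B := by
  obtain ⟨s, hs⟩ := h
  refine ⟨fun n => s ((decode (α := List Bool) n).getD []), fun u hu => ?_⟩
  generalize hz : (fun n => s ((decode (α := List Bool) n).getD [])) = z at hu
  have h1 : play z u b ∈ B := by
    refine hs _ fun n => ?_
    rw [play_own hb, ← hz]
    simp [hist_eq_pre]
  have h2 : TLe u (play z u b) := tLe_of_positions (b := 1 - b) fun n => play_other hb n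
  exact hB _ _ (tLe_play hu) h2 h1

theorem pLe_play {z x : ℕ → Bool} {b : ℕ} (h : PLe z x) : PLe (play z x b) x := by
  obtain ⟨Z, hZ, eZ⟩ := h
  have hsel : Primrec₂ fun t w : ℕ => if t.unpair.1 % 2 = b then w.unpair.1 else w.unpair.2 := by
    refine Primrec.ite ?_ (Primrec.fst.comp (Primrec.unpair.comp Primrec.snd))
      (Primrec.snd.comp (Primrec.unpair.comp Primrec.snd))
    exact Primrec.eq.comp (Primrec.nat_mod.comp (Primrec.fst.comp (Primrec.unpair.comp Primrec.fst))
      (Primrec.const 2)) (Primrec.const b)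
  have hhalf : Primrec fun t : ℕ => t.unpair.1 / 2 :=
    Primrec.nat_div.comp (Primrec.fst.comp Primrec.unpair) (Primrec.const 2)
  have hbit : PRF fun g t => if t.unpair.1 % 2 = b then Z g t.unpair.2 else g (t.unpair.1 / 2) :=
    (PRF.post₂ hsel (of_primrec_id) (PRF.pair (PRF.precomp hZ (Primrec.snd.comp Primrec.unpair))
      (PRF.precomp PRF.oracle hhalf))).of_eq fun g t => by simp
  have hstep : Primrec₂ fun t v : ℕ =>
      encode (((decode (α := List Bool) t.unpair.2).getD []) ++ [decide (v = 1)]) := by
    refine Primrec.encode.comp (Primrec.list_append.comp ?_ (Primrec.list_cons.comp ?_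
      (Primrec.const [])))
    · exact Primrec.option_getD.comp (Primrec.decode.comp (Primrec.snd.comp
        (Primrec.unpair.comp Primrec.fst))) (Primrec.const [])
    · exact (Primrec.eq.comp Primrec.snd (Primrec.const 1)).decide
  have hC := PRF.rec0 (encode ([] : List Bool)) (PRF.post₂ hstep of_primrec_id hbit)
  have hfin := PRF.comp hbit (PRF.pair of_primrec_id hC)
  refine ⟨_, hfin, fun n => ?_⟩
  have key : ∀ n, Nat.rec (motive := fun _ => ℕ) (encode ([] : List Bool)) (fun y IH =>
      encode (((decode (α := List Bool) (Nat.pair y IH).unpair.2).getD []) ++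
        [decide ((if (Nat.pair y IH).unpair.1 % 2 = b then
          Z (fun m => (x m).toNat) (Nat.pair y IH).unpair.2
          else (x ((Nat.pair y IH).unpair.1 / 2)).toNat) = 1)])) n = encode (plays z x b n) := by
    intro n
    induction n with
    | zero => rfl
    | succ n ih =>
      simp only at ih ⊢
      rw [ih]
      simp only [Nat.unpair_pair, encodek, Option.getD_some, plays]
      congr 3
      rw [← eZ]
      simp only [bit]
      by_cases h : n % 2 = b
      · simp only [h, if_true]
        cases z (encode (plays z x b n)) <;> rfl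
      · simp only [h, if_false]
        cases x (n / 2) <;> rfl
  have key' := key n
  simp only [Nat.unpair_pair] at key' ⊢
  rw [key', play, bit]
  by_cases h : n % 2 = b
  · simp only [h, if_true, eZ]
  · simp only [h, if_false]
where
  of_primrec_id : PRF fun _ n => n := PRF.of_primrec Primrec.id

/-- The cone argument for primitive recursive equivalence. -/
theorem prCone_of_wins {b : ℕ} (hb : b < 2) {A : Set (ℕ → Bool)} (hA : PrimrecInvariant A)
    (h : Wins b A) : ∃ z : ℕ → Bool, ∀ x, PLe z x → x ∈ A := by
  obtain ⟨s, hs⟩ := h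
  refine ⟨fun n => s ((decode (α := List Bool) n).getD []), fun u hu => ?_⟩
  generalize hz : (fun n => s ((decode (α := List Bool) n).getD [])) = z at hu
  have h1 : play z u b ∈ A := by
    refine hs _ fun n => ?_
    rw [play_own hb, ← hz]
    simp [hist_eq_pre]
  have h2 : MLe u (play z u b) := by
    have hf : Primrec fun n : ℕ => 2 * n + (1 - b) :=
      Primrec.nat_add.comp (Primrec.nat_mul.comp (Primrec.const 2) Primrec.id)
        (Primrec.const (1 - b))
    exact ⟨_, hf, fun n => (play_other hb n).symm⟩
  exact hA _ _ (pLe_play hu) h2.pLe h1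

/-- For primitive recursively invariant sets: from the game to the game of the jump preimage. -/
theorem wins_preimage {b : ℕ} (hb : b < 2) {A : Set (ℕ → Bool)} (hA : PrimrecInvariant A)
    (h : Wins b A) : Wins b (jumpPreimage A) := by
  obtain ⟨z, hz⟩ := prCone_of_wins hb hA h
  exact wins_of_cone hb (z := z) fun u hu => hz _ (mLe_jump hu).pLe

end Pool.Agent.H685R3
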