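import Pool.Agent.H685R3.Inv

set_option autoImplicit false

namespace Pool.Agent.H685R3

open Encodable
open Nat.Partrec (Code)
open Pool.Agent.Helper227

open Classical in
/-- The string before the coding bit: the witness if there is one. -/
noncomputable def mid (z : ℕ → Bool) (e : ℕ) (σ : List Bool) (b : Bool) : List Bool :=
  if h : ∃ τ, Mid z ((e, σ), b) τ then h.choose else σ

theorem mid_spec {z : ℕ → Bool} {e : ℕ} {σ : List Bool} {b : Bool}
    (h : ∃ τ, Mid z ((e, σ), b) τ) : Mid z ((e, σ), b) (mid z e σ b) := by
  rw [mid, dif_pos h]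
  exact h.choose_spec

/-- The strings of the construction. -/
noncomputable def V (z x : ℕ → Bool) : ℕ → List Bool
  | 0 => []
  | e + 1 => mid z e (V z x e) (Psi x e) ++ [x e]

section
variable {z x : ℕ → Bool}

theorem st_iff (z x : ℕ → Bool) (e : ℕ)
    (h : ∀ i < e, Mid z ((i, V z x i), Psi x i) (mid z i (V z x i) (Psi x i))) (σ : List Bool) :
    St z (HS x e) σ ↔ σ = V z x e := by
  constructor
  · rintro ⟨L, ⟨h0, h1⟩, h2⟩
    rw [HS_length] at h1 h2
    have key : ∀ i ≤ e, L.getD i [] = V z x i := by
      intro i
      induction i with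
      | zero => intro _; rw [h0]; rfl
      | succ i ih =>
        intro hi
        obtain ⟨τ, h3, h4⟩ := h2 i (by omega)
        rw [HS_getD x (by omega)] at h3 h4
        rw [ih (by omega)] at h3
        rw [h4, h3.unique (h i (by omega))]
        rfl
    rw [← h1, key e le_rfl]
  · rintro rfl
    have hL : ∀ i ≤ e, ((List.range (e + 1)).map (V z x)).getD i [] = V z x i := by
      intro i hi
      simp [List.getD, Nat.lt_succ_of_le hi]
    refine ⟨(List.range (e + 1)).map (V z x), ⟨?_, ?_⟩, ?_⟩
    · rw [hL 0 (by omega)]; rfl
    · rw [HS_length, hL e le_rfl]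
    · intro i hi
      rw [HS_length] at hi
      rw [HS_getD x hi, hL i (by omega), hL (i + 1) (by omega)]
      exact ⟨_, h i hi, rfl⟩

variable (hx : ∀ n, x (2 * n) = jump z n)
include hx

theorem mid_ok (e : ℕ) : Mid z ((e, V z x e), Psi x e) (mid z e (V z x e) (Psi x e)) := by
  induction e using Nat.strong_induction_on with
  | _ e ih =>
    apply mid_spec
    have h1 : Psi x e = true ↔ CanForce z (HS x e) := by
      rw [f1_spec, Psi, hx]
    have h2 := st_iff z x e ih
    cases hb : Psi x e with
    | false => exact ⟨_, Or.inr ⟨rfl, rfl⟩⟩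
    | true =>
      obtain ⟨σ, h3, τ, h4⟩ := h1.1 hb
      rw [h2] at h3
      subst h3
      rw [HS_length] at h4
      obtain ⟨τ', h5⟩ := G_exists ⟨τ, h4⟩
      exact ⟨τ', Or.inl ⟨rfl, h5⟩⟩

theorem psi_iff (e : ℕ) : Psi x e = true ↔ ∃ τ, Forces z (e, V z x e) τ := by
  have h1 : Psi x e = true ↔ CanForce z (HS x e) := by
    rw [f1_spec, Psi, hx]
  rw [h1]
  have h2 := st_iff z x e fun i _ => mid_ok hx i
  constructor
  · rintro ⟨σ, h3, τ, h4⟩
    rw [h2] at h3
    subst h3
    rw [HS_length] at h4
    exact ⟨τ, h4⟩
  · rintro ⟨τ, h4⟩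
    exact ⟨_, (h2 _).2 rfl, τ, by rw [HS_length]; exact h4⟩

theorem prefix_mid (e : ℕ) : V z x e <+: mid z e (V z x e) (Psi x e) := by
  rcases mid_ok hx e with ⟨_, h⟩ | ⟨_, h⟩
  · have h1 := (G_forces h).1
    simp only at h1
    rw [List.prefix_iff_eq_take, h1]
  · simp only at h
    rw [h]

theorem prefix_succ (e : ℕ) : V z x e <+: V z x (e + 1) :=
  (prefix_mid hx e).trans (List.prefix_append _ _)

theorem prefix_le {e e' : ℕ} (h : e ≤ e') : V z x e <+: V z x e' := by
  induction h with
  | refl => exact List.prefix_rfl
  | step _ ih => exact ih.trans (prefix_succ hx _)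

theorem length_V (e : ℕ) : e ≤ (V z x e).length := by
  induction e with
  | zero => simp
  | succ e ih =>
    have := (prefix_mid hx e).length_le
    simp only [V, List.length_append, List.length_singleton]
    omega

omit hx in
theorem getD_of_prefix {σ τ : List Bool} (h : σ <+: τ) {i : ℕ} (hi : i < σ.length) :
    τ.getD i false = σ.getD i false := by
  obtain ⟨ρ, rfl⟩ := h
  exact List.getD_append _ _ _ _ hi

/-- The limit of the strings. -/
noncomputable def lim (z x : ℕ → Bool) (i : ℕ) : Bool := (V z x (i + 1)).getD i false

theorem lim_eq {e i : ℕ} (hi : i < (V z x e).length) : lim z x i = (V z x e).getD i false := by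
  have h1 : i < (V z x (i + 1)).length := length_V hx (i + 1)
  rcases le_total e (i + 1) with h | h
  · exact getD_of_prefix (prefix_le hx h) hi
  · exact (getD_of_prefix (prefix_le hx h) h1).symm

theorem pre_lim (e : ℕ) : pre (lim z x) (V z x e).length = V z x e := by
  refine List.ext_getElem (by simp) fun i h1 h2 => ?_
  rw [getElem_pre, lim_eq hx h2]
  simp [h2]

theorem lim_mid {e i : ℕ} (hi : i < (mid z e (V z x e) (Psi x e)).length) :
    lim z x i = (mid z e (V z x e) (Psi x e)).getD i false := by
  have h1 : i < (V z x (e + 1)).length := by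
    simp only [V, List.length_append, List.length_singleton]
    omega
  rw [lim_eq hx h1]
  exact getD_of_prefix (List.prefix_append _ _) hi

theorem lim_code (e : ℕ) : lim z x (mid z e (V z x e) (Psi x e)).length = x e := by
  have h1 : (mid z e (V z x e) (Psi x e)).length < (V z x (e + 1)).length := by
    simp only [V, List.length_append, List.length_singleton]
    omega
  rw [lim_eq hx h1]
  simp [V, List.getD]

/-- The real whose jump is `Psi x`. -/
noncomputable def inv (z x : ℕ → Bool) : ℕ → Bool := join z (lim z x)

omit hx in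
theorem inv_even (n : ℕ) : inv z x (2 * n) = z n := by
  simp only [inv, join]
  rw [if_pos (by omega)]
  congr 1
  omega

omit hx in
theorem inv_odd (n : ℕ) : inv z x (2 * n + 1) = lim z x n := by
  simp only [inv, join]
  rw [if_neg (by omega)]
  congr 1
  omega

theorem jump_inv : jump (inv z x) = Psi x := by
  funext e
  have key : jump (inv z x) e = true ↔ Psi x e = true := by
    constructor
    · intro h
      obtain ⟨k, hk⟩ := jump_iff.1 h
      rw [psi_iff hx]
      refine ⟨pre (lim z x) (max (V z x e).length k), ?_, pre (inv z x) k, ⟨?_, hk⟩, ?_⟩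
      · simp only
        rw [take_pre _ _ _ (le_max_left _ _), pre_lim hx]
      · simp only [length_pre]
        omega
      · intro i hi
        rw [length_pre] at hi
        rw [pre_getD _ _ _ _ hi]
        by_cases h0 : i % 2 = 0
        · refine Or.inl ⟨h0, ?_⟩
          conv_rhs => rw [show i = 2 * (i / 2) by omega]
          rw [inv_even]
        · refine Or.inr ⟨h0, ?_⟩
          rw [pre_getD _ _ _ _ (by omega)]
          conv_rhs => rw [show i = 2 * (i / 2) + 1 by omega]
          rw [inv_odd]
    · intro h
      have h1 : Forces z (e, V z x e) (mid z e (V z x e) (Psi x e)) := by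
        rcases mid_ok hx e with ⟨_, h2⟩ | ⟨h2, _⟩
        · exact G_forces h2
        · simp only at h2
          rw [h] at h2
          cases h2
      obtain ⟨_, ρ, ⟨h2, h3⟩, h4⟩ := h1
      rw [jump_iff]
      refine ⟨ρ.length, ?_⟩
      have : pre (inv z x) ρ.length = ρ := by
        refine List.ext_getElem (by simp) fun i h5 h6 => ?_
        rw [getElem_pre]
        have h7 := h4 i h6
        rw [List.getD_eq_getElem _ _ h6] at h7
        rcases h7 with ⟨h8, h9⟩ | ⟨h8, h9⟩
        · rw [← h9]
          conv_lhs => rw [show i = 2 * (i / 2) by omega]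
          rw [inv_even]
        · rw [← h9]
          conv_lhs => rw [show i = 2 * (i / 2) + 1 by omega]
          rw [inv_odd, lim_mid hx (e := e)]
          omega
      rw [this]
      exact h3
  cases h1 : jump (inv z x) e <;> cases h2 : Psi x e <;> simp_all

theorem HT_eq (e : ℕ) : HT (Psi x) e = HS x e ∧ Theta (Psi x) e = x e := by
  have step : ∀ e, HT (Psi x) e = HS x e → Psi x (f2 (HT (Psi x) e, Psi x e)) = x e := by
    intro e he
    rw [he]
    have h1 : Psi x (f2 (HS x e, Psi x e)) = true ↔ x e = true := by
      rw [← jump_inv hx, ← f2_spec]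
      have hz : (fun n => inv z x (2 * n)) = z := funext fun n => inv_even n
      simp only [NextBit, hz]
      rw [jump_inv hx, HS_length]
      constructor
      · rintro ⟨σ, h2, τ, h3, h4⟩
        rw [st_iff z x e fun i _ => mid_ok hx i] at h2
        subst h2
        rw [h3.unique (mid_ok hx e), inv_odd, lim_code hx] at h4
        exact h4
      · intro h2
        refine ⟨_, (st_iff z x e (fun i _ => mid_ok hx i) _).2 rfl, _, mid_ok hx e, ?_⟩
        rw [inv_odd, lim_code hx]
        exact h2
    cases h2 : Psi x (f2 (HS x e, Psi x e)) <;> cases h3 : x e <;> simp_all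
  have main : ∀ e, HT (Psi x) e = HS x e := by
    intro e
    induction e with
    | zero => rfl
    | succ e ih =>
      rw [HT, step e ih, ih]
      rfl
  exact ⟨main e, step e (main e)⟩

/-- Jump inversion: `Psi x` is the jump of a real above `z`, and `x` is recovered from it. -/
theorem inversion : TLe z (inv z x) ∧ jump (inv z x) = Psi x ∧ Theta (Psi x) = x := by
  refine ⟨?_, jump_inv hx, funext fun e => (HT_eq hx e).2⟩
  have hf : Primrec fun n : ℕ => 2 * n := Primrec.nat_mul.comp (Primrec.const 2) Primrec.id
  exact tLe_of_computable hf.to_comp fun n => (inv_even n).symm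

end

theorem isPRMap_Psi : IsPRMap Psi := by
  have hstep : Primrec₂ fun t v : ℕ =>
      encode (((decode (α := List (Bool × Bool)) t.unpair.2).getD []) ++
        [(decide (v.unpair.1 = 1), decide (v.unpair.2 = 1))]) := by
    refine Primrec.encode.comp (Primrec.list_append.comp ?_ (Primrec.list_cons.comp
      (Primrec.pair ?_ ?_) (Primrec.const [])))
    · exact Primrec.option_getD.comp (Primrec.decode.comp (Primrec.snd.comp
        (Primrec.unpair.comp Primrec.fst))) (Primrec.const [])
    · exact (Primrec.eq.comp (Primrec.fst.comp (Primrec.unpair.comp Primrec.snd))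
        (Primrec.const 1)).decide
    · exact (Primrec.eq.comp (Primrec.snd.comp (Primrec.unpair.comp Primrec.snd))
        (Primrec.const 1)).decide
  have hidx : Primrec fun c : ℕ =>
      2 * f1 ((decode (α := List (Bool × Bool)) c).getD []) :=
    Primrec.nat_mul.comp (Primrec.const 2) (primrec_f1.comp
      (Primrec.option_getD.comp Primrec.decode (Primrec.const [])))
  have hbits : PRF fun g t => Nat.pair (g t.unpair.1)
      (g (2 * f1 ((decode (α := List (Bool × Bool)) t.unpair.2).getD []))) :=
    PRF.pair (PRF.precomp PRF.oracle (Primrec.fst.comp Primrec.unpair))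
      (PRF.precomp PRF.oracle (hidx.comp (Primrec.snd.comp Primrec.unpair)))
  have hC := PRF.rec0 (encode ([] : List (Bool × Bool)))
    (PRF.post₂ hstep (PRF.of_primrec Primrec.id) hbits)
  have hfin := PRF.comp (PRF.precomp PRF.oracle hidx) hC
  refine ⟨_, hfin, fun x n => ?_⟩
  have key : ∀ n, Nat.rec (motive := fun _ => ℕ) (encode ([] : List (Bool × Bool)))
      (fun y IH => encode (((decode (α := List (Bool × Bool)) (Nat.pair y IH).unpair.2).getD []) ++
        [(decide ((Nat.pair ((x (Nat.pair y IH).unpair.1).toNat)
          ((x (2 * f1 ((decode (α := List (Bool × Bool)) (Nat.pair y IH).unpair.2).getD []))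
            ).toNat)).unpair.1 = 1),
          decide ((Nat.pair ((x (Nat.pair y IH).unpair.1).toNat)
          ((x (2 * f1 ((decode (α := List (Bool × Bool)) (Nat.pair y IH).unpair.2).getD []))
            ).toNat)).unpair.2 = 1))])) n = encode (HS x n) := by
    intro n
    induction n with
    | zero => rfl
    | succ n ih =>
      simp only at ih ⊢
      rw [ih]
      simp only [Nat.unpair_pair, encodek, Option.getD_some, HS]
      congr 3
      refine Prod.ext ?_ ?_
      · cases x n <;> rfl
      · simp only
        cases x (2 * f1 (HS x n)) <;> rfl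
  have key' := key n
  simp only [id] at key' ⊢
  rw [key']
  simp [Psi]

theorem isPRMap_Theta : IsPRMap Theta := by
  have hstep : Primrec₂ fun t v : ℕ =>
      encode (((decode (α := List (Bool × Bool)) t.unpair.2).getD []) ++
        [(decide (v.unpair.1 = 1), decide (v.unpair.2 = 1))]) := by
    refine Primrec.encode.comp (Primrec.list_append.comp ?_ (Primrec.list_cons.comp
      (Primrec.pair ?_ ?_) (Primrec.const [])))
    · exact Primrec.option_getD.comp (Primrec.decode.comp (Primrec.snd.comp
        (Primrec.unpair.comp Primrec.fst))) (Primrec.const [])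
    · exact (Primrec.eq.comp (Primrec.fst.comp (Primrec.unpair.comp Primrec.snd))
        (Primrec.const 1)).decide
    · exact (Primrec.eq.comp (Primrec.snd.comp (Primrec.unpair.comp Primrec.snd))
        (Primrec.const 1)).decide
  have hidx : Primrec₂ fun c w : ℕ =>
      f2 ((decode (α := List (Bool × Bool)) c).getD [], decide (w = 1)) :=
    primrec_f2.comp (Primrec.pair (Primrec.option_getD.comp (Primrec.decode.comp Primrec.fst)
      (Primrec.const [])) (Primrec.eq.comp Primrec.snd (Primrec.const 1)).decide)
  have hL : PRF fun g t => g t.unpair.1 :=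
    PRF.precomp PRF.oracle (Primrec.fst.comp Primrec.unpair)
  have hR : PRF fun _ t => t.unpair.2 := PRF.of_primrec (Primrec.snd.comp Primrec.unpair)
  -- the coded bit of the stage, from the pair (stage, code of the history)
  have hbit : PRF fun g t => g (f2 ((decode (α := List (Bool × Bool)) t.unpair.2).getD [],
      decide (g t.unpair.1 = 1))) := PRF.comp PRF.oracle (PRF.post₂ hidx hR hL)
  have hbits := PRF.pair hbit hL
  have hC := PRF.rec0 (encode ([] : List (Bool × Bool)))
    (PRF.post₂ hstep (PRF.of_primrec Primrec.id) hbits)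
  have hfin := PRF.comp hbit (PRF.pair (PRF.of_primrec Primrec.id) hC)
  refine ⟨_, hfin, fun x n => ?_⟩
  have hd : ∀ b : Bool, decide (b.toNat = 1) = b := by intro b; cases b <;> rfl
  have key : ∀ n, Nat.rec (motive := fun _ => ℕ) (encode ([] : List (Bool × Bool)))
      (fun y IH => encode (((decode (α := List (Bool × Bool)) IH).getD []) ++
        [(x (f2 ((decode (α := List (Bool × Bool)) IH).getD [], x y)), x y)])) n =
        encode (HT x n) := by
    intro n
    induction n with
    | zero => rfl
    | succ n ih =>
      simp only at ih ⊢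
      rw [ih]
      simp only [encodek, Option.getD_some, HT]
  simp only [id, Nat.unpair_pair, hd]
  rw [key n]
  simp [Theta]

end Pool.Agent.H685R3
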