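import Pool.Agent.H685R3.Fo
import Pool.Agent.H685R3.Inv2

set_option autoImplicit false

namespace Pool.Agent.H685R3

open Encodable
open Nat.Partrec (Code)
open Pool.Agent.Helper227

theorem FT_mono {R : List Bool × ℕ × Bool → Prop}
    (hR : ∀ σ τ e b, σ <+: τ → R (σ, e, b) → R (τ, e, b)) {σ τ : List Bool} {e : ℕ}
    (h : σ <+: τ) (h1 : FT R σ e) : FT R τ e := by
  obtain ⟨ρ, h2, h3⟩ := h1
  exact ⟨ρ, h2, fun i hi => hR _ _ _ _ h (h3 i hi)⟩

theorem Fz_mono (z : ℕ → Bool) (n : ℕ) : ∀ (σ τ : List Bool) (e : ℕ) (b : Bool), σ <+: τ →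
    Fz z n (σ, e, b) → Fz z n (τ, e, b) := by
  induction n with
  | zero =>
    intro σ τ e b h h1
    rcases h1 with h1 | ⟨h1, h2⟩
    · exact Or.inl h1
    · refine Or.inr ⟨h1, ?_⟩
      obtain ⟨ρ, rfl⟩ := h
      simp only at h2 ⊢
      rw [List.getElem?_append_left]
      · exact h2
      · by_contra hc
        rw [List.getElem?_eq_none (by omega)] at h2
        cases h2
  | succ n ih =>
    intro σ τ e b h h1
    rcases h1 with ⟨h1, h2⟩ | ⟨h1, h2⟩
    · exact Or.inl ⟨h1, FT_mono ih h h2⟩
    · exact Or.inr ⟨h1, fun τ' h3 => h2 τ' (h.trans h3)⟩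

/-- `τ` decides the `k`-th statement. -/
def Dec (z : ℕ → Bool) (k : ℕ) (τ : List Bool) : Prop :=
  Fz z k.unpair.1 (τ, k.unpair.2, true) ∨ Fz z k.unpair.1 (τ, k.unpair.2, false)

theorem exists_dec (z : ℕ → Bool) (n e : ℕ) (σ : List Bool) :
    ∃ τ, σ <+: τ ∧ (Fz z n (τ, e, true) ∨ Fz z n (τ, e, false)) := by
  cases n with
  | zero =>
    by_cases he : e % 2 = 0
    · refine ⟨σ, List.prefix_rfl, ?_⟩
      cases hz : z (e / 2)
      · exact Or.inr (Or.inl ⟨he, hz⟩)
      · exact Or.inl (Or.inl ⟨he, hz⟩)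
    · refine ⟨σ ++ List.replicate (e / 2 + 1) false, List.prefix_append _ _, ?_⟩
      have h1 : e / 2 < (σ ++ List.replicate (e / 2 + 1) false).length := by
        simp only [List.length_append, List.length_replicate]
        omega
      cases hb : (σ ++ List.replicate (e / 2 + 1) false)[e / 2]
      · refine Or.inr (Or.inr ⟨he, ?_⟩)
        simp only
        rw [List.getElem?_eq_getElem h1, hb]
      · refine Or.inl (Or.inr ⟨he, ?_⟩)
        simp only
        rw [List.getElem?_eq_getElem h1, hb]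
  | succ n =>
    by_cases h : ∃ τ, σ <+: τ ∧ FT (Fz z n) τ e
    · obtain ⟨τ, h1, h2⟩ := h
      exact ⟨τ, h1, Or.inl (Or.inl ⟨rfl, h2⟩)⟩
    · refine ⟨σ, List.prefix_rfl, Or.inr (Or.inr ⟨rfl, fun τ h1 h2 => h ⟨τ, h1, h2⟩⟩)⟩

/-- The requirement on the string chosen at a stage. -/
def Cond (z : ℕ → Bool) (x : ℕ × List Bool) (τ : List Bool) : Prop := x.2 <+: τ ∧ Dec z x.1 τ

/-- The string with code `j`. -/
def dl (j : ℕ) : List Bool := (decode (α := List Bool) j).getD []

theorem dl_encode (τ : List Bool) : dl (encode τ) = τ := by simp [dl]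

/-- `τ` is the string chosen at the stage. -/
def St1 (z : ℕ → Bool) (x : ℕ × List Bool) (τ : List Bool) : Prop :=
  Cond z x τ ∧ ∀ j < encode τ, ¬ encode (dl j) = j ∨ ¬ Cond z x (dl j)

theorem exists_st1 (z : ℕ → Bool) (x : ℕ × List Bool) : ∃ τ, St1 z x τ := by
  classical
  obtain ⟨τ, h1, h2⟩ := exists_dec z x.1.unpair.1 x.1.unpair.2 x.2
  have hex : ∃ j, encode (dl j) = j ∧ Cond z x (dl j) :=
    ⟨encode τ, by rw [dl_encode], by rw [dl_encode]; exact ⟨h1, h2⟩⟩
  refine ⟨dl (Nat.find hex), (Nat.find_spec hex).2, fun j hj => ?_⟩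
  rw [(Nat.find_spec hex).1] at hj
  exact not_and_or.1 (Nat.find_min hex hj)

theorem St1.unique {z : ℕ → Bool} {x : ℕ × List Bool} {τ τ' : List Bool} (h : St1 z x τ)
    (h' : St1 z x τ') : τ = τ' := by
  rcases lt_trichotomy (encode τ) (encode τ') with h1 | h1 | h1
  · have := h'.2 _ h1
    rw [dl_encode] at this
    exact (this.elim (fun h2 => h2 rfl) fun h2 => h2 h.1).elim
  · exact encode_injective h1
  · have := h.2 _ h1
    rw [dl_encode] at this
    exact (this.elim (fun h2 => h2 rfl) fun h2 => h2 h'.1).elim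

/-- The strings of the construction above `z` coding `w`. -/
noncomputable def Sw (z w : ℕ → Bool) : ℕ → List Bool
  | 0 => []
  | k + 1 => (exists_st1 z (k, Sw z w k ++ [w k])).choose

theorem Sw_st1 (z w : ℕ → Bool) (k : ℕ) : St1 z (k, Sw z w k ++ [w k]) (Sw z w (k + 1)) :=
  (exists_st1 z (k, Sw z w k ++ [w k])).choose_spec

theorem Sw_succ (z w : ℕ → Bool) (k : ℕ) : Sw z w k ++ [w k] <+: Sw z w (k + 1) :=
  (Sw_st1 z w k).1.1

theorem Sw_le (z w : ℕ → Bool) {k k' : ℕ} (h : k ≤ k') : Sw z w k <+: Sw z w k' := by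
  induction h with
  | refl => exact List.prefix_rfl
  | step _ ih => exact ih.trans ((List.prefix_append _ _).trans (Sw_succ z w _))

theorem le_length_Sw (z w : ℕ → Bool) (k : ℕ) : k ≤ (Sw z w k).length := by
  induction k with
  | zero => simp
  | succ k ih =>
    have := (Sw_succ z w k).length_le
    simp only [List.length_append, List.length_singleton] at this
    omega

/-- The generic real. -/
noncomputable def gen (z w : ℕ → Bool) (i : ℕ) : Bool := (Sw z w (i + 1)).getD i false

theorem gen_eq (z w : ℕ → Bool) {k i : ℕ} (hi : i < (Sw z w k).length) :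
    gen z w i = (Sw z w k).getD i false := by
  have h1 : i < (Sw z w (i + 1)).length := le_length_Sw z w (i + 1)
  rcases le_total k (i + 1) with h | h
  · exact getD_of_prefix (Sw_le z w h) hi
  · exact (getD_of_prefix (Sw_le z w h) h1).symm

theorem pre_gen (z w : ℕ → Bool) (k : ℕ) : pre (gen z w) (Sw z w k).length = Sw z w k := by
  refine List.ext_getElem (by simp) fun i h1 h2 => ?_
  rw [getElem_pre, gen_eq z w h2]
  exact List.getD_eq_getElem _ _ h2

theorem gen_length (z w : ℕ → Bool) (k : ℕ) : gen z w (Sw z w k).length = w k := by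
  have h := (Sw_succ z w k).length_le
  simp only [List.length_append, List.length_singleton] at h
  rw [gen_eq z w (k := k + 1) (by omega), getD_of_prefix (Sw_succ z w k) (by simp)]
  simp [List.getD]

theorem exists_bound {P : ℕ → ℕ → Prop} (hP : ∀ i k k', k ≤ k' → P i k → P i k') (N : ℕ)
    (h : ∀ i < N, ∃ k, P i k) : ∃ k, ∀ i < N, P i k := by
  induction N with
  | zero => exact ⟨0, fun i hi => absurd hi (Nat.not_lt_zero i)⟩
  | succ N ih =>
    obtain ⟨k, hk⟩ := ih fun i hi => h i (by omega)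
    obtain ⟨k', hk'⟩ := h N (by omega)
    refine ⟨max k k', fun i hi => ?_⟩
    rcases Nat.lt_succ_iff_lt_or_eq.1 hi with h1 | rfl
    · exact hP _ _ _ (le_max_left _ _) (hk i h1)
    · exact hP _ _ _ (le_max_right _ _) hk'

/-- The truth lemma. -/
theorem truth {z G : ℕ → Bool}
    (hG : ∀ n e, ∃ k, Fz z n (pre G k, e, true) ∨ Fz z n (pre G k, e, false)) (n : ℕ) :
    ∀ e b, jn (join z G) n e = b ↔ ∃ k, Fz z n (pre G k, e, b) := by
  induction n with
  | zero =>
    intro e b
    change join z G e = b ↔ _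
    unfold join
    by_cases he : e % 2 = 0
    · rw [if_pos he]
      constructor
      · intro h
        exact ⟨0, Or.inl ⟨he, h⟩⟩
      · rintro ⟨k, ⟨_, h⟩ | ⟨h, _⟩⟩
        · exact h
        · exact absurd he h
    · rw [if_neg he]
      constructor
      · intro h
        refine ⟨e / 2 + 1, Or.inr ⟨he, ?_⟩⟩
        simp only
        rw [pre_getElem? _ _ _ (Nat.lt_succ_self _), h]
      · rintro ⟨k, ⟨h, _⟩ | ⟨_, h⟩⟩
        · exact absurd h he
        · simp only at h
          by_cases hk : e / 2 < k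
          · rw [pre_getElem? _ _ _ hk] at h
            exact Option.some.inj h
          · rw [pre_getElem?_none _ _ _ (by omega)] at h
            cases h
  | succ n ih =>
    intro e
    have hFT : (∃ k, FT (Fz z n) (pre G k) e) ↔ jump (jn (join z G) n) e = true := by
      rw [jump_iff]
      constructor
      · rintro ⟨k, ρ, h1, h2⟩
        refine ⟨ρ.length, ?_⟩
        have h3 : pre (jn (join z G) n) ρ.length = ρ := by
          refine List.ext_getElem (by simp) fun i h5 h6 => ?_
          rw [getElem_pre, (ih i _).2 ⟨k, h2 i h6⟩]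
          exact List.getD_eq_getElem _ _ h6
        rw [h3]
        exact h1
      · rintro ⟨s, hs⟩
        obtain ⟨k, hk⟩ := exists_bound
          (P := fun i k => Fz z n (pre G k, i, (pre (jn (join z G) n) s).getD i false))
          (fun i k k' h h1 => Fz_mono z n _ _ _ _ (pre_prefix G h) h1) s (fun i hi => by
            refine (ih i _).1 ?_
            rw [pre_getD _ _ _ _ hi])
        exact ⟨k, _, hs, fun i hi => hk i (by simpa using hi)⟩
    have htrue : jn (join z G) (n + 1) e = true ↔ ∃ k, Fz z (n + 1) (pre G k, e, true) := by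
      change jump (jn (join z G) n) e = true ↔ _
      rw [← hFT]
      refine exists_congr fun k => ⟨fun h => Or.inl ⟨rfl, h⟩, ?_⟩
      rintro (⟨_, h⟩ | ⟨h, _⟩)
      · exact h
      · cases h
    intro b
    cases b with
    | true => exact htrue
    | false =>
      constructor
      · intro h
        obtain ⟨k, hk | hk⟩ := hG (n + 1) e
        · rw [htrue.2 ⟨k, hk⟩] at h
          cases h
        · exact ⟨k, hk⟩
      · rintro ⟨k, hk⟩
        rcases hk with ⟨hk, _⟩ | ⟨_, hk⟩
        · cases hk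
        · rw [← Bool.not_eq_true]
          intro h
          obtain ⟨k', hk'⟩ := hFT.2 h
          exact hk _ (pre_prefix G (le_max_left k k'))
            (FT_mono (Fz_mono z n) (pre_prefix G (le_max_right k k')) hk')

theorem gen_generic (z w : ℕ → Bool) (n e : ℕ) :
    ∃ k, Fz z n (pre (gen z w) k, e, true) ∨ Fz z n (pre (gen z w) k, e, false) := by
  refine ⟨(Sw z w (Nat.pair n e + 1)).length, ?_⟩
  rw [pre_gen]
  have h := (Sw_st1 z w (Nat.pair n e)).1.2
  simpa [Dec] using h

theorem truth_Sw (z w : ℕ → Bool) (m : ℕ) (b : Bool) :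
    om (join z (gen z w)) m = b ↔ Fz z m.unpair.1 (Sw z w (m + 1), m.unpair.2, b) := by
  have ht := truth (gen_generic z w) m.unpair.1 m.unpair.2
  constructor
  · intro h
    have h1 : Dec z m (Sw z w (m + 1)) := (Sw_st1 z w m).1.2
    rcases h1 with h1 | h1
    · have h2 := (ht true).2 ⟨_, by rw [pre_gen z w (m + 1)]; exact h1⟩
      have h3 : b = true := by rw [← h, ← h2]; rfl
      rw [h3]
      exact h1
    · have h2 := (ht false).2 ⟨_, by rw [pre_gen z w (m + 1)]; exact h1⟩
      have h3 : b = false := by rw [← h, ← h2]; rfl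
      rw [h3]
      exact h1
  · intro h
    exact (ht b).2 ⟨_, by rw [pre_gen z w (m + 1)]; exact h⟩

end Pool.Agent.H685R3
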