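import Pool.Agent.H685R3.KDefs

set_option autoImplicit false

namespace Pool.Agent.H685R3

open Classical in
/-- The hyperjump of `u`: the bit at `e` is one iff for every `f : ℕ → ℕ` there is `k` such that the
`e`-th program halts on the input consisting of the first `k` values of `f`, the first `k` bits of
`u` and of `e`. -/
noncomputable def hyperJump (u : ℕ → Bool) (e : ℕ) : Bool :=
  decide (∀ f : ℕ → ℕ, ∃ k, ((Denumerable.ofNat Nat.Partrec.Code e).eval
    (Encodable.encode ((List.range k).map f, hist u k, e))).Dom)

/-- `x` is hyperarithmetical (`Δ¹₁`) in `y`: both `x` and its complement are many-one reducible to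
the hyperjump of `y`. -/
def HypLe (x y : ℕ → Bool) : Prop :=
  ∃ f g : ℕ → ℕ, Computable f ∧ Computable g ∧
    ∀ n, (x n = true ↔ hyperJump y (f n) = true) ∧ (x n = false ↔ hyperJump y (g n) = true)

/-- `A` is closed under hyperarithmetical equivalence. -/
def HypInvariant (A : Set (ℕ → Bool)) : Prop :=
  ∀ x y, HypLe x y → HypLe y x → x ∈ A → y ∈ A

end Pool.Agent.H685R3
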