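import Pool.Agent.H685R3.SchUF

set_option autoImplicit false

namespace Pool.Agent.H685R3

open Encodable
open Nat.Partrec (Code)
open Pool.Agent.Helper227

theorem not_countable_cantor : ¬ (Set.univ : Set (ℕ → Bool)).Countable := by
  intro h1
  rw [Set.countable_univ_iff] at h1
  obtain ⟨f, hf⟩ := exists_surjective_nat (ℕ → Bool)
  obtain ⟨n, hn⟩ := hf fun m => !f m m
  have := congrFun hn n
  simp at this

theorem lg_nil (z : ℕ → Bool) : Lg z ([], [], []) := by
  intro h
  apply not_countable_cantor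
  refine h.mono fun x _ => ?_
  change Cl z ([], [], []) x
  refine ⟨rfl, fun _ => 0, rfl, fun e he => ?_⟩
  simp at he

theorem lg_congr {z : ℕ → Bool} {c c' : Cn} (h : ∀ x, Cl z c x → Cl z c' x) (hc : Lg z c) :
    Lg z c' := fun h' => hc (h'.mono fun x hx => h x hx)

theorem lg_tau {z : ℕ → Bool} {σ : List Bool} {τ : List ℕ} {δ : List Bool}
    (h : Lg z (σ, τ, δ)) : ∃ n, Lg z (σ, τ ++ [n], δ) := by
  by_contra hc
  simp only [Lg, not_exists, not_not] at hc
  apply h
  refine (Set.countable_iUnion hc).mono fun x hx => ?_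
  obtain ⟨h1, F, h2, h3⟩ := hx
  simp only at h1 h2 h3
  rw [Set.mem_iUnion]
  refine ⟨F τ.length, h1, F, ?_, h3⟩
  simp only [List.length_append, List.length_singleton]
  simp only [prn] at h2 ⊢
  rw [List.range_succ, List.map_append, h2]
  rfl

theorem lg_split {z : ℕ → Bool} {σ : List Bool} {τ : List ℕ} {δ : List Bool}
    (h : Lg z (σ, τ, δ)) : ∃ σ', σ <+: σ' ∧ Lg z (σ' ++ [false], τ, δ) ∧
      Lg z (σ' ++ [true], τ, δ) := by
  have hb : (⋃ ρ ∈ {ρ | ¬ Lg z (ρ, τ, δ)}, {x | Cl z (ρ, τ, δ) x}).Countable :=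
    (Set.to_countable _).biUnion fun ρ h' => not_not.1 h'
  have h1 : ¬ ({x | Cl z (σ, τ, δ) x} \
      ⋃ ρ ∈ {ρ | ¬ Lg z (ρ, τ, δ)}, {x | Cl z (ρ, τ, δ) x}).Countable := by
    intro h2
    apply h
    refine (h2.union hb).mono fun x hx => ?_
    by_cases h3 : x ∈ ⋃ ρ ∈ {ρ | ¬ Lg z (ρ, τ, δ)}, {x | Cl z (ρ, τ, δ) x}
    · exact Or.inr h3
    · exact Or.inl ⟨hx, h3⟩
  have h2 : ¬ ({x | Cl z (σ, τ, δ) x} \
      ⋃ ρ ∈ {ρ | ¬ Lg z (ρ, τ, δ)}, {x | Cl z (ρ, τ, δ) x}).Subsingleton :=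
    fun h3 => h1 h3.countable
  rw [Set.not_subsingleton_iff] at h2
  obtain ⟨x, hx, y, hy, hxy⟩ := h2
  have hx2 : ∀ ρ, Cl z (ρ, τ, δ) x → Lg z (ρ, τ, δ) := by
    intro ρ h3
    by_contra h4
    exact hx.2 (Set.mem_biUnion (show ρ ∈ {ρ | ¬ Lg z (ρ, τ, δ)} from h4) h3)
  have hy2 : ∀ ρ, Cl z (ρ, τ, δ) y → Lg z (ρ, τ, δ) := by
    intro ρ h3
    by_contra h4
    exact hy.2 (Set.mem_biUnion (show ρ ∈ {ρ | ¬ Lg z (ρ, τ, δ)} from h4) h3)
  have hex : ∃ n, x n ≠ y n := Function.ne_iff.1 hxy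
  classical
  have h3 := Nat.find_spec hex
  have h4 : ∀ m < Nat.find hex, x m = y m := fun m hm => not_not.1 (Nat.find_min hex hm)
  generalize Nat.find hex = n at h3 h4
  have h5 : pre x n = pre y n := pre_congr h4
  have hσx : pre x σ.length = σ := hx.1.1
  have hσy : pre y σ.length = σ := hy.1.1
  have h6 : σ.length ≤ n := by
    by_contra hc
    apply h3
    have h7 : (pre x σ.length).getD n false = (pre y σ.length).getD n false := by
      rw [hσx, hσy]
    rwa [pre_getD _ _ _ _ (by omega), pre_getD _ _ _ _ (by omega)] at h7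
  have hxL : Lg z (pre x n ++ [x n], τ, δ) := by
    apply hx2
    rw [← pre_succ]
    exact ⟨by simp, hx.1.2⟩
  have hyL : Lg z (pre x n ++ [y n], τ, δ) := by
    apply hy2
    rw [h5, ← pre_succ]
    exact ⟨by simp, hy.1.2⟩
  refine ⟨pre x n, ?_, ?_⟩
  · conv_lhs => rw [← hσx]
    exact pre_prefix x h6
  · cases hxn : x n
    · cases hyn : y n
      · rw [hxn, hyn] at h3
        exact absurd rfl h3
      · rw [hxn] at hxL
        rw [hyn] at hyL
        exact ⟨hxL, hyL⟩
    · cases hyn : y n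
      · rw [hxn] at hxL
        rw [hyn] at hyL
        exact ⟨hyL, hxL⟩
      · rw [hxn, hyn] at h3
        exact absurd rfl h3

/-- The union of the small classes. -/
def Small (z : ℕ → Bool) : Set (ℕ → Bool) := ⋃ c ∈ {c : Cn | ¬ Lg z c}, {x | Cl z c x}

theorem countable_small (z : ℕ → Bool) : (Small z).Countable :=
  (Set.to_countable _).biUnion fun _ h' => not_not.1 h'

theorem lg_of_not_small {z : ℕ → Bool} {x : ℕ → Bool} (h : x ∉ Small z) {c : Cn}
    (hc : Cl z c x) : Lg z c := by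
  by_contra h4
  exact h (Set.mem_biUnion (show c ∈ {c : Cn | ¬ Lg z c} from h4) hc)

/-- A splitting node of the condition. -/
def Sp (z : ℕ → Bool) (σ : List Bool) (τ : List ℕ) (δ : List Bool) (σ' : List Bool) : Prop :=
  σ <+: σ' ∧ Lg z (σ' ++ [false], τ, δ) ∧ Lg z (σ' ++ [true], τ, δ)

/-- One stage of the construction, before coding. -/
def Nx (z : ℕ → Bool) (c c' : Cn) : Prop :=
  ∃ v : Bool × ℕ, ((v.1 = true ∧ Lg z (c.1, c.2.1, c.2.2 ++ [true])) ∨
      (v.1 = false ∧ ¬ Lg z (c.1, c.2.1, c.2.2 ++ [true]))) ∧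
    (Lg z (c.1, c.2.1 ++ [v.2], c.2.2 ++ [v.1]) ∧
      ∀ n < v.2, ¬ Lg z (c.1, c.2.1 ++ [n], c.2.2 ++ [v.1])) ∧
    (Sp z c.1 (c.2.1 ++ [v.2]) (c.2.2 ++ [v.1]) c'.1 ∧
      ∀ j < encode c'.1, ¬ encode (dl j) = j ∨
        ¬ Sp z c.1 (c.2.1 ++ [v.2]) (c.2.2 ++ [v.1]) (dl j)) ∧
    c'.2 = (c.2.1 ++ [v.2], c.2.2 ++ [v.1])

theorem exists_nx {z : ℕ → Bool} {c : Cn} (hc : Lg z c) : ∃ c', Nx z c c' := by
  classical
  obtain ⟨d, hd, hL⟩ : ∃ d : Bool, ((d = true ∧ Lg z (c.1, c.2.1, c.2.2 ++ [true])) ∨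
      (d = false ∧ ¬ Lg z (c.1, c.2.1, c.2.2 ++ [true]))) ∧
      Lg z (c.1, c.2.1, c.2.2 ++ [d]) := by
    by_cases h : Lg z (c.1, c.2.1, c.2.2 ++ [true])
    · exact ⟨true, Or.inl ⟨rfl, h⟩, h⟩
    · refine ⟨false, Or.inr ⟨rfl, h⟩, lg_congr (fun x hx => ?_) hc⟩
      obtain ⟨h1, F, h2, h3⟩ := hx
      refine ⟨h1, F, h2, fun e he => h3 e ?_⟩
      simp only at he
      rcases lt_trichotomy e c.2.2.length with h4 | h4 | h4
      · rwa [List.getD_append _ _ _ _ h4] at he
      · rw [List.getD_append_right _ _ _ _ h4.ge, h4] at he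
        simp at he
      · rw [List.getD_eq_default _ _ (by simp; omega)] at he
        cases he
  have hn := lg_tau hL
  obtain ⟨σ', hσ'⟩ := lg_split (Nat.find_spec hn)
  have hex : ∃ j, encode (dl j) = j ∧
      Sp z c.1 (c.2.1 ++ [Nat.find hn]) (c.2.2 ++ [d]) (dl j) :=
    ⟨encode σ', by rw [dl_encode], by rw [dl_encode]; exact hσ'⟩
  refine ⟨(dl (Nat.find hex), c.2.1 ++ [Nat.find hn], c.2.2 ++ [d]), (d, Nat.find hn), hd,
    ⟨Nat.find_spec hn, fun n hn' => Nat.find_min hn hn'⟩, ⟨(Nat.find_spec hex).2, fun j hj => ?_⟩,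
    rfl⟩
  simp only at hj
  rw [(Nat.find_spec hex).1] at hj
  exact not_and_or.1 (Nat.find_min hex hj)

theorem Nx.unique {z : ℕ → Bool} {c c' c'' : Cn} (h : Nx z c c') (h' : Nx z c c'') :
    c' = c'' := by
  obtain ⟨⟨d, n⟩, h1, ⟨h2, h3⟩, ⟨h4, h5⟩, h6⟩ := h
  obtain ⟨⟨d', n'⟩, h1', ⟨h2', h3'⟩, ⟨h4', h5'⟩, h6'⟩ := h'
  simp only at h1 h2 h3 h4 h5 h6 h1' h2' h3' h4' h5' h6'
  have hd : d = d' := by
    rcases h1 with ⟨a, b⟩ | ⟨a, b⟩ <;> rcases h1' with ⟨a', b'⟩ | ⟨a', b'⟩
    · rw [a, a']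
    · exact absurd b b'
    · exact absurd b' b
    · rw [a, a']
  subst hd
  have hn : n = n' := by
    rcases lt_trichotomy n n' with h | h | h
    · exact absurd h2 (h3' n h)
    · exact h
    · exact absurd h2' (h3 n' h)
  subst hn
  have hσ : c'.1 = c''.1 := by
    rcases lt_trichotomy (encode c'.1) (encode c''.1) with h | h | h
    · have := h5' _ h
      rw [dl_encode] at this
      exact (this.elim (fun h2 => h2 rfl) fun h2 => h2 h4).elim
    · exact encode_injective h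
    · have := h5 _ h
      rw [dl_encode] at this
      exact (this.elim (fun h2 => h2 rfl) fun h2 => h2 h4').elim
  exact Prod.ext hσ (h6.trans h6'.symm)

open Classical in
/-- The next condition, before coding. -/
noncomputable def nx (z : ℕ → Bool) (c : Cn) : Cn := if h : ∃ c', Nx z c c' then h.choose else c

theorem nx_spec {z : ℕ → Bool} {c : Cn} (hc : Lg z c) : Nx z c (nx z c) := by
  have h := exists_nx hc
  rw [nx, dif_pos h]
  exact h.choose_spec

/-- The conditions of the construction coding `W`. -/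
noncomputable def Sc (z W : ℕ → Bool) : ℕ → Cn
  | 0 => ([], [], [])
  | k + 1 => ((nx z (Sc z W k)).1 ++ [W k], (nx z (Sc z W k)).2)

theorem lg_Sc (z W : ℕ → Bool) (k : ℕ) : Lg z (Sc z W k) := by
  induction k with
  | zero => exact lg_nil z
  | succ k ih =>
    obtain ⟨v, _, _, ⟨⟨_, h1, h2⟩, _⟩, h3⟩ := nx_spec ih
    rw [Sc, h3]
    cases W k
    · exact h1
    · exact h2

theorem Sc_nx (z W : ℕ → Bool) (k : ℕ) : Nx z (Sc z W k) (nx z (Sc z W k)) := nx_spec (lg_Sc z W k)

theorem Sc_prefix (z W : ℕ → Bool) (k : ℕ) : (Sc z W k).1 <+: (nx z (Sc z W k)).1 := by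
  obtain ⟨v, _, _, ⟨⟨h1, _⟩, _⟩, _⟩ := Sc_nx z W k
  exact h1

theorem Sc_succ1 (z W : ℕ → Bool) (k : ℕ) : (Sc z W k).1 <+: (Sc z W (k + 1)).1 :=
  (Sc_prefix z W k).trans (List.prefix_append _ _)

theorem Sc_succ2 (z W : ℕ → Bool) (k : ℕ) : ∃ v : Bool × ℕ,
    ((v.1 = true ∧ Lg z ((Sc z W k).1, (Sc z W k).2.1, (Sc z W k).2.2 ++ [true])) ∨
      (v.1 = false ∧ ¬ Lg z ((Sc z W k).1, (Sc z W k).2.1, (Sc z W k).2.2 ++ [true]))) ∧
    (Sc z W (k + 1)).2 = ((Sc z W k).2.1 ++ [v.2], (Sc z W k).2.2 ++ [v.1]) := by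
  obtain ⟨v, h0, _, _, h3⟩ := Sc_nx z W k
  exact ⟨v, h0, h3⟩

theorem Sc_le1 (z W : ℕ → Bool) {k k' : ℕ} (h : k ≤ k') : (Sc z W k).1 <+: (Sc z W k').1 := by
  induction h with
  | refl => exact List.prefix_rfl
  | step _ ih => exact ih.trans (Sc_succ1 z W _)

theorem Sc_le2 (z W : ℕ → Bool) {k k' : ℕ} (h : k ≤ k') :
    (Sc z W k).2.1 <+: (Sc z W k').2.1 ∧ (Sc z W k).2.2 <+: (Sc z W k').2.2 := by
  induction h with
  | refl => exact ⟨List.prefix_rfl, List.prefix_rfl⟩
  | step _ ih =>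
    obtain ⟨v, _, h3⟩ := Sc_succ2 z W _
    rw [h3]
    exact ⟨ih.1.trans (List.prefix_append _ _), ih.2.trans (List.prefix_append _ _)⟩

theorem length_Sc2 (z W : ℕ → Bool) (k : ℕ) :
    (Sc z W k).2.1.length = k ∧ (Sc z W k).2.2.length = k := by
  induction k with
  | zero => exact ⟨rfl, rfl⟩
  | succ k ih =>
    obtain ⟨v, _, h3⟩ := Sc_succ2 z W k
    rw [h3]
    simp [ih.1, ih.2]

theorem le_length_Sc (z W : ℕ → Bool) (k : ℕ) : k ≤ (Sc z W k).1.length := by
  induction k with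
  | zero => simp
  | succ k ih =>
    have := (Sc_prefix z W k).length_le
    simp only [Sc, List.length_append, List.length_singleton]
    omega

/-- The real of the construction. -/
noncomputable def gx (z W : ℕ → Bool) (i : ℕ) : Bool := (Sc z W (i + 1)).1.getD i false

/-- The witnesses of the construction. -/
noncomputable def gF (z W : ℕ → Bool) (i : ℕ) : ℕ := (Sc z W (i + 1)).2.1.getD i 0

/-- The decisions of the construction. -/
noncomputable def gD (z W : ℕ → Bool) (i : ℕ) : Bool := (Sc z W (i + 1)).2.2.getD i false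

theorem gx_eq (z W : ℕ → Bool) {k i : ℕ} (hi : i < (Sc z W k).1.length) :
    gx z W i = (Sc z W k).1.getD i false := by
  have h1 : i < (Sc z W (i + 1)).1.length := le_length_Sc z W (i + 1)
  rcases le_total k (i + 1) with h | h
  · exact getD_of_prefix (Sc_le1 z W h) hi
  · exact (getD_of_prefix (Sc_le1 z W h) h1).symm

theorem gF_eq (z W : ℕ → Bool) {k i : ℕ} (hi : i < k) :
    gF z W i = (Sc z W k).2.1.getD i 0 := by
  refine (getD_prefix (Sc_le2 z W (by omega : i + 1 ≤ k)).1 ?_).symm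
  rw [(length_Sc2 z W (i + 1)).1]
  omega

theorem gD_eq (z W : ℕ → Bool) {k i : ℕ} (hi : i < k) :
    gD z W i = (Sc z W k).2.2.getD i false := by
  refine (getD_of_prefix (Sc_le2 z W (by omega : i + 1 ≤ k)).2 ?_).symm
  rw [(length_Sc2 z W (i + 1)).2]
  omega

theorem gx_code (z W : ℕ → Bool) (k : ℕ) : gx z W (nx z (Sc z W k)).1.length = W k := by
  rw [gx_eq z W (k := k + 1)]
  · simp [Sc, List.getD]
  · simp [Sc]

theorem not_halt (z W : ℕ → Bool) {e : ℕ} (he : gD z W e = true) (k : ℕ) :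
    ¬ Halt3 e (prn (fun m => gF z W (Nat.pair e m)) k) (pre (join z (gx z W)) k) := by
  generalize hN : Nat.pair e k + k + e + 1 = N
  have hne : {x | Cl z (Sc z W N) x}.Nonempty := by
    by_contra hc
    rw [Set.not_nonempty_iff_eq_empty] at hc
    exact lg_Sc z W N (by rw [hc]; exact Set.countable_empty)
  obtain ⟨x, h1, F, h2, h3⟩ := hne
  have hlen := le_length_Sc z W N
  have h4 := h3 e (by rw [← gD_eq z W (by omega)]; exact he) k
  have h5 : prn (fun m => F (Nat.pair e m)) k = prn (fun m => gF z W (Nat.pair e m)) k := by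
    refine prn_congr fun m hm => ?_
    have h6 := Nat.pair_lt_pair_right e hm
    rw [gF_eq z W (k := N) (by omega)]
    conv_rhs => rw [← h2]
    rw [(length_Sc2 z W N).1]
    exact (prn_getD F (by omega)).symm
  have h7 : pre (join z x) k = pre (join z (gx z W)) k := by
    refine pre_congr (join_congr fun i hi => ?_)
    rw [gx_eq z W (k := N) (by omega)]
    conv_rhs => rw [← h1]
    exact (pre_getD x _ _ _ (by omega)).symm
  rw [← h5, ← h7]
  exact h4

theorem pre_gx (z W : ℕ → Bool) (k : ℕ) : pre (gx z W) (Sc z W k).1.length = (Sc z W k).1 :=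
  pre_eq_of fun _ hi => gx_eq z W hi

/-- The hyperjump of the join is decided by the construction. -/
theorem hyp_gx {z W : ℕ → Bool} (hs : gx z W ∉ Small z) (e : ℕ) :
    hyperJump (join z (gx z W)) e = !gD z W e := by
  cases hd : gD z W e with
  | true =>
    simp only [Bool.not_true]
    rw [← Bool.not_eq_true]
    intro h
    rw [hyp_iff] at h
    obtain ⟨k, hk⟩ := h fun m => gF z W (Nat.pair e m)
    exact not_halt z W (by simpa using hd) k hk
  | false =>
    simp only [Bool.not_false]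
    by_contra hc
    rw [hyp_iff] at hc
    push Not at hc
    obtain ⟨f, hf⟩ := hc
    obtain ⟨v, h1, h2⟩ := Sc_succ2 z W e
    have h3 : v.1 = false := by
      rw [← hd, gD, h2]
      simp only
      rw [List.getD_append_right _ _ _ _ (by rw [(length_Sc2 z W e).2]),
        (length_Sc2 z W e).2]
      simp
    have h4 : ¬ Lg z ((Sc z W e).1, (Sc z W e).2.1, (Sc z W e).2.2 ++ [true]) := by
      rcases h1 with ⟨h5, _⟩ | ⟨_, h5⟩
      · rw [h3] at h5
        cases h5
      · exact h5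
    apply h4
    apply lg_of_not_small hs
    refine ⟨pre_gx z W e, fun p => if p.unpair.1 = e then f p.unpair.2 else gF z W p,
      prn_eq_of fun p hp => ?_, fun e' he' k hk => ?_⟩
    · simp only at hp
      rw [(length_Sc2 z W e).1] at hp
      have h5 := Nat.unpair_left_le p
      rw [if_neg (by omega), gF_eq z W hp]
    · simp only at he'
      rcases lt_trichotomy e' e with h5 | h5 | h5
      · rw [List.getD_append _ _ _ _ (by rw [(length_Sc2 z W e).2]; exact h5),
          ← gD_eq z W h5] at he'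
        refine not_halt z W he' k ?_
        simpa [Nat.unpair_pair, h5.ne] using hk
      · subst h5
        refine hf k ?_
        simpa [Nat.unpair_pair] using hk
      · rw [List.getD_eq_default] at he'
        · cases he'
        · simp only [List.length_append, List.length_singleton]
          rw [(length_Sc2 z W e).2]
          omega

theorem gx_inj (z : ℕ → Bool) : Function.Injective (gx z) := by
  intro W W' h
  have h1 : ∀ k, Sc z W k = Sc z W' k := by
    intro k
    induction k with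
    | zero => rfl
    | succ k ih =>
      have h2 := gx_code z W k
      rw [h, ih, gx_code z W' k] at h2
      rw [Sc, Sc, ih, h2]
  funext k
  have h2 := gx_code z W k
  rw [h, h1 k, gx_code z W' k] at h2
  exact h2.symm

/-- A real whose join with anything gives a real outside the small set. -/
theorem exists_avoid (z : ℕ → Bool) : ∃ a : ℕ → Bool, ∀ w, gx z (join w a) ∉ Small z := by
  have hc : ((gx z) ⁻¹' (Small z)).Countable :=
    (countable_small z).preimage_of_injOn (gx_inj z).injOn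
  rcases ((gx z) ⁻¹' (Small z)).eq_empty_or_nonempty with h0 | h0
  · refine ⟨fun _ => false, fun w hw => ?_⟩
    have : join w (fun _ => false) ∈ (gx z) ⁻¹' (Small z) := hw
    rw [h0] at this
    exact this
  · obtain ⟨V, hV⟩ := hc.exists_eq_range h0
    refine ⟨fun s => !V s (2 * s + 1), fun w hw => ?_⟩
    have h1 : join w (fun s => !V s (2 * s + 1)) ∈ Set.range V := by
      rw [← hV]
      exact hw
    obtain ⟨s, hs⟩ := h1
    have h2 := congrFun hs (2 * s + 1)
    rw [join_odd] at h2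
    simp at h2

end Pool.Agent.H685R3
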