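import Pool.Agent.H685R3.HGen

set_option autoImplicit false

namespace Pool.Agent.H685R3

open Encodable
open Nat.Partrec (Code)
open Pool.Agent.Helper227

theorem si_Lg (z : ℕ → Bool) : (SI (hyperJump z) fun c : Cn => Lg z c) ∧
    SI (hyperJump z) fun c : Cn => ¬ Lg z c := by
  obtain ⟨g, hg, e⟩ := exists_lg
  constructor
  · have h1 : SI (hyperJump z) fun c : Cn => hyperJump z (g c) = false :=
      SI.query.comp (f := fun c : Cn => (g c, false)) (hg.pair (Primrec.const false))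
    refine h1.of_eq fun c => ?_
    rw [← not_iff_not (b := Lg z c), e z c]
    rw [Bool.not_eq_false]
  · have h1 : SI (hyperJump z) fun c : Cn => hyperJump z (g c) = true :=
      SI.query.comp (f := fun c : Cn => (g c, true)) (hg.pair (Primrec.const true))
    exact h1.of_eq fun c => (e z c).symm

theorem si_Sp (z : ℕ → Bool) :
    (SI (hyperJump z) fun x : List Bool × List ℕ × List Bool × List Bool =>
      Sp z x.1 x.2.1 x.2.2.1 x.2.2.2) ∧
    SI (hyperJump z) fun x : List Bool × List ℕ × List Bool × List Bool =>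
      ¬ Sp z x.1 x.2.1 x.2.2.1 x.2.2.2 := by
  have h1 : Primrec fun x : List Bool × List ℕ × List Bool × List Bool => x.1 := Primrec.fst
  have h2 : Primrec fun x : List Bool × List ℕ × List Bool × List Bool => x.2.1 :=
    Primrec.fst.comp Primrec.snd
  have h3 : Primrec fun x : List Bool × List ℕ × List Bool × List Bool => x.2.2.1 :=
    Primrec.fst.comp (Primrec.snd.comp Primrec.snd)
  have h4 : Primrec fun x : List Bool × List ℕ × List Bool × List Bool => x.2.2.2 :=
    Primrec.snd.comp (Primrec.snd.comp Primrec.snd)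
  have hp : PrimrecPred fun x : List Bool × List ℕ × List Bool × List Bool =>
      x.1 = x.2.2.2.take x.1.length :=
    Primrec.eq.comp h1 (Primrec.list_take.comp (Primrec.list_length.comp h1) h4)
  have hc : ∀ b : Bool, Primrec fun x : List Bool × List ℕ × List Bool × List Bool =>
      ((x.2.2.2 ++ [b], x.2.1, x.2.2.1) : Cn) := fun b =>
    (Primrec.list_append.comp h4 (Primrec.const [b])).pair (h2.pair h3)
  constructor
  · refine (SI.and (SI.of_prim hp) (SI.and ((si_Lg z).1.comp (hc false))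
      ((si_Lg z).1.comp (hc true)))).of_eq fun x => ?_
    simp only [Sp, List.prefix_iff_eq_take]
  · refine (SI.or (SI.of_prim hp.not) (SI.or ((si_Lg z).2.comp (hc false))
      ((si_Lg z).2.comp (hc true)))).of_eq fun x => ?_
    simp only [Sp, List.prefix_iff_eq_take, not_and_or]

theorem si_Nx (z : ℕ → Bool) : SI (hyperJump z) fun x : Cn × Cn => Nx z x.1 x.2 := by
  refine SI.ex (p := fun (x : Cn × Cn) (v : Bool × ℕ) =>
    ((v.1 = true ∧ Lg z (x.1.1, x.1.2.1, x.1.2.2 ++ [true])) ∨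
      (v.1 = false ∧ ¬ Lg z (x.1.1, x.1.2.1, x.1.2.2 ++ [true]))) ∧
    (Lg z (x.1.1, x.1.2.1 ++ [v.2], x.1.2.2 ++ [v.1]) ∧
      ∀ n < v.2, ¬ Lg z (x.1.1, x.1.2.1 ++ [n], x.1.2.2 ++ [v.1])) ∧
    (Sp z x.1.1 (x.1.2.1 ++ [v.2]) (x.1.2.2 ++ [v.1]) x.2.1 ∧
      ∀ j < encode x.2.1, ¬ encode (dl j) = j ∨
        ¬ Sp z x.1.1 (x.1.2.1 ++ [v.2]) (x.1.2.2 ++ [v.1]) (dl j)) ∧
    x.2.2 = (x.1.2.1 ++ [v.2], x.1.2.2 ++ [v.1])) ?_
  have hσ : Primrec fun y : (Cn × Cn) × Bool × ℕ => y.1.1.1 :=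
    Primrec.fst.comp (Primrec.fst.comp Primrec.fst)
  have hτ : Primrec fun y : (Cn × Cn) × Bool × ℕ => y.1.1.2.1 :=
    Primrec.fst.comp (Primrec.snd.comp (Primrec.fst.comp Primrec.fst))
  have hδ : Primrec fun y : (Cn × Cn) × Bool × ℕ => y.1.1.2.2 :=
    Primrec.snd.comp (Primrec.snd.comp (Primrec.fst.comp Primrec.fst))
  have hd : Primrec fun y : (Cn × Cn) × Bool × ℕ => y.2.1 := Primrec.fst.comp Primrec.snd
  have hn : Primrec fun y : (Cn × Cn) × Bool × ℕ => y.2.2 := Primrec.snd.comp Primrec.snd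
  have hτ' : Primrec fun y : (Cn × Cn) × Bool × ℕ => y.1.1.2.1 ++ [y.2.2] :=
    Primrec.list_append.comp hτ (Primrec.list_cons.comp hn (Primrec.const []))
  have hδ' : Primrec fun y : (Cn × Cn) × Bool × ℕ => y.1.1.2.2 ++ [y.2.1] :=
    Primrec.list_append.comp hδ (Primrec.list_cons.comp hd (Primrec.const []))
  have hδt : Primrec fun y : (Cn × Cn) × Bool × ℕ => y.1.1.2.2 ++ [true] :=
    Primrec.list_append.comp hδ (Primrec.const [true])
  refine SI.and (SI.or (SI.and (SI.of_prim (Primrec.eq.comp hd (Primrec.const true))) ?_)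
    (SI.and (SI.of_prim (Primrec.eq.comp hd (Primrec.const false))) ?_)) (SI.and (SI.and ?_ ?_)
      (SI.and (SI.and ?_ ?_) (SI.of_prim ?_)))
  · exact (si_Lg z).1.comp (f := fun y : (Cn × Cn) × Bool × ℕ =>
      ((y.1.1.1, y.1.1.2.1, y.1.1.2.2 ++ [true]) : Cn)) (hσ.pair (hτ.pair hδt))
  · exact (si_Lg z).2.comp (f := fun y : (Cn × Cn) × Bool × ℕ =>
      ((y.1.1.1, y.1.1.2.1, y.1.1.2.2 ++ [true]) : Cn)) (hσ.pair (hτ.pair hδt))
  · exact (si_Lg z).1.comp (f := fun y : (Cn × Cn) × Bool × ℕ =>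
      ((y.1.1.1, y.1.1.2.1 ++ [y.2.2], y.1.1.2.2 ++ [y.2.1]) : Cn)) (hσ.pair (hτ'.pair hδ'))
  · refine SI.all_lt (α := (Cn × Cn) × Bool × ℕ) (p := fun y n =>
      ¬ Lg z (y.1.1.1, y.1.1.2.1 ++ [n], y.1.1.2.2 ++ [y.2.1])) (f := fun y => y.2.2) ?_ hn
    exact (si_Lg z).2.comp (f := fun y : ((Cn × Cn) × Bool × ℕ) × ℕ =>
      ((y.1.1.1.1, y.1.1.1.2.1 ++ [y.2], y.1.1.1.2.2 ++ [y.1.2.1]) : Cn))
      ((hσ.comp Primrec.fst).pair ((Primrec.list_append.comp (hτ.comp Primrec.fst)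
        (Primrec.list_cons.comp Primrec.snd (Primrec.const []))).pair (hδ'.comp Primrec.fst)))
  · exact (si_Sp z).1.comp (f := fun y : (Cn × Cn) × Bool × ℕ =>
      (y.1.1.1, y.1.1.2.1 ++ [y.2.2], y.1.1.2.2 ++ [y.2.1], y.1.2.1)) (hσ.pair (hτ'.pair
        (hδ'.pair (Primrec.fst.comp (Primrec.snd.comp Primrec.fst)))))
  · refine SI.all_lt (α := (Cn × Cn) × Bool × ℕ) (p := fun y j => ¬ encode (dl j) = j ∨
        ¬ Sp z y.1.1.1 (y.1.1.2.1 ++ [y.2.2]) (y.1.1.2.2 ++ [y.2.1]) (dl j))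
        (f := fun y => encode y.1.2.1) (SI.or (SI.of_prim (PrimrecPred.not ?_)) ?_)
        (Primrec.encode.comp (Primrec.fst.comp (Primrec.snd.comp Primrec.fst)))
    · exact Primrec.eq.comp (Primrec.encode.comp (primrec_dl.comp Primrec.snd)) Primrec.snd
    · exact (si_Sp z).2.comp (f := fun y : ((Cn × Cn) × Bool × ℕ) × ℕ =>
        (y.1.1.1.1, y.1.1.1.2.1 ++ [y.1.2.2], y.1.1.1.2.2 ++ [y.1.2.1], dl y.2))
        ((hσ.comp Primrec.fst).pair ((hτ'.comp Primrec.fst).pair
          ((hδ'.comp Primrec.fst).pair (primrec_dl.comp Primrec.snd))))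
  · exact Primrec.eq.comp (Primrec.snd.comp (Primrec.snd.comp Primrec.fst)) (hτ'.pair hδ')

/-- The initial condition. -/
def c0 : Cn := ([], [], [])

/-- The list `L` contains the conditions of the first stages, the coded bits being determined by
the predicate `p`. -/
def Run (z : ℕ → Bool) (p : ℕ × Cn × Bool → Prop) (N : ℕ) (L : List Cn) : Prop :=
  L.getD 0 c0 = c0 ∧ ∀ i < N, ∃ v : Cn × Bool, Nx z (L.getD i c0) v.1 ∧
    L.getD (i + 1) c0 = (v.1.1 ++ [v.2], v.1.2) ∧ p (i, v.1, v.2)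

theorem si_Run {z Y : ℕ → Bool} (hz : TLe (hyperJump z) Y) {p : ℕ × Cn × Bool → Prop}
    (hp : SI Y p) : SI Y fun x : ℕ × List Cn => Run z p x.1 x.2 := by
  refine SI.and (SI.of_prim ?_) ?_
  · exact Primrec.eq.comp ((Primrec.list_getD c0).comp Primrec.snd (Primrec.const 0))
      (Primrec.const c0)
  · refine SI.all_lt (α := ℕ × List Cn) (p := fun x i =>
      ∃ v : Cn × Bool, Nx z (x.2.getD i c0) v.1 ∧
        x.2.getD (i + 1) c0 = (v.1.1 ++ [v.2], v.1.2) ∧ p (i, v.1, v.2)) (f := fun x => x.1) ?_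
      Primrec.fst
    refine SI.ex (α := (ℕ × List Cn) × ℕ) (p := fun x (v : Cn × Bool) =>
      Nx z (x.1.2.getD x.2 c0) v.1 ∧
        x.1.2.getD (x.2 + 1) c0 = (v.1.1 ++ [v.2], v.1.2) ∧ p (x.2, v.1, v.2))
        (SI.and ?_ (SI.and (SI.of_prim ?_) ?_))
    · exact ((si_Nx z).trans hz).comp (f := fun y : ((ℕ × List Cn) × ℕ) × Cn × Bool =>
        (y.1.1.2.getD y.1.2 c0, y.2.1)) (((Primrec.list_getD c0).comp
          (Primrec.snd.comp (Primrec.fst.comp Primrec.fst)) (Primrec.snd.comp Primrec.fst)).pair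
            (Primrec.fst.comp Primrec.snd))
    · exact Primrec.eq.comp ((Primrec.list_getD c0).comp
          (Primrec.snd.comp (Primrec.fst.comp Primrec.fst))
            (Primrec.succ.comp (Primrec.snd.comp Primrec.fst)))
          ((Primrec.list_append.comp (Primrec.fst.comp (Primrec.fst.comp Primrec.snd))
            (Primrec.list_cons.comp (Primrec.snd.comp Primrec.snd) (Primrec.const []))).pair
              (Primrec.snd.comp (Primrec.fst.comp Primrec.snd)))
    · exact hp.comp (f := fun y : ((ℕ × List Cn) × ℕ) × Cn × Bool => (y.1.2, y.2.1, y.2.2))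
        ((Primrec.snd.comp Primrec.fst).pair Primrec.snd)

theorem Run.eq {z W : ℕ → Bool} {p : ℕ × Cn × Bool → Prop} {N : ℕ} {L : List Cn}
    (h : Run z p N L) (hp : ∀ i b, p (i, nx z (Sc z W i), b) → b = W i) :
    ∀ i ≤ N, L.getD i c0 = Sc z W i := by
  intro i
  induction i with
  | zero => intro _; exact h.1
  | succ i ih =>
    intro hi
    obtain ⟨v, h1, h2, h3⟩ := h.2 i (by omega)
    rw [ih (by omega)] at h1
    have h4 := h1.unique (Sc_nx z W i)
    rw [h4] at h2 h3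
    rw [h2, hp i _ h3]
    rfl

theorem run_Sc {z W : ℕ → Bool} {p : ℕ × Cn × Bool → Prop}
    (hp : ∀ i, p (i, nx z (Sc z W i), W i)) (N : ℕ) :
    Run z p N ((List.range (N + 1)).map (Sc z W)) := by
  have h1 : ∀ i ≤ N, ((List.range (N + 1)).map (Sc z W)).getD i c0 = Sc z W i := by
    intro i hi
    simp [List.getD, Nat.lt_succ_of_le hi]
  refine ⟨h1 0 (Nat.zero_le _), fun i hi => ⟨(nx z (Sc z W i), W i), ?_, ?_, hp i⟩⟩
  · rw [h1 i hi.le]
    exact Sc_nx z W i
  · rw [h1 (i + 1) hi]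
    rfl

theorem hyp_join_le {z W w : ℕ → Bool} (hz : TLe (hyperJump z) w) (hW : TLe W w)
    (hs : gx z W ∉ Small z) : TLe (hyperJump (join z (gx z W))) w := by
  rw [tLe_iff_SI]
  have hp : SI w fun x : ℕ × Cn × Bool => W x.1 = x.2.2 :=
    (tLe_iff_SI.1 hW).comp (f := fun x : ℕ × Cn × Bool => (x.1, x.2.2))
      (Primrec.fst.pair (Primrec.snd.comp Primrec.snd))
  have h1 : SI w fun x : ℕ × Bool => ∃ L : List Cn,
      Run z (fun x : ℕ × Cn × Bool => W x.1 = x.2.2) (x.1 + 1) L ∧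
        (!(L.getD (x.1 + 1) c0).2.2.getD x.1 false) = x.2 := by
    refine SI.ex (p := fun (x : ℕ × Bool) (L : List Cn) =>
      Run z (fun x : ℕ × Cn × Bool => W x.1 = x.2.2) (x.1 + 1) L ∧
        (!(L.getD (x.1 + 1) c0).2.2.getD x.1 false) = x.2) (SI.and ?_ (SI.of_prim ?_))
    · exact (si_Run hz hp).comp (f := fun y : (ℕ × Bool) × List Cn => (y.1.1 + 1, y.2))
        ((Primrec.succ.comp (Primrec.fst.comp Primrec.fst)).pair Primrec.snd)
    · exact Primrec.eq.comp (Primrec.not.comp ((Primrec.list_getD false).comp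
        (Primrec.snd.comp (Primrec.snd.comp ((Primrec.list_getD c0).comp Primrec.snd
          (Primrec.succ.comp (Primrec.fst.comp Primrec.fst))))) (Primrec.fst.comp Primrec.fst)))
          (Primrec.snd.comp Primrec.fst)
  refine h1.of_eq fun x => ?_
  obtain ⟨m, b⟩ := x
  simp only
  rw [hyp_gx hs m, gD]
  constructor
  · rintro ⟨L, h2, h3⟩
    have h5 := h2.eq (W := W) (fun i b h => h.symm) (m + 1) le_rfl
    rwa [h5] at h3
  · intro h2
    refine ⟨(List.range (m + 1 + 1)).map (Sc z W), run_Sc (fun i => rfl) (m + 1), ?_⟩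
    have h1 : ((List.range (m + 1 + 1)).map (Sc z W)).getD (m + 1) c0 = Sc z W (m + 1) := by
      simp [List.getD]
    rw [h1]
    exact h2

theorem le_hyp_join (z W : ℕ → Bool) : TLe W (hyperJump (join z (gx z W))) := by
  generalize hu : join z (gx z W) = u
  have hzu : TLe z u := hu ▸ tLe_join z _
  have hz : TLe (hyperJump z) (hyperJump u) := (HypLe.of_tLe hzu).hyp
  have hq : SI (hyperJump u) fun x : ℕ × Bool => u x.1 = x.2 := tLe_iff_SI.1 (le_hyp u)
  rw [tLe_iff_SI]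
  have hlen : Primrec fun x : ℕ × Cn × Bool => (2 * x.2.1.1.length + 1, x.2.2) :=
    (Primrec.succ.comp (Primrec.nat_mul.comp (Primrec.const 2) (Primrec.list_length.comp
      (Primrec.fst.comp (Primrec.fst.comp Primrec.snd))))).pair (Primrec.snd.comp Primrec.snd)
  have hp : SI (hyperJump u) fun x : ℕ × Cn × Bool => u (2 * x.2.1.1.length + 1) = x.2.2 :=
    hq.comp hlen
  have h1 : SI (hyperJump u) fun x : ℕ × Bool => ∃ y : List Cn × Cn,
      Run z (fun x : ℕ × Cn × Bool => u (2 * x.2.1.1.length + 1) = x.2.2) x.1 y.1 ∧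
        Nx z (y.1.getD x.1 c0) y.2 ∧ u (2 * y.2.1.length + 1) = x.2 := by
    refine SI.ex (p := fun (x : ℕ × Bool) (y : List Cn × Cn) =>
      Run z (fun x : ℕ × Cn × Bool => u (2 * x.2.1.1.length + 1) = x.2.2) x.1 y.1 ∧
        Nx z (y.1.getD x.1 c0) y.2 ∧ u (2 * y.2.1.length + 1) = x.2) (SI.and ?_ (SI.and ?_ ?_))
    · exact (si_Run hz hp).comp (f := fun y : (ℕ × Bool) × List Cn × Cn => (y.1.1, y.2.1))
        ((Primrec.fst.comp Primrec.fst).pair (Primrec.fst.comp Primrec.snd))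
    · exact ((si_Nx z).trans hz).comp (f := fun y : (ℕ × Bool) × List Cn × Cn =>
        (y.2.1.getD y.1.1 c0, y.2.2)) (((Primrec.list_getD c0).comp
          (Primrec.fst.comp Primrec.snd) (Primrec.fst.comp Primrec.fst)).pair
            (Primrec.snd.comp Primrec.snd))
    · exact hq.comp (f := fun y : (ℕ × Bool) × List Cn × Cn =>
        (2 * y.2.2.1.length + 1, y.1.2)) ((Primrec.succ.comp (Primrec.nat_mul.comp
          (Primrec.const 2) (Primrec.list_length.comp (Primrec.fst.comp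
            (Primrec.snd.comp Primrec.snd))))).pair (Primrec.snd.comp Primrec.fst))
  have key : ∀ k, u (2 * (nx z (Sc z W k)).1.length + 1) = W k := by
    intro k
    rw [← hu, join_odd, gx_code]
  refine h1.of_eq fun x => ?_
  obtain ⟨m, b⟩ := x
  simp only
  constructor
  · rintro ⟨⟨L, c'⟩, h2, h3, h4⟩
    simp only at h2 h3 h4
    have h5 := h2.eq (W := W) (fun i b h => by
      simp only at h
      rw [key] at h
      exact h.symm) m le_rfl
    rw [h5] at h3
    rw [h3.unique (Sc_nx z W m), key] at h4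
    exact h4
  · intro h2
    refine ⟨((List.range (m + 1)).map (Sc z W), nx z (Sc z W m)),
      run_Sc (fun i => key i) m, ?_, ?_⟩
    · have h1 : ((List.range (m + 1)).map (Sc z W)).getD m c0 = Sc z W m := by
        simp [List.getD]
      rw [h1]
      exact Sc_nx z W m
    · simp only
      rw [key]
      exact h2

end Pool.Agent.H685R3
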