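import Pool.Agent.H685R3.Inv2

set_option autoImplicit false

namespace Pool.Agent.H685R3

open Encodable
open Nat.Partrec (Code)
open Pool.Agent.Helper227

namespace Z

/-- The histories (coded bit, jump bit) of the construction above `z` coding `b`. -/
noncomputable def HZ (z b : ℕ → Bool) : ℕ → List (Bool × Bool)
  | 0 => []
  | e + 1 => HZ z b e ++ [(b e, jump z (f1 (HZ z b e)))]

/-- The jump of the real built above `z` coding `b`. -/
noncomputable def PZ (z b : ℕ → Bool) (e : ℕ) : Bool := jump z (f1 (HZ z b e))

theorem HZ_eq (z b : ℕ → Bool) (e : ℕ) :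
    HZ z b e = (List.range e).map fun i => (b i, PZ z b i) := by
  induction e with
  | zero => rfl
  | succ e ih =>
    rw [List.range_succ, List.map_append, ← ih]
    rfl

theorem HZ_length (z b : ℕ → Bool) (e : ℕ) : (HZ z b e).length = e := by simp [HZ_eq]

theorem HZ_getD (z b : ℕ → Bool) {e i : ℕ} (h : i < e) :
    (HZ z b e).getD i (false, false) = (b i, PZ z b i) := by
  rw [HZ_eq]
  simp [List.getD, h]

theorem HZ_congr {z b b' : ℕ → Bool} (e : ℕ) (h : ∀ i < e, b i = b' i) :
    HZ z b e = HZ z b' e := by
  induction e with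
  | zero => rfl
  | succ e ih =>
    have h1 := ih fun i hi => h i (by omega)
    rw [HZ, HZ, h1, h e (by omega)]

theorem PZ_congr {z b b' : ℕ → Bool} (e : ℕ) (h : ∀ i < e, b i = b' i) :
    PZ z b e = PZ z b' e := by
  rw [PZ, PZ, HZ_congr e h]

/-- The strings of the construction. -/
noncomputable def V (z b : ℕ → Bool) : ℕ → List Bool
  | 0 => []
  | e + 1 => mid z e (V z b e) (PZ z b e) ++ [b e]

theorem st_iff (z b : ℕ → Bool) (e : ℕ)
    (h : ∀ i < e, Mid z ((i, V z b i), PZ z b i) (mid z i (V z b i) (PZ z b i)))
    (σ : List Bool) : St z (HZ z b e) σ ↔ σ = V z b e := by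
  constructor
  · rintro ⟨L, ⟨h0, h1⟩, h2⟩
    rw [HZ_length] at h1 h2
    have key : ∀ i ≤ e, L.getD i [] = V z b i := by
      intro i
      induction i with
      | zero => intro _; rw [h0]; rfl
      | succ i ih =>
        intro hi
        obtain ⟨τ, h3, h4⟩ := h2 i (by omega)
        rw [HZ_getD z b (by omega)] at h3 h4
        rw [ih (by omega)] at h3
        rw [h4, h3.unique (h i (by omega))]
        rfl
    rw [← h1, key e le_rfl]
  · rintro rfl
    have hL : ∀ i ≤ e, ((List.range (e + 1)).map (V z b)).getD i [] = V z b i := by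
      intro i hi
      simp [List.getD, Nat.lt_succ_of_le hi]
    refine ⟨(List.range (e + 1)).map (V z b), ⟨?_, ?_⟩, ?_⟩
    · rw [hL 0 (by omega)]; rfl
    · rw [HZ_length, hL e le_rfl]
    · intro i hi
      rw [HZ_length] at hi
      rw [HZ_getD z b hi, hL i (by omega), hL (i + 1) (by omega)]
      exact ⟨_, h i hi, rfl⟩

variable (z b : ℕ → Bool)

theorem mid_ok (e : ℕ) : Mid z ((e, V z b e), PZ z b e) (mid z e (V z b e) (PZ z b e)) := by
  induction e using Nat.strong_induction_on with
  | _ e ih =>
    apply mid_spec
    have h1 : PZ z b e = true ↔ CanForce z (HZ z b e) := by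
      rw [f1_spec, PZ]
    have h2 := st_iff z b e ih
    cases hb : PZ z b e with
    | false => exact ⟨_, Or.inr ⟨rfl, rfl⟩⟩
    | true =>
      obtain ⟨σ, h3, τ, h4⟩ := h1.1 hb
      rw [h2] at h3
      subst h3
      rw [HZ_length] at h4
      obtain ⟨τ', h5⟩ := G_exists ⟨τ, h4⟩
      exact ⟨τ', Or.inl ⟨rfl, h5⟩⟩

theorem psi_iff (e : ℕ) : PZ z b e = true ↔ ∃ τ, Forces z (e, V z b e) τ := by
  have h1 : PZ z b e = true ↔ CanForce z (HZ z b e) := by
    rw [f1_spec, PZ]
  rw [h1]
  have h2 := st_iff z b e fun i _ => mid_ok z b i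
  constructor
  · rintro ⟨σ, h3, τ, h4⟩
    rw [h2] at h3
    subst h3
    rw [HZ_length] at h4
    exact ⟨τ, h4⟩
  · rintro ⟨τ, h4⟩
    exact ⟨_, (h2 _).2 rfl, τ, by rw [HZ_length]; exact h4⟩

theorem prefix_mid (e : ℕ) : V z b e <+: mid z e (V z b e) (PZ z b e) := by
  rcases mid_ok z b e with ⟨_, h⟩ | ⟨_, h⟩
  · have h1 := (G_forces h).1
    simp only at h1
    rw [List.prefix_iff_eq_take, h1]
  · simp only at h
    rw [h]

theorem prefix_succ (e : ℕ) : V z b e <+: V z b (e + 1) :=
  (prefix_mid z b e).trans (List.prefix_append _ _)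

theorem prefix_le {e e' : ℕ} (h : e ≤ e') : V z b e <+: V z b e' := by
  induction h with
  | refl => exact List.prefix_rfl
  | step _ ih => exact ih.trans (prefix_succ z b _)

theorem length_V (e : ℕ) : e ≤ (V z b e).length := by
  induction e with
  | zero => simp
  | succ e ih =>
    have := (prefix_mid z b e).length_le
    simp only [V, List.length_append, List.length_singleton]
    omega

/-- The limit of the strings. -/
noncomputable def lim (i : ℕ) : Bool := (V z b (i + 1)).getD i false

theorem lim_eq {e i : ℕ} (hi : i < (V z b e).length) : lim z b i = (V z b e).getD i false := by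
  have h1 : i < (V z b (i + 1)).length := length_V z b (i + 1)
  rcases le_total e (i + 1) with h | h
  · exact getD_of_prefix (prefix_le z b h) hi
  · exact (getD_of_prefix (prefix_le z b h) h1).symm

theorem pre_lim (e : ℕ) : pre (lim z b) (V z b e).length = V z b e := by
  refine List.ext_getElem (by simp) fun i h1 h2 => ?_
  rw [getElem_pre, lim_eq z b h2]
  simp [h2]

theorem lim_mid {e i : ℕ} (hi : i < (mid z e (V z b e) (PZ z b e)).length) :
    lim z b i = (mid z e (V z b e) (PZ z b e)).getD i false := by
  have h1 : i < (V z b (e + 1)).length := by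
    simp only [V, List.length_append, List.length_singleton]
    omega
  rw [lim_eq z b h1]
  exact getD_of_prefix (List.prefix_append _ _) hi

theorem lim_code (e : ℕ) : lim z b (mid z e (V z b e) (PZ z b e)).length = b e := by
  have h1 : (mid z e (V z b e) (PZ z b e)).length < (V z b (e + 1)).length := by
    simp only [V, List.length_append, List.length_singleton]
    omega
  rw [lim_eq z b h1]
  simp [V, List.getD]

/-- The real built above `z` coding `b`. -/
noncomputable def inv : ℕ → Bool := join z (lim z b)

theorem inv_even (n : ℕ) : inv z b (2 * n) = z n := by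
  simp only [inv, join]
  rw [if_pos (by omega)]
  congr 1
  omega

theorem inv_odd (n : ℕ) : inv z b (2 * n + 1) = lim z b n := by
  simp only [inv, join]
  rw [if_neg (by omega)]
  congr 1
  omega

theorem jump_inv : jump (inv z b) = PZ z b := by
  funext e
  have key : jump (inv z b) e = true ↔ PZ z b e = true := by
    constructor
    · intro h
      obtain ⟨k, hk⟩ := jump_iff.1 h
      rw [psi_iff]
      refine ⟨pre (lim z b) (max (V z b e).length k), ?_, pre (inv z b) k, ⟨?_, hk⟩, ?_⟩
      · simp only
        rw [take_pre _ _ _ (le_max_left _ _), pre_lim]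
      · simp only [length_pre]
        omega
      · intro i hi
        rw [length_pre] at hi
        rw [pre_getD _ _ _ _ hi]
        by_cases h0 : i % 2 = 0
        · refine Or.inl ⟨h0, ?_⟩
          conv_rhs => rw [show i = 2 * (i / 2) by omega]
          rw [inv_even]
        · refine Or.inr ⟨h0, ?_⟩
          rw [pre_getD _ _ _ _ (by omega)]
          conv_rhs => rw [show i = 2 * (i / 2) + 1 by omega]
          rw [inv_odd]
    · intro h
      have h1 : Forces z (e, V z b e) (mid z e (V z b e) (PZ z b e)) := by
        rcases mid_ok z b e with ⟨_, h2⟩ | ⟨h2, _⟩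
        · exact G_forces h2
        · simp only at h2
          rw [h] at h2
          cases h2
      obtain ⟨_, ρ, ⟨h2, h3⟩, h4⟩ := h1
      rw [jump_iff]
      refine ⟨ρ.length, ?_⟩
      have : pre (inv z b) ρ.length = ρ := by
        refine List.ext_getElem (by simp) fun i h5 h6 => ?_
        rw [getElem_pre]
        have h7 := h4 i h6
        rw [List.getD_eq_getElem _ _ h6] at h7
        rcases h7 with ⟨h8, h9⟩ | ⟨h8, h9⟩
        · rw [← h9]
          conv_lhs => rw [show i = 2 * (i / 2) by omega]
          rw [inv_even]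
        · rw [← h9]
          conv_lhs => rw [show i = 2 * (i / 2) + 1 by omega]
          rw [inv_odd, lim_mid z b (e := e)]
          omega
      rw [this]
      exact h3
  cases h1 : jump (inv z b) e <;> cases h2 : PZ z b e <;> simp_all

theorem HT_eq (e : ℕ) : HT (PZ z b) e = HZ z b e ∧ Theta (PZ z b) e = b e := by
  have step : ∀ e, HT (PZ z b) e = HZ z b e → PZ z b (f2 (HT (PZ z b) e, PZ z b e)) = b e := by
    intro e he
    rw [he]
    have h1 : PZ z b (f2 (HZ z b e, PZ z b e)) = true ↔ b e = true := by
      rw [← jump_inv, ← f2_spec]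
      have hz : (fun n => inv z b (2 * n)) = z := funext fun n => inv_even z b n
      simp only [NextBit, hz]
      rw [jump_inv, HZ_length]
      constructor
      · rintro ⟨σ, h2, τ, h3, h4⟩
        rw [st_iff z b e fun i _ => mid_ok z b i] at h2
        subst h2
        rw [h3.unique (mid_ok z b e), inv_odd, lim_code] at h4
        exact h4
      · intro h2
        refine ⟨_, (st_iff z b e (fun i _ => mid_ok z b i) _).2 rfl, _, mid_ok z b e, ?_⟩
        rw [inv_odd, lim_code]
        exact h2
    cases h2 : PZ z b (f2 (HZ z b e, PZ z b e)) <;> cases h3 : b e <;> simp_all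
  have main : ∀ e, HT (PZ z b) e = HZ z b e := by
    intro e
    induction e with
    | zero => rfl
    | succ e ih =>
      rw [HT, step e ih, ih]
      rfl
  exact ⟨main e, step e (main e)⟩

/-- Jump inversion with coding. -/
theorem inversion : TLe z (inv z b) ∧ jump (inv z b) = PZ z b ∧ Theta (PZ z b) = b := by
  refine ⟨?_, jump_inv z b, funext fun e => (HT_eq z b e).2⟩
  have hf : Primrec fun n : ℕ => 2 * n := Primrec.nat_mul.comp (Primrec.const 2) Primrec.id
  exact tLe_of_computable hf.to_comp fun n => (inv_even z b n).symm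

end Z

end Pool.Agent.H685R3
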