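import Pool.Agent.H685R3.Cyl
import Pool.Agent.H685R3.Z
import Pool.Agent.H685R3.Game

set_option autoImplicit false

namespace Pool.Agent.H685R3

open Encodable
open Pool.Agent.Helper227

theorem PermInvariant.compl {A : Set (ℕ → Bool)} (hA : PermInvariant A) : PermInvariant Aᶜ := by
  intro π h h' x hx hy
  apply hx
  have h1 := hA π.symm h' (by simpa using h) _ hy
  have h2 : (x ∘ π) ∘ π.symm = x := by
    funext n
    simp
  rwa [h2] at h1

theorem PermInvariant.mem_iff {A : Set (ℕ → Bool)} (hA : PermInvariant A) {x y : ℕ → Bool}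
    (h : SLe x y) (h' : SLe y x) (hy : y ∈ A) : x ∈ A := by
  obtain ⟨π, h1, h2, h3⟩ := h.iso h'
  rw [h3]
  exact hA π h1 h2 y hy

theorem SLe.mLe {x y : ℕ → Bool} (h : SLe x y) : MLe x y := by
  obtain ⟨f, f', pf, pf', hf, hf', e⟩ := h
  exact ⟨f, pf, e⟩

theorem K_sLe_K {u v : ℕ → Bool} (h : TLe u v) : SLe (ttJump u) (ttJump v) :=
  sLe_K ((K_pLe u).trans (jump_mLe_jump h).pLe)

theorem K_iso {u v : ℕ → Bool} (h : TLe u v) (h' : TLe v u) :
    ∃ π : Equiv.Perm ℕ, Primrec π ∧ Primrec π.symm ∧ ttJump u = ttJump v ∘ π :=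
  (K_sLe_K h).iso (K_sLe_K h')

theorem turingInvariant_K {A : Set (ℕ → Bool)} (hA : PermInvariant A) :
    TuringInvariant {u | ttJump u ∈ A} := fun _ _ h h' hx =>
  hA.mem_iff (K_sLe_K h') (K_sLe_K h) hx

/-- The moves of the player. -/
noncomputable def own (z b : ℕ → Bool) (e : ℕ) : Bool :=
  if useK e.unpair.1 ≤ e then ttJump (Z.inv z b) e.unpair.1 else false

theorem own_congr {z b b' : ℕ → Bool} {e : ℕ} (h : ∀ i < e, b i = b' i) :
    own z b e = own z b' e := by
  unfold own
  split_ifs with h1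
  · refine K_congr fun i hi => ?_
    rw [Z.jump_inv, Z.jump_inv]
    exact Z.PZ_congr i fun j hj => h j (by omega)
  · rfl

/-- From the cone to the game. -/
theorem wins_of_cone_K {β : ℕ} (hβ : β < 2) {A : Set (ℕ → Bool)} (hA : PermInvariant A)
    {z : ℕ → Bool} (hz : ∀ u, TLe z u → ttJump u ∈ A) : Wins β A := by
  refine ⟨fun L => own z (fun i => L.getD (2 * i + (1 - β)) false) (L.length / 2),
    fun x hx => ?_⟩
  generalize hb : (fun i => x (2 * i + (1 - β))) = b
  have hb' : ∀ i, x (2 * i + (1 - β)) = b i := fun i => by rw [← hb]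
  have h1 : ∀ n, x (2 * n + β) = own z b n := by
    intro n
    rw [hx n]
    have h2 : (hist x (2 * n + β)).length / 2 = n := by
      simp only [hist, List.length_map, List.length_range]
      omega
    simp only
    rw [h2]
    refine own_congr fun i hi => ?_
    rw [hist_eq_pre, pre_getD _ _ _ _ (by omega)]
    exact hb' i
  obtain ⟨h2, _, h4⟩ := Z.inversion z b
  generalize hu : Z.inv z b = u at h2
  have h3 : Theta (jump u) = b := by
    rw [← hu, Z.jump_inv]
    exact h4
  have hown : ∀ e, own z b e = if useK e.unpair.1 ≤ e then ttJump u e.unpair.1 else false := by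
    intro e
    rw [← hu]
    rfl
  refine hA.mem_iff (x := x) (y := ttJump u) (sLe_K ?_) ?_ (hz u h2)
  · obtain ⟨Φ, hΦ, e1⟩ := K_pLe u
    obtain ⟨Ψ, hΨ, e2⟩ := isPRMap_Theta
    have hhalf : Primrec fun n : ℕ => n / 2 :=
      Primrec.nat_div.comp Primrec.id (Primrec.const 2)
    have hhalf' : Primrec fun n : ℕ => (n / 2).unpair.1 :=
      Primrec.fst.comp (Primrec.unpair.comp hhalf)
    have hsel : Primrec₂ fun t v : ℕ => if t % 2 = β then
        (if useK (t / 2).unpair.1 ≤ t / 2 then v.unpair.1 else 0) else v.unpair.2 := by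
      refine Primrec.ite (Primrec.eq.comp (Primrec.nat_mod.comp Primrec.fst (Primrec.const 2))
        (Primrec.const β)) (Primrec.ite ?_ (Primrec.fst.comp (Primrec.unpair.comp Primrec.snd))
        (Primrec.const 0)) (Primrec.snd.comp (Primrec.unpair.comp Primrec.snd))
      exact Primrec.nat_le.comp (primrec_useK.comp (hhalf'.comp Primrec.fst))
        (hhalf.comp Primrec.fst)
    refine ⟨_, PRF.post₂ hsel (PRF.of_primrec Primrec.id)
      (PRF.pair (PRF.precomp hΦ hhalf') (PRF.precomp hΨ hhalf)), fun n => ?_⟩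
    simp only [id, Nat.unpair_pair]
    rw [← e1, ← e2, h3]
    by_cases h5 : n % 2 = β
    · rw [if_pos h5]
      have h6 : n = 2 * (n / 2) + β := by omega
      conv_lhs => rw [h6]
      rw [h1, hown]
      split_ifs <;> rfl
    · rw [if_neg h5]
      have h6 : n = 2 * (n / 2) + (1 - β) := by omega
      conv_lhs => rw [h6]
      rw [hb']
  · refine ⟨fun n => 2 * Nat.pair n (useK n + 1) + β, fun k => (k / 2).unpair.1, ?_, ?_, ?_, ?_, ?_⟩
    · exact Primrec.nat_add.comp (Primrec.nat_mul.comp (Primrec.const 2) (Primrec₂.natPair.comp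
        Primrec.id (Primrec.succ.comp primrec_useK))) (Primrec.const β)
    · exact Primrec.fst.comp (Primrec.unpair.comp (Primrec.nat_div.comp Primrec.id
        (Primrec.const 2)))
    · intro n
      have := Nat.add_le_pair n (useK n + 1)
      simp only
      omega
    · intro n
      have : (2 * Nat.pair n (useK n + 1) + β) / 2 = Nat.pair n (useK n + 1) := by omega
      simp [this]
    · intro n
      simp only
      have := Nat.add_le_pair n (useK n + 1)
      rw [h1, hown, Nat.unpair_pair, if_pos (by simp only; omega)]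

/-- From the game to the cone. -/
theorem cone_K_of_wins {β : ℕ} (hβ : β < 2) {A : Set (ℕ → Bool)} (hA : PermInvariant A)
    (h : Wins β A) : ∃ z : ℕ → Bool, ∀ u, TLe z u → ttJump u ∈ A := by
  obtain ⟨s, hs⟩ := h
  refine ⟨fun n => s ((decode (α := List Bool) n).getD []), fun u hu => ?_⟩
  generalize hz : (fun n => s ((decode (α := List Bool) n).getD [])) = z at hu
  generalize hw : (fun n => ttJump u (n - 1)) = w
  have hw' : ∀ n, ttJump u n = w (n + 1) := fun n => by rw [← hw]; simp
  have h1 : play z w β ∈ A := by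
    refine hs _ fun n => ?_
    rw [play_own hβ, ← hz]
    simp [hist_eq_pre]
  have hKw : PLe (ttJump u) w := MLe.pLe ⟨fun n => n + 1, Primrec.succ, hw'⟩
  have hwK : PLe w (ttJump u) := MLe.pLe ⟨fun n => n - 1, Primrec.pred, fun n => by rw [← hw]⟩
  have hzw : PLe z w := (sLe_K (mLe_jump hu).pLe).mLe.pLe.trans hKw
  have h2 : SLe (play z w β) (ttJump u) := sLe_K ((pLe_play hzw).trans (hwK.trans (K_pLe u)))
  refine hA.mem_iff (x := ttJump u) (y := play z w β) ?_ h2 h1
  refine ⟨fun n => 2 * (n + 1) + (1 - β), fun k => k / 2 - 1, ?_, ?_, ?_, ?_, ?_⟩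
  · exact Primrec.nat_add.comp (Primrec.nat_mul.comp (Primrec.const 2) Primrec.succ)
      (Primrec.const _)
  · exact Primrec.pred.comp (Primrec.nat_div.comp Primrec.id (Primrec.const 2))
  · intro n
    simp only
    omega
  · intro n
    simp only
    omega
  · intro n
    rw [play_other hβ, hw' n]

theorem wins_iff {β : ℕ} (hβ : β < 2) {A : Set (ℕ → Bool)} (hA : PermInvariant A) :
    Wins β {u | ttJump u ∈ A} ↔ Wins β A := by
  constructor
  · intro h
    obtain ⟨z, hz⟩ := cone_of_wins hβ (turingInvariant_K hA) h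
    exact wins_of_cone_K hβ hA hz
  · intro h
    obtain ⟨z, hz⟩ := cone_K_of_wins hβ hA h
    exact wins_of_cone hβ (z := z) hz

theorem kmain {A : Set (ℕ → Bool)} (hA : PermInvariant A) :
    TuringInvariant {u | ttJump u ∈ A} ∧ (WinsI {u | ttJump u ∈ A} ↔ WinsI A) ∧
      (WinsII {u | ttJump u ∈ A} ↔ WinsII A) :=
  ⟨turingInvariant_K hA, wins_iff (β := 0) (by omega) hA,
    wins_iff (β := 1) (by omega) hA.compl⟩

end Pool.Agent.H685R3
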