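import Pool.Agent.H685R3.HInv
import Pool.Agent.H685R3.KMain

set_option autoImplicit false

namespace Pool.Agent.H685R3

open Pool.Agent.Helper227

theorem hypInvariant {B : Set (ℕ → Bool)} (hB : TuringInvariant B) :
    HypInvariant {u | hyperJump u ∈ B} := fun _ _ h h' hx => hB _ _ h.hyp h'.hyp hx

theorem HypInvariant.turingInvariant {B : Set (ℕ → Bool)} (hB : HypInvariant B) :
    TuringInvariant B := fun x y h h' hx => hB x y (HypLe.of_tLe h) (HypLe.of_tLe h') hx

theorem tLe_join_of {z w x : ℕ → Bool} (h : TLe z x) (h' : TLe w x) : TLe (join z w) x := by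
  rw [tLe_iff_SI] at h h' ⊢
  have hm : PrimrecPred fun y : ℕ × Bool => y.1 % 2 = 0 :=
    Primrec.eq.comp (Primrec.nat_mod.comp Primrec.fst (Primrec.const 2)) (Primrec.const 0)
  have hf : Primrec fun y : ℕ × Bool => (y.1 / 2, y.2) :=
    (Primrec.nat_div.comp Primrec.fst (Primrec.const 2)).pair Primrec.snd
  have h1 := SI.or (SI.and (SI.of_prim hm) (h.comp hf)) (SI.and (SI.of_prim hm.not) (h'.comp hf))
  refine h1.of_eq fun y => ?_
  simp only [join]
  by_cases h2 : y.1 % 2 = 0 <;> simp [h2]

theorem tLe_join_right (z G : ℕ → Bool) : TLe G (join z G) := by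
  have hf : Primrec fun n : ℕ => 2 * n + 1 :=
    Primrec.succ.comp (Primrec.nat_mul.comp (Primrec.const 2) Primrec.id)
  exact tLe_of_computable hf.to_comp fun n => (join_odd z G n).symm

theorem wins_hyp {β : ℕ} (hβ : β < 2) {B : Set (ℕ → Bool)} (hB : TuringInvariant B) :
    Wins β {u | hyperJump u ∈ B} ↔ Wins β B := by
  constructor
  · intro h
    obtain ⟨z, hz⟩ := cone_of_wins hβ (hypInvariant hB).turingInvariant h
    obtain ⟨a, ha⟩ := exists_avoid z
    refine wins_of_cone hβ (z := join (hyperJump z) a) fun w hw => ?_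
    have hzw : TLe (hyperJump z) w := (tLe_join _ _).trans hw
    have haw : TLe a w := (tLe_join_right _ _).trans hw
    have h1 : hyperJump (join z (gx z (join w a))) ∈ B := hz _ (tLe_join z _)
    refine hB _ _ (hyp_join_le hzw (tLe_join_of (TuringReducible.refl _) haw) (ha w)) ?_ h1
    exact (tLe_join w a).trans (le_hyp_join z _)
  · intro h
    obtain ⟨z, hz⟩ := cone_of_wins hβ hB h
    refine wins_of_cone hβ (z := z) fun u hu => ?_
    exact hz _ (hu.trans (le_hyp u))

theorem hmain {A : Set (ℕ → Bool)} (hA : PermInvariant A) :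
    HypInvariant {u | ttJump (hyperJump u) ∈ A} ∧
      (WinsI {u | ttJump (hyperJump u) ∈ A} ↔ WinsI A) ∧
      (WinsII {u | ttJump (hyperJump u) ∈ A} ↔ WinsII A) :=
  ⟨hypInvariant (turingInvariant_K hA),
    (wins_hyp (β := 0) (by omega) (turingInvariant_K hA)).trans (wins_iff (by omega) hA),
    (wins_hyp (β := 1) (by omega) (turingInvariant_K hA.compl)).trans
      (wins_iff (by omega) hA.compl)⟩

end Pool.Agent.H685R3
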