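import Pool.Agent.H685R3.UF

set_option autoImplicit false

namespace Pool.Agent.H685R3

open Encodable
open Nat.Partrec (Code)
open Pool.Agent.Helper227

/-- Halting on finite information. -/
def Halt3 (e : ℕ) (ρ : List ℕ) (σ : List Bool) : Prop :=
  ((Denumerable.ofNat Code e).eval (encode (ρ, σ, e))).Dom

theorem s1_Halt3 : S1 fun x : ℕ × List ℕ × List Bool => Halt3 x.1 x.2.1 x.2.2 := by
  refine s1_eval.comp (f := fun x : ℕ × List ℕ × List Bool =>
    (Denumerable.ofNat Code x.1, encode (x.2.1, x.2.2, x.1))) (Primrec.pair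
      ((Primrec.ofNat Code).comp Primrec.fst) (Primrec.encode.comp ?_))
  exact (Primrec.fst.comp Primrec.snd).pair ((Primrec.snd.comp Primrec.snd).pair Primrec.fst)

theorem hyp_iff {u : ℕ → Bool} {e : ℕ} : hyperJump u e = true ↔
    ∀ f : ℕ → ℕ, ∃ k, Halt3 e (prn f k) (pre u k) := hyperJump_iff

theorem uf_left : UF fun _ h (x : ℕ × ℕ) => (h x.1).unpair.1 = x.2 := by
  have h1 : UF fun _ h (x : ℕ × ℕ) => ∃ v : ℕ, h x.1 = v ∧ v.unpair.1 = x.2 := by
    refine UF.ex (p := fun _ h (x : ℕ × ℕ) (v : ℕ) => h x.1 = v ∧ v.unpair.1 = x.2)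
      (UF.and ?_ (UF.of_prim ?_))
    · exact UF.queryF.comp (f := fun y : (ℕ × ℕ) × ℕ => (y.1.1, y.2))
        ((Primrec.fst.comp Primrec.fst).pair Primrec.snd)
    · exact Primrec.eq.comp (Primrec.fst.comp (Primrec.unpair.comp Primrec.snd))
        (Primrec.snd.comp Primrec.fst)
  refine h1.of_eq fun B h x => ?_
  constructor
  · rintro ⟨v, h2, h3⟩
    rw [h2]
    exact h3
  · intro h2
    exact ⟨_, rfl, h2⟩

theorem uf_right : UF fun _ h (x : ℕ × ℕ) => (h x.1).unpair.2 = x.2 := by
  have h1 : UF fun _ h (x : ℕ × ℕ) => ∃ v : ℕ, h x.1 = v ∧ v.unpair.2 = x.2 := by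
    refine UF.ex (p := fun _ h (x : ℕ × ℕ) (v : ℕ) => h x.1 = v ∧ v.unpair.2 = x.2)
      (UF.and ?_ (UF.of_prim ?_))
    · exact UF.queryF.comp (f := fun y : (ℕ × ℕ) × ℕ => (y.1.1, y.2))
        ((Primrec.fst.comp Primrec.fst).pair Primrec.snd)
    · exact Primrec.eq.comp (Primrec.snd.comp (Primrec.unpair.comp Primrec.snd))
        (Primrec.snd.comp Primrec.fst)
  refine h1.of_eq fun B h x => ?_
  constructor
  · rintro ⟨v, h2, h3⟩
    rw [h2]
    exact h3
  · intro h2
    exact ⟨_, rfl, h2⟩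

theorem SI.to_hyp {y : ℕ → Bool} {α : Type*} [Primcodable α] {p : α → Prop} (hp : SI y p) :
    ∃ g : α → ℕ, Primrec g ∧ ∀ a, p a ↔ hyperJump y (g a) = true := by
  obtain ⟨E, hE, mE, eE⟩ := hp
  have h1 : US fun B (a : α) => ∃ s, E (pre B s, a) := ⟨E, hE, mE, fun _ _ => Iff.rfl⟩
  obtain ⟨g, hg, e⟩ := (UF.of_us h1).to_hyp
  refine ⟨g, hg, fun a => ?_⟩
  rw [eE, ← e]
  simp

theorem HypLe.of_tLe {x y : ℕ → Bool} (h : TLe x y) : HypLe x y := by
  obtain ⟨g, hg, e⟩ := SI.to_hyp (tLe_iff_SI.1 h)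
  refine ⟨fun n => g (n, true), fun n => g (n, false), ?_, ?_, fun n => ⟨?_, ?_⟩⟩
  · exact (hg.comp (Primrec.id.pair (Primrec.const true))).to_comp
  · exact (hg.comp (Primrec.id.pair (Primrec.const false))).to_comp
  · exact e (n, true)
  · exact e (n, false)

theorem le_hyp (u : ℕ → Bool) : TLe u (hyperJump u) := by
  obtain ⟨g, hg, e⟩ := SI.to_hyp (SI.query (B := u))
  rw [tLe_iff_SI]
  have h1 : SI (hyperJump u) fun x : ℕ × Bool => hyperJump u (g x) = true :=
    SI.query.comp (f := fun x : ℕ × Bool => (g x, true)) (hg.pair (Primrec.const true))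
  exact h1.of_eq fun x => (e x).symm

/-- The hyperjump is monotone. -/
theorem HypLe.hyp {x y : ℕ → Bool} (hxy : HypLe x y) : TLe (hyperJump x) (hyperJump y) := by
  obtain ⟨f1, g1, hf1, hg1, h0⟩ := hxy
  have hhh : Computable fun w : Bool × ℕ => cond w.1 (f1 w.2) (g1 w.2) :=
    Computable.cond Computable.fst (hf1.comp Computable.snd) (hg1.comp Computable.snd)
  generalize ehh : (fun w : Bool × ℕ => cond w.1 (f1 w.2) (g1 w.2)) = hh at hhh
  have hh_iff : ∀ i b, hyperJump y (hh (b, i)) = true ↔ x i = b := by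
    intro i b
    rw [← ehh]
    cases b
    · exact (h0 i).2.symm
    · exact (h0 i).1.symm
  have hS : S1 fun w : ((Bool × ℕ) × List ℕ × List Bool) => Halt3 (hh w.1) w.2.1 w.2.2 :=
    s1_Halt3.comp_computable (f := fun w : ((Bool × ℕ) × List ℕ × List Bool) =>
      (hh w.1, w.2.1, w.2.2)) ((hhh.comp Computable.fst).pair Computable.snd)
  -- the inner matrix
  have hin : UF fun B h (w : Bool × ℕ) => ∃ v : List ℕ × List Bool, (v.1.length = v.2.length ∧
      Halt3 (hh w) v.1 v.2) ∧ (∀ j < v.2.length, B j = v.2.getD j false) ∧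
      ∀ j < v.1.length, (h (Nat.pair w.2 j)).unpair.2 = v.1.getD j 0 := by
    refine UF.ex (p := fun B h (w : Bool × ℕ) (v : List ℕ × List Bool) =>
      (v.1.length = v.2.length ∧
      Halt3 (hh w) v.1 v.2) ∧ (∀ j < v.2.length, B j = v.2.getD j false) ∧
      ∀ j < v.1.length, (h (Nat.pair w.2 j)).unpair.2 = v.1.getD j 0)
      (UF.and (UF.and (UF.of_prim ?_) (UF.of_s1 ?_)) (UF.and ?_ ?_))
    · exact Primrec.eq.comp (Primrec.list_length.comp (Primrec.fst.comp Primrec.snd))
        (Primrec.list_length.comp (Primrec.snd.comp Primrec.snd))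
    · exact hS
    · refine UF.all_lt (α := (Bool × ℕ) × List ℕ × List Bool) (p := fun B _ x i =>
        B i = x.2.2.getD i false) (f := fun x => x.2.2.length) ?_
        (Primrec.list_length.comp (Primrec.snd.comp Primrec.snd))
      exact UF.queryB.comp (f := fun z : ((Bool × ℕ) × List ℕ × List Bool) × ℕ =>
        (z.2, z.1.2.2.getD z.2 false)) (Primrec.snd.pair ((Primrec.list_getD false).comp
          (Primrec.snd.comp (Primrec.snd.comp Primrec.fst)) Primrec.snd))
    · refine UF.all_lt (α := (Bool × ℕ) × List ℕ × List Bool) (p := fun _ h x i =>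
        (h (Nat.pair x.1.2 i)).unpair.2 = x.2.1.getD i 0) (f := fun x => x.2.1.length) ?_
        (Primrec.list_length.comp (Primrec.fst.comp Primrec.snd))
      exact uf_right.comp (f := fun z : ((Bool × ℕ) × List ℕ × List Bool) × ℕ =>
        (Nat.pair z.1.1.2 z.2, z.1.2.1.getD z.2 0)) ((Primrec₂.natPair.comp
          (Primrec.snd.comp (Primrec.fst.comp Primrec.fst)) Primrec.snd).pair
            ((Primrec.list_getD 0).comp (Primrec.fst.comp (Primrec.snd.comp Primrec.fst))
              Primrec.snd))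
  have hq : UF fun B h (e : ℕ) => ∃ v : List ℕ × List Bool, (v.1.length = v.2.length ∧
      Halt3 e v.1 v.2) ∧ (∀ i < v.1.length, (h i).unpair.1 = v.1.getD i 0) ∧
      ∀ i < v.2.length, ∃ v' : List ℕ × List Bool, (v'.1.length = v'.2.length ∧
        Halt3 (hh (v.2.getD i false, i)) v'.1 v'.2) ∧
        (∀ j < v'.2.length, B j = v'.2.getD j false) ∧
        ∀ j < v'.1.length, (h (Nat.pair i j)).unpair.2 = v'.1.getD j 0 := by
    refine UF.ex (p := fun B h (e : ℕ) (v : List ℕ × List Bool) => (v.1.length = v.2.length ∧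
      Halt3 e v.1 v.2) ∧ (∀ i < v.1.length, (h i).unpair.1 = v.1.getD i 0) ∧
      ∀ i < v.2.length, ∃ v' : List ℕ × List Bool, (v'.1.length = v'.2.length ∧
        Halt3 (hh (v.2.getD i false, i)) v'.1 v'.2) ∧
        (∀ j < v'.2.length, B j = v'.2.getD j false) ∧
        ∀ j < v'.1.length, (h (Nat.pair i j)).unpair.2 = v'.1.getD j 0)
      (UF.and (UF.and (UF.of_prim ?_) (UF.of_s1 ?_)) (UF.and ?_ ?_))
    · exact Primrec.eq.comp (Primrec.list_length.comp (Primrec.fst.comp Primrec.snd))
        (Primrec.list_length.comp (Primrec.snd.comp Primrec.snd))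
    · exact s1_Halt3
    · refine UF.all_lt (α := ℕ × List ℕ × List Bool) (p := fun _ h x i =>
        (h i).unpair.1 = x.2.1.getD i 0) (f := fun x => x.2.1.length) ?_
        (Primrec.list_length.comp (Primrec.fst.comp Primrec.snd))
      exact uf_left.comp (f := fun z : (ℕ × List ℕ × List Bool) × ℕ =>
        (z.2, z.1.2.1.getD z.2 0)) (Primrec.snd.pair
            ((Primrec.list_getD 0).comp (Primrec.fst.comp (Primrec.snd.comp Primrec.fst))
              Primrec.snd))
    · refine UF.all_lt (α := ℕ × List ℕ × List Bool) (p := fun B h x i =>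
        ∃ v' : List ℕ × List Bool, (v'.1.length = v'.2.length ∧
        Halt3 (hh (x.2.2.getD i false, i)) v'.1 v'.2) ∧
        (∀ j < v'.2.length, B j = v'.2.getD j false) ∧
        ∀ j < v'.1.length, (h (Nat.pair i j)).unpair.2 = v'.1.getD j 0)
        (f := fun x => x.2.2.length) ?_
        (Primrec.list_length.comp (Primrec.snd.comp Primrec.snd))
      exact hin.comp (f := fun z : (ℕ × List ℕ × List Bool) × ℕ =>
        (z.1.2.2.getD z.2 false, z.2)) (((Primrec.list_getD false).comp
          (Primrec.snd.comp (Primrec.snd.comp Primrec.fst)) Primrec.snd).pair Primrec.snd)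
  obtain ⟨g, hg, eg⟩ := hq.to_hyp
  have key : ∀ e, hyperJump x e = true ↔ hyperJump y (g e) = true := by
    intro e
    rw [← eg, hyp_iff]
    constructor
    · intro h h'
      obtain ⟨k, hk⟩ := h fun n => (h' n).unpair.1
      refine ⟨(prn (fun n => (h' n).unpair.1) k, pre x k), ⟨by simp, hk⟩, fun i hi => ?_,
        fun i hi => ?_⟩
      · exact (prn_getD (fun n => (h' n).unpair.1) (by simpa using hi)).symm
      · have hi' : i < k := by simpa using hi
        have h1 := (hh_iff i ((pre x k).getD i false)).2 (pre_getD x _ _ _ hi').symm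
        rw [hyp_iff] at h1
        obtain ⟨m, hm⟩ := h1 fun j => (h' (Nat.pair i j)).unpair.2
        refine ⟨(prn (fun j => (h' (Nat.pair i j)).unpair.2) m, pre y m), ⟨by simp, hm⟩,
          fun j hj => ?_, fun j hj => ?_⟩
        · exact (pre_getD y _ _ _ (by simpa using hj)).symm
        · exact (prn_getD (fun j => (h' (Nat.pair i j)).unpair.2) (by simpa using hj)).symm
    · intro h f
      have h1 : ∀ i, ∃ G : ℕ → ℕ, ∀ m, ¬ Halt3 (hh (!x i, i)) (prn G m) (pre y m) := by
        intro i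
        by_contra hc
        push Not at hc
        have h2 := (hh_iff i (!x i)).1 (hyp_iff.2 hc)
        cases hx : x i <;> simp [hx] at h2
      choose G hG using h1
      obtain ⟨v, ⟨h2, h3⟩, h4, h5⟩ := h fun n => Nat.pair (f n) (G n.unpair.1 n.unpair.2)
      simp only [Nat.unpair_pair] at h4 h5
      have h6 : ∀ i < v.2.length, x i = v.2.getD i false := by
        intro i hi
        obtain ⟨v', ⟨h7, h8⟩, h9, h10⟩ := h5 i hi
        by_contra hc
        have h11 : v.2.getD i false = !x i := by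
          cases hx : x i <;> cases hv : v.2.getD i false <;> simp_all
        rw [h11] at h8
        refine hG i v'.2.length ?_
        rw [pre_eq_of h9, ← h7, prn_eq_of h10]
        exact h8
      refine ⟨v.2.length, ?_⟩
      rw [pre_eq_of h6, ← h2, prn_eq_of h4]
      exact h3
  refine tLe_of_computable hg.to_comp fun e => ?_
  cases h1 : hyperJump x e <;> cases h2 : hyperJump y (g e) <;> simp_all

end Pool.Agent.H685R3
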