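import Pool.Agent.H685R3.Use
import Pool.Agent.H685R3.Game

set_option autoImplicit false

namespace Pool.Agent.H685R3

open Encodable
open Nat.Partrec (Code)
open Pool.Agent.Helper227

/-- The program `c` reduces `y` to `x`. -/
def Red (c : Code) (x y : ℕ → Bool) : Prop :=
  ∀ (n : ℕ) (b : Bool) (N : ℕ), y n = b ↔ ∃ s, N ≤ s ∧ (c.eval (encode (pre x s, (n, b)))).Dom

theorem exists_red {x y : ℕ → Bool} (h : TLe y x) : ∃ c, Red c x y := by
  obtain ⟨E, hE, mE, eE⟩ := tLe_iff_SI.1 h
  have h1 : S1 fun m : ℕ => ∃ a : List Bool × ℕ × Bool, m = encode a ∧ E a :=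
    S1.ex (S1.and (S1.of_prim (Primrec.eq.comp Primrec.fst (Primrec.encode.comp Primrec.snd)))
      (hE.comp Primrec.snd))
  obtain ⟨c, hc⟩ := Nat.Partrec.Code.exists_code.1 h1.re
  have hdom : ∀ a : List Bool × ℕ × Bool, (c.eval (encode a)).Dom ↔ E a := by
    intro a
    rw [hc]
    simp [Part.assert]
  refine ⟨c, fun n b N => (eE (n, b)).trans ?_⟩
  constructor
  · rintro ⟨s, hs⟩
    exact ⟨max N s, le_max_left _ _, (hdom _).2 (mE _ _ _ (pre_prefix x (le_max_right _ _)) hs)⟩
  · rintro ⟨s, _, hs⟩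
    exact ⟨s, (hdom _).1 hs⟩

/-- No pair of extensions is reduced by `c`. -/
def Diag (c : Code) (σ τ : List Bool) : Prop :=
  ∀ x y : ℕ → Bool, pre x σ.length = σ → pre y τ.length = τ → ¬ Red c x y

theorem pre_of_prefix {x : ℕ → Bool} {σ τ : List Bool} (h : σ <+: τ)
    (h1 : pre x τ.length = τ) : pre x σ.length = σ := by
  obtain ⟨ρ, rfl⟩ := h
  have h2 := congrArg (List.take σ.length) h1
  rw [take_pre _ _ _ (by simp)] at h2
  simpa using h2

theorem Diag.mono {c : Code} {σ τ σ' τ' : List Bool} (h : Diag c σ τ) (h1 : σ <+: σ')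
    (h2 : τ <+: τ') : Diag c σ' τ' :=
  fun x y h3 h4 => h x y (pre_of_prefix h1 h3) (pre_of_prefix h2 h4)

theorem exists_diag (c : Code) (σ τ : List Bool) :
    ∃ σ' τ', σ <+: σ' ∧ τ <+: τ' ∧ Diag c σ' τ' := by
  by_cases h : ∃ (σ' : List Bool) (b : Bool), σ <+: σ' ∧ (c.eval (encode (σ', (τ.length, b)))).Dom
  · obtain ⟨σ', b, h1, h2⟩ := h
    refine ⟨σ', τ ++ [!b], h1, List.prefix_append _ _, fun x y h3 h4 h5 => ?_⟩
    have h6 : y τ.length = b := by
      refine (h5 τ.length b 0).2 ⟨σ'.length, Nat.zero_le _, ?_⟩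
      rw [h3]
      exact h2
    have h7 : y τ.length = !b := by
      have h8 := pre_getD y (τ ++ [!b]).length τ.length false (by simp)
      rw [h4] at h8
      rw [← h8]
      simp [List.getD]
    rw [h6] at h7
    cases b <;> cases h7
  · refine ⟨σ, τ, List.prefix_rfl, List.prefix_rfl, fun x y h3 h4 h5 => h ?_⟩
    obtain ⟨s, h6, h7⟩ := (h5 τ.length (y τ.length) σ.length).1 rfl
    refine ⟨pre x s, y τ.length, ?_, h7⟩
    have := pre_prefix x h6
    rwa [h3] at this

/-- Meeting finitely many requirements. -/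
theorem meet_all {I : Type*} [DecidableEq I] (L : List (ℕ × I × I)) :
    ∀ B : I → List Bool, ∃ B' : I → List Bool, (∀ i, B i <+: B' i) ∧
      ∀ r ∈ L, r.2.1 ≠ r.2.2 → Diag (Denumerable.ofNat Code r.1) (B' r.2.1) (B' r.2.2) := by
  induction L with
  | nil => intro B; exact ⟨B, fun _ => List.prefix_rfl, by simp⟩
  | cons r L ih =>
    intro B
    obtain ⟨σ', τ', h1, h2, h3⟩ := exists_diag (Denumerable.ofNat Code r.1) (B r.2.1) (B r.2.2)
    let B1 : I → List Bool := fun i => if i = r.2.1 then σ' else if i = r.2.2 then τ' else B i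
    have hB1 : ∀ i, B i <+: B1 i := by
      intro i
      simp only [B1]
      split_ifs with h4 h5
      · rw [h4]; exact h1
      · rw [h5]; exact h2
      · exact List.prefix_rfl
    obtain ⟨B2, h4, h5⟩ := ih B1
    refine ⟨B2, fun i => (hB1 i).trans (h4 i), fun q hq hne => ?_⟩
    rcases List.mem_cons.1 hq with rfl | hq
    · have h6 : B1 q.2.1 = σ' := by simp [B1]
      have h7 : B1 q.2.2 = τ' := by
        change (if q.2.2 = q.2.1 then σ' else if q.2.2 = q.2.2 then τ' else B q.2.2) = τ'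
        rw [if_neg (Ne.symm hne), if_pos rfl]
      have h8 := h4 q.2.1
      have h9 := h4 q.2.2
      rw [h6] at h8
      rw [h7] at h9
      exact h3.mono h8 h9
    · exact h5 q hq hne

end Pool.Agent.H685R3
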