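import Pool.Agent.H685R3.PR

set_option autoImplicit false

namespace Pool.Agent.H685R3

open Encodable
open Nat.Partrec (Code)
open Pool.Agent.Helper227

/-- Uniformization of relations that are Sigma-one uniformly in the oracle. -/
theorem US.choose {α β : Type*} [Primcodable α] [Primcodable β] [Inhabited β]
    {P : (ℕ → Bool) → α → β → Prop} (hP : US fun B (x : α × β) => P B x.1 x.2) :
    ∃ G : (ℕ → Bool) → α → β → Prop, (US fun B (x : α × β) => G B x.1 x.2) ∧
      (∀ B a b, G B a b → P B a b) ∧ (∀ B a b b', G B a b → G B a b' → b = b') ∧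
      ∀ B a, (∃ b, P B a b) → ∃ b, G B a b := by
  obtain ⟨E, ⟨q, hq, mq, eq⟩, mE, eE⟩ := hP
  let dec : ℕ → β := fun m => (decode m.unpair.1).getD default
  have hdec : Primrec dec := Primrec.option_getD.comp (Primrec.decode.comp
    (Primrec.fst.comp Primrec.unpair)) (Primrec.const default)
  let s : ℕ → ℕ := fun m => m.unpair.2.unpair.1
  have hs : Primrec s := Primrec.fst.comp (Primrec.unpair.comp (Primrec.snd.comp Primrec.unpair))
  let t : ℕ → ℕ := fun m => m.unpair.2.unpair.2
  have ht : Primrec t := Primrec.snd.comp (Primrec.unpair.comp (Primrec.snd.comp Primrec.unpair))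
  let D : (ℕ → Bool) → α → ℕ → Prop := fun B a m => q (pre B (s m), (a, dec m)) (t m)
  have hQ : PrimrecPred fun y : List Bool × α × ℕ => q (y.1, (y.2.1, dec y.2.2)) (t y.2.2) :=
    hq.comp (Primrec.fst.pair ((Primrec.fst.comp Primrec.snd).pair
      (hdec.comp (Primrec.snd.comp Primrec.snd)))) (ht.comp (Primrec.snd.comp Primrec.snd))
  have hD : US fun B (x : α × ℕ) => D B x.1 x.2 :=
    US.at_pre (Q := fun y : List Bool × α × ℕ => q (y.1, (y.2.1, dec y.2.2)) (t y.2.2))
      (s := fun x : α × ℕ => s x.2) hQ (hs.comp Primrec.snd)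
  have hnD : US fun B (x : α × ℕ) => ¬ D B x.1 x.2 :=
    US.at_pre (Q := fun y : List Bool × α × ℕ => ¬ q (y.1, (y.2.1, dec y.2.2)) (t y.2.2))
      (s := fun x : α × ℕ => s x.2) hQ.not (hs.comp Primrec.snd)
  refine ⟨fun B a b => ∃ m, (D B a m ∧ ∀ m' < m, ¬ D B a m') ∧ dec m = b, ?_, ?_, ?_, ?_⟩
  · refine US.ex (α := α × β) (p := fun B x m => (D B x.1 m ∧ ∀ m' < m, ¬ D B x.1 m') ∧
      dec m = x.2) (US.and (US.and ?_ ?_) (US.of_prim ?_))
    · exact hD.comp (f := fun y : (α × β) × ℕ => (y.1.1, y.2))
        ((Primrec.fst.comp Primrec.fst).pair Primrec.snd)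
    · refine US.all_lt (α := (α × β) × ℕ) (p := fun B y m' => ¬ D B y.1.1 m')
        (f := fun y => y.2) ?_ Primrec.snd
      exact hnD.comp (f := fun y : ((α × β) × ℕ) × ℕ => (y.1.1.1, y.2))
        ((Primrec.fst.comp (Primrec.fst.comp Primrec.fst)).pair Primrec.snd)
    · exact Primrec.eq.comp (hdec.comp Primrec.snd) (Primrec.snd.comp Primrec.fst)
  · rintro B a b ⟨m, ⟨h1, _⟩, rfl⟩
    exact (eE B (a, dec m)).2 ⟨_, (eq _).2 ⟨_, h1⟩⟩
  · rintro B a b b' ⟨m, ⟨h1, h2⟩, rfl⟩ ⟨m', ⟨h1', h2'⟩, rfl⟩
    rcases lt_trichotomy m m' with h | h | h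
    · exact absurd h1 (h2' _ h)
    · rw [h]
    · exact absurd h1' (h2 _ h)
  · rintro B a ⟨b, hb⟩
    obtain ⟨k, hk⟩ := (eE B (a, b)).1 hb
    obtain ⟨n, hn⟩ := (eq _).1 hk
    have hex : ∃ m, D B a m := by
      refine ⟨Nat.pair (encode b) (Nat.pair k n), ?_⟩
      simpa [D, s, t, dec] using hn
    classical
    exact ⟨_, Nat.find hex, ⟨Nat.find_spec hex, fun m' hm' => Nat.find_min hex hm'⟩, rfl⟩

/-- The program `e` halts on the initial segment `ρ` (with its own index as second input). -/
def Halt (e : ℕ) (ρ : List Bool) : Prop :=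
  ((Denumerable.ofNat Code e).eval (encode (ρ, e))).Dom

theorem jump_iff {A : ℕ → Bool} {e : ℕ} : jump A e = true ↔ ∃ k, Halt e (pre A k) := jump_eq_true

theorem s1_Halt : S1 fun x : ℕ × List Bool => Halt x.1 x.2 :=
  S1.comp (f := fun x : ℕ × List Bool =>
    (Denumerable.ofNat Code x.1, encode (x.2, x.1))) s1_eval
    (((Primrec.ofNat Code).comp Primrec.fst).pair
      (Primrec.encode.comp (Primrec.snd.pair Primrec.fst)))

/-- `τ` extends `σ` and forces the `e`-th jump statement about the join of the oracle and an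
extension of `τ`. -/
def Forces (B : ℕ → Bool) (x : ℕ × List Bool) (τ : List Bool) : Prop :=
  τ.take x.2.length = x.2 ∧ ∃ ρ : List Bool, (ρ.length ≤ 2 * τ.length ∧ Halt x.1 ρ) ∧
    ∀ i < ρ.length, (i % 2 = 0 ∧ B (i / 2) = ρ.getD i false) ∨
      (¬ i % 2 = 0 ∧ τ.getD (i / 2) false = ρ.getD i false)

theorem us_Forces : US fun B (x : (ℕ × List Bool) × List Bool) => Forces B x.1 x.2 := by
  refine US.and (US.of_prim ?_) (US.ex (p := fun B (x : (ℕ × List Bool) × List Bool)
    (ρ : List Bool) => (ρ.length ≤ 2 * x.2.length ∧ Halt x.1.1 ρ) ∧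
    ∀ i < ρ.length, (i % 2 = 0 ∧ B (i / 2) = ρ.getD i false) ∨
      (¬ i % 2 = 0 ∧ x.2.getD (i / 2) false = ρ.getD i false))
      (US.and (US.and (US.of_prim ?_) (US.of_s1 ?_)) ?_))
  · exact Primrec.eq.comp (Primrec.list_take.comp (Primrec.list_length.comp
      (Primrec.snd.comp Primrec.fst)) Primrec.snd) (Primrec.snd.comp Primrec.fst)
  · exact Primrec.nat_le.comp (Primrec.list_length.comp Primrec.snd)
      (Primrec.nat_mul.comp (Primrec.const 2) (Primrec.list_length.comp
        (Primrec.snd.comp Primrec.fst)))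
  · exact s1_Halt.comp ((Primrec.fst.comp (Primrec.fst.comp Primrec.fst)).pair Primrec.snd)
  · refine US.all_lt (α := ((ℕ × List Bool) × List Bool) × List Bool) (p := fun B x i =>
      (i % 2 = 0 ∧ B (i / 2) = x.2.getD i false) ∨
      (¬ i % 2 = 0 ∧ x.1.2.getD (i / 2) false = x.2.getD i false))
      (f := fun x => x.2.length) ?_ (Primrec.list_length.comp Primrec.snd)
    have hm : PrimrecPred fun y : (((ℕ × List Bool) × List Bool) × List Bool) × ℕ =>
        y.2 % 2 = 0 :=
      Primrec.eq.comp (Primrec.nat_mod.comp Primrec.snd (Primrec.const 2)) (Primrec.const 0)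
    refine US.or (US.and (US.of_prim hm) ?_) (US.of_prim (PrimrecPred.and hm.not ?_))
    · exact US.query.comp (f := fun y : (((ℕ × List Bool) × List Bool) × List Bool) × ℕ =>
        (y.2 / 2, y.1.2.getD y.2 false))
        ((Primrec.nat_div.comp Primrec.snd (Primrec.const 2)).pair
          ((Primrec.list_getD false).comp (Primrec.snd.comp Primrec.fst) Primrec.snd))
    · exact Primrec.eq.comp ((Primrec.list_getD false).comp
        (Primrec.snd.comp (Primrec.fst.comp Primrec.fst))
        (Primrec.nat_div.comp Primrec.snd (Primrec.const 2)))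
        ((Primrec.list_getD false).comp (Primrec.snd.comp Primrec.fst) Primrec.snd)

theorem exists_G : ∃ G : (ℕ → Bool) → ℕ × List Bool → List Bool → Prop,
    (US fun B (x : (ℕ × List Bool) × List Bool) => G B x.1 x.2) ∧
      (∀ B a b, G B a b → Forces B a b) ∧ (∀ B a b b', G B a b → G B a b' → b = b') ∧
      ∀ B a, (∃ b, Forces B a b) → ∃ b, G B a b := US.choose us_Forces

/-- A fixed uniformization of the forcing relation. -/
noncomputable def G : (ℕ → Bool) → ℕ × List Bool → List Bool → Prop := exists_G.choose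

theorem us_G : US fun B (x : (ℕ × List Bool) × List Bool) => G B x.1 x.2 :=
  exists_G.choose_spec.1

theorem G_forces {B : ℕ → Bool} {a : ℕ × List Bool} {b : List Bool} (h : G B a b) :
    Forces B a b := exists_G.choose_spec.2.1 _ _ _ h

theorem G_unique {B : ℕ → Bool} {a : ℕ × List Bool} {b b' : List Bool} (h : G B a b)
    (h' : G B a b') : b = b' := exists_G.choose_spec.2.2.1 _ _ _ _ h h'

theorem G_exists {B : ℕ → Bool} {a : ℕ × List Bool} (h : ∃ b, Forces B a b) : ∃ b, G B a b :=
  exists_G.choose_spec.2.2.2 _ _ h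

/-- The string before the coding bit of stage `e` is appended. -/
def Mid (B : ℕ → Bool) (x : (ℕ × List Bool) × Bool) (τ : List Bool) : Prop :=
  (x.2 = true ∧ G B x.1 τ) ∨ (x.2 = false ∧ τ = x.1.2)

theorem Mid.unique {B : ℕ → Bool} {a : (ℕ × List Bool) × Bool} {b b' : List Bool}
    (h : Mid B a b) (h' : Mid B a b') : b = b' := by
  rcases h with ⟨h1, h2⟩ | ⟨h1, h2⟩ <;> rcases h' with ⟨h3, h4⟩ | ⟨h3, h4⟩
  · exact G_unique h2 h4
  · rw [h1] at h3; cases h3
  · rw [h1] at h3; cases h3
  · rw [h2, h4]

theorem us_Mid : US fun B (x : ((ℕ × List Bool) × Bool) × List Bool) => Mid B x.1 x.2 := by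
  refine US.or (US.and (US.of_prim ?_) ?_) (US.of_prim (PrimrecPred.and ?_ ?_))
  · exact Primrec.eq.comp (Primrec.snd.comp Primrec.fst) (Primrec.const true)
  · exact us_G.comp (f := fun x : ((ℕ × List Bool) × Bool) × List Bool => (x.1.1, x.2))
      ((Primrec.fst.comp Primrec.fst).pair Primrec.snd)
  · exact Primrec.eq.comp (Primrec.snd.comp Primrec.fst) (Primrec.const false)
  · exact Primrec.eq.comp Primrec.snd (Primrec.snd.comp (Primrec.fst.comp Primrec.fst))

/-- `σ` is the string built after the stages recorded in the history `H`, a list of pairs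
(coded bit, jump bit). -/
def St (B : ℕ → Bool) (H : List (Bool × Bool)) (σ : List Bool) : Prop :=
  ∃ L : List (List Bool), (L.getD 0 [] = [] ∧ L.getD H.length [] = σ) ∧
    ∀ i < H.length, ∃ τ, Mid B ((i, L.getD i []), (H.getD i (false, false)).2) τ ∧
      L.getD (i + 1) [] = τ ++ [(H.getD i (false, false)).1]

theorem us_St : US fun B (x : List (Bool × Bool) × List Bool) => St B x.1 x.2 := by
  refine US.ex (p := fun B (x : List (Bool × Bool) × List Bool) (L : List (List Bool)) =>
    (L.getD 0 [] = [] ∧ L.getD x.1.length [] = x.2) ∧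
    ∀ i < x.1.length, ∃ τ, Mid B ((i, L.getD i []), (x.1.getD i (false, false)).2) τ ∧
      L.getD (i + 1) [] = τ ++ [(x.1.getD i (false, false)).1])
      (US.and (US.of_prim (PrimrecPred.and ?_ ?_)) ?_)
  · exact Primrec.eq.comp ((Primrec.list_getD []).comp Primrec.snd (Primrec.const 0))
      (Primrec.const [])
  · exact Primrec.eq.comp ((Primrec.list_getD []).comp Primrec.snd
      (Primrec.list_length.comp (Primrec.fst.comp Primrec.fst))) (Primrec.snd.comp Primrec.fst)
  · refine US.all_lt (α := (List (Bool × Bool) × List Bool) × List (List Bool))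
      (p := fun B y i => ∃ τ, Mid B ((i, y.2.getD i []), (y.1.1.getD i (false, false)).2) τ ∧
      y.2.getD (i + 1) [] = τ ++ [(y.1.1.getD i (false, false)).1])
      (f := fun y => y.1.1.length) ?_ (Primrec.list_length.comp (Primrec.fst.comp Primrec.fst))
    refine US.ex (α := ((List (Bool × Bool) × List Bool) × List (List Bool)) × ℕ)
      (p := fun B w τ => Mid B ((w.2, w.1.2.getD w.2 []), (w.1.1.1.getD w.2 (false, false)).2) τ ∧
      w.1.2.getD (w.2 + 1) [] = τ ++ [(w.1.1.1.getD w.2 (false, false)).1])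
      (US.and ?_ (US.of_prim ?_))
    · refine us_Mid.comp (f := fun y : (((List (Bool × Bool) × List Bool) × List (List Bool)) × ℕ)
        × List Bool => (((y.1.2, y.1.1.2.getD y.1.2 []),
          (y.1.1.1.1.getD y.1.2 (false, false)).2), y.2)) ?_
      refine Primrec.pair (Primrec.pair (Primrec.pair (Primrec.snd.comp Primrec.fst)
        ((Primrec.list_getD []).comp (Primrec.snd.comp (Primrec.fst.comp Primrec.fst))
          (Primrec.snd.comp Primrec.fst))) (Primrec.snd.comp ((Primrec.list_getD (false, false)).comp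
          (Primrec.fst.comp (Primrec.fst.comp (Primrec.fst.comp Primrec.fst)))
            (Primrec.snd.comp Primrec.fst)))) Primrec.snd
    · refine Primrec.eq.comp ((Primrec.list_getD []).comp
        (Primrec.snd.comp (Primrec.fst.comp Primrec.fst))
        (Primrec.succ.comp (Primrec.snd.comp Primrec.fst)))
        (Primrec.list_append.comp Primrec.snd (Primrec.list_cons.comp (Primrec.fst.comp
          ((Primrec.list_getD (false, false)).comp
          (Primrec.fst.comp (Primrec.fst.comp (Primrec.fst.comp Primrec.fst)))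
            (Primrec.snd.comp Primrec.fst))) (Primrec.const [])))

/-- After the history `H` the next jump statement can be forced. -/
def CanForce (B : ℕ → Bool) (H : List (Bool × Bool)) : Prop :=
  ∃ σ, St B H σ ∧ ∃ τ, Forces B (H.length, σ) τ

theorem us_CanForce : US CanForce := by
  refine US.ex (p := fun B (H : List (Bool × Bool)) (σ : List Bool) =>
    St B H σ ∧ ∃ τ, Forces B (H.length, σ) τ) (US.and us_St (US.ex
      (α := List (Bool × Bool) × List Bool) (p := fun B x τ => Forces B (x.1.length, x.2) τ) ?_))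
  exact us_Forces.comp (f := fun y : (List (Bool × Bool) × List Bool) × List Bool =>
    ((y.1.1.length, y.1.2), y.2)) (((Primrec.list_length.comp (Primrec.fst.comp Primrec.fst)).pair
      (Primrec.snd.comp Primrec.fst)).pair Primrec.snd)

/-- The next coded bit is one, computed from the join. -/
def NextBit (B : ℕ → Bool) (x : List (Bool × Bool) × Bool) : Prop :=
  ∃ σ, St (fun n => B (2 * n)) x.1 σ ∧ ∃ τ, Mid (fun n => B (2 * n)) ((x.1.length, σ), x.2) τ ∧
    B (2 * τ.length + 1) = true

theorem us_NextBit : US NextBit := by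
  refine US.ex (p := fun B (x : List (Bool × Bool) × Bool) (σ : List Bool) =>
    St (fun n => B (2 * n)) x.1 σ ∧ ∃ τ, Mid (fun n => B (2 * n)) ((x.1.length, σ), x.2) τ ∧
    B (2 * τ.length + 1) = true) (US.and ?_ (US.ex
      (α := (List (Bool × Bool) × Bool) × List Bool)
      (p := fun B y τ => Mid (fun n => B (2 * n)) ((y.1.1.length, y.2), y.1.2) τ ∧
    B (2 * τ.length + 1) = true) (US.and ?_ ?_)))
  · exact us_St.even.comp (f := fun y : (List (Bool × Bool) × Bool) × List Bool => (y.1.1, y.2))
      ((Primrec.fst.comp Primrec.fst).pair Primrec.snd)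
  · exact us_Mid.even.comp (f := fun y : ((List (Bool × Bool) × Bool) × List Bool) × List Bool =>
      (((y.1.1.1.length, y.1.2), y.1.1.2), y.2))
      ((((Primrec.list_length.comp (Primrec.fst.comp (Primrec.fst.comp Primrec.fst))).pair
        (Primrec.snd.comp Primrec.fst)).pair
          (Primrec.snd.comp (Primrec.fst.comp Primrec.fst))).pair Primrec.snd)
  · exact US.query.comp (f := fun y : ((List (Bool × Bool) × Bool) × List Bool) × List Bool =>
      (2 * y.2.length + 1, true)) ((Primrec.succ.comp (Primrec.nat_mul.comp (Primrec.const 2)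
        (Primrec.list_length.comp Primrec.snd))).pair (Primrec.const true))

/-- the index function for `CanForce`. -/
noncomputable def f1 : List (Bool × Bool) → ℕ := us_CanForce.to_jump.choose

theorem primrec_f1 : Primrec f1 := us_CanForce.to_jump.choose_spec.1

theorem f1_spec (B : ℕ → Bool) (H : List (Bool × Bool)) :
    CanForce B H ↔ jump B (f1 H) = true := us_CanForce.to_jump.choose_spec.2 B H

/-- the index function for `NextBit`. -/
noncomputable def f2 : List (Bool × Bool) × Bool → ℕ := us_NextBit.to_jump.choose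

theorem primrec_f2 : Primrec f2 := us_NextBit.to_jump.choose_spec.1

theorem f2_spec (B : ℕ → Bool) (x : List (Bool × Bool) × Bool) :
    NextBit B x ↔ jump B (f2 x) = true := us_NextBit.to_jump.choose_spec.2 B x

/-- histories read from `x`. -/
noncomputable def HS (x : ℕ → Bool) : ℕ → List (Bool × Bool)
  | 0 => []
  | e + 1 => HS x e ++ [(x e, x (2 * f1 (HS x e)))]

/-- The functional Psi. -/
noncomputable def Psi (x : ℕ → Bool) (e : ℕ) : Bool := x (2 * f1 (HS x e))

/-- histories read from `a`. -/
noncomputable def HT (a : ℕ → Bool) : ℕ → List (Bool × Bool)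
  | 0 => []
  | e + 1 => HT a e ++ [(a (f2 (HT a e, a e)), a e)]

/-- The functional Theta. -/
noncomputable def Theta (a : ℕ → Bool) (e : ℕ) : Bool := a (f2 (HT a e, a e))

theorem HS_eq (x : ℕ → Bool) (e : ℕ) : HS x e = (List.range e).map fun i => (x i, Psi x i) := by
  induction e with
  | zero => rfl
  | succ e ih =>
    rw [List.range_succ, List.map_append, ← ih]
    rfl

theorem HS_length (x : ℕ → Bool) (e : ℕ) : (HS x e).length = e := by simp [HS_eq]

theorem HS_getD (x : ℕ → Bool) {e i : ℕ} (h : i < e) :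
    (HS x e).getD i (false, false) = (x i, Psi x i) := by
  rw [HS_eq]
  simp [List.getD, h]

end Pool.Agent.H685R3
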