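import Pool.Agent.H685R3.Gen

set_option autoImplicit false

namespace Pool.Agent.H685R3

open Encodable
open Nat.Partrec (Code)
open Pool.Agent.Helper227

theorem primrec_dl : Primrec dl := Primrec.option_getD.comp Primrec.decode (Primrec.const [])

theorem si_Dec (z : ℕ → Bool) : (SI (om z) fun x : ℕ × List Bool => Dec z x.1 x.2) ∧
    SI (om z) fun x : ℕ × List Bool => ¬ Dec z x.1 x.2 := by
  have hf : ∀ b : Bool, Primrec fun x : ℕ × List Bool =>
      (x.1.unpair.1, (x.2, x.1.unpair.2, b)) := fun b =>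
    (Primrec.fst.comp (Primrec.unpair.comp Primrec.fst)).pair (Primrec.snd.pair
      ((Primrec.snd.comp (Primrec.unpair.comp Primrec.fst)).pair (Primrec.const b)))
  constructor
  · exact SI.or ((si_F z).1.comp (hf true)) ((si_F z).1.comp (hf false))
  · refine (SI.and ((si_F z).2.comp (hf true)) ((si_F z).2.comp (hf false))).of_eq fun x => ?_
    simp only [Dec, not_or]

theorem si_Cond (z : ℕ → Bool) :
    (SI (om z) fun x : (ℕ × List Bool) × List Bool => Cond z x.1 x.2) ∧
    SI (om z) fun x : (ℕ × List Bool) × List Bool => ¬ Cond z x.1 x.2 := by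
  have hp : PrimrecPred fun x : (ℕ × List Bool) × List Bool =>
      x.1.2 = x.2.take x.1.2.length := by
    have h1 : Primrec fun x : (ℕ × List Bool) × List Bool => x.1.2 := Primrec.snd.comp Primrec.fst
    exact Primrec.eq.comp h1 (Primrec.list_take.comp (Primrec.list_length.comp h1) Primrec.snd)
  have hf : Primrec fun x : (ℕ × List Bool) × List Bool => (x.1.1, x.2) :=
    (Primrec.fst.comp Primrec.fst).pair Primrec.snd
  constructor
  · refine (SI.and (SI.of_prim hp) ((si_Dec z).1.comp hf)).of_eq fun x => ?_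
    simp only [Cond, List.prefix_iff_eq_take]
  · refine (SI.or (SI.of_prim hp.not) ((si_Dec z).2.comp hf)).of_eq fun x => ?_
    simp only [Cond, List.prefix_iff_eq_take, not_and_or]

theorem si_St1 (z : ℕ → Bool) :
    SI (om z) fun x : (ℕ × List Bool) × List Bool => St1 z x.1 x.2 := by
  refine SI.and (si_Cond z).1 ?_
  refine SI.all_lt (α := (ℕ × List Bool) × List Bool) (p := fun x j =>
    ¬ encode (dl j) = j ∨ ¬ Cond z x.1 (dl j)) (f := fun x => encode x.2) (SI.or (SI.of_prim ?_) ?_)
    (Primrec.encode.comp Primrec.snd)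
  · exact (Primrec.eq.comp (Primrec.encode.comp (primrec_dl.comp Primrec.snd)) Primrec.snd).not
  · exact (si_Cond z).2.comp (f := fun y : ((ℕ × List Bool) × List Bool) × ℕ =>
      (y.1.1, dl y.2)) ((Primrec.fst.comp Primrec.fst).pair (primrec_dl.comp Primrec.snd))

/-- Determination of the strings of the construction. -/
theorem getD_eq_Sw {z w : ℕ → Bool} {L : List (List Bool)} {N : ℕ} (h0 : L.getD 0 [] = [])
    (h : ∀ i < N, L.getD i [] = Sw z w i →
      ∃ b', w i = b' ∧ St1 z (i, L.getD i [] ++ [b']) (L.getD (i + 1) [])) :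
    ∀ i ≤ N, L.getD i [] = Sw z w i := by
  intro i
  induction i with
  | zero => intro _; rw [h0]; rfl
  | succ i ih =>
    intro hi
    have h1 := ih (by omega)
    obtain ⟨b', h2, h3⟩ := h i (by omega) h1
    rw [h1, ← h2] at h3
    exact h3.unique (Sw_st1 z w i)

theorem getD_range_Sw (z w : ℕ → Bool) (N : ℕ) {i : ℕ} (hi : i ≤ N) :
    ((List.range (N + 1)).map (Sw z w)).getD i [] = Sw z w i := by
  simp [List.getD, Nat.lt_succ_of_le hi]

theorem si_steps {z Y : ℕ → Bool} (hz : TLe (om z) Y) {α : Type*} [Primcodable α]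
    {p : α × ℕ × List (List Bool) → Bool → Prop} {f : α → ℕ} (hf : Primrec f)
    (hp : SI Y fun x : (α × ℕ × List (List Bool)) × Bool => p x.1 x.2) :
    SI Y fun x : α × List (List Bool) => x.2.getD 0 [] = [] ∧
      ∀ i < f x.1, ∃ b' : Bool, p (x.1, i, x.2) b' ∧
        St1 z (i, x.2.getD i [] ++ [b']) (x.2.getD (i + 1) []) := by
  refine SI.and (SI.of_prim ?_) ?_
  · exact Primrec.eq.comp ((Primrec.list_getD []).comp Primrec.snd (Primrec.const 0))
      (Primrec.const [])
  · refine SI.all_lt (α := α × List (List Bool)) (p := fun x i =>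
      ∃ b' : Bool, p (x.1, i, x.2) b' ∧
        St1 z (i, x.2.getD i [] ++ [b']) (x.2.getD (i + 1) [])) (f := fun x => f x.1) ?_
      (hf.comp Primrec.fst)
    refine SI.ex (α := (α × List (List Bool)) × ℕ) (p := fun x b' =>
      p (x.1.1, x.2, x.1.2) b' ∧
        St1 z (x.2, x.1.2.getD x.2 [] ++ [b']) (x.1.2.getD (x.2 + 1) [])) (SI.and ?_ ?_)
    · exact hp.comp (f := fun y : ((α × List (List Bool)) × ℕ) × Bool =>
        ((y.1.1.1, y.1.2, y.1.1.2), y.2)) (Primrec.pair (Primrec.pair
          (Primrec.fst.comp (Primrec.fst.comp Primrec.fst)) (Primrec.pair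
            (Primrec.snd.comp Primrec.fst) (Primrec.snd.comp (Primrec.fst.comp Primrec.fst))))
              Primrec.snd)
    · have hL : Primrec fun y : ((α × List (List Bool)) × ℕ) × Bool => y.1.1.2 :=
        Primrec.snd.comp (Primrec.fst.comp Primrec.fst)
      have hi : Primrec fun y : ((α × List (List Bool)) × ℕ) × Bool => y.1.2 :=
        Primrec.snd.comp Primrec.fst
      exact ((si_St1 z).trans hz).comp (f := fun y : ((α × List (List Bool)) × ℕ) × Bool =>
        ((y.1.2, y.1.1.2.getD y.1.2 [] ++ [y.2]), y.1.1.2.getD (y.1.2 + 1) []))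
        (Primrec.pair (Primrec.pair hi (Primrec.list_append.comp
          ((Primrec.list_getD []).comp hL hi) (Primrec.list_cons.comp Primrec.snd
            (Primrec.const [])))) ((Primrec.list_getD []).comp hL (Primrec.succ.comp hi)))

/-- The omega jump of the join of `z` with the generic is computable from `w`. -/
theorem om_join_le {z w : ℕ → Bool} (hz : TLe (om z) w) : TLe (om (join z (gen z w))) w := by
  rw [tLe_iff_SI]
  have h1 : SI w fun x : ℕ × Bool => ∃ L : List (List Bool), (L.getD 0 [] = [] ∧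
      ∀ i < x.1 + 1, ∃ b' : Bool, w i = b' ∧ St1 z (i, L.getD i [] ++ [b']) (L.getD (i + 1) [])) ∧
      Fz z x.1.unpair.1 (L.getD (x.1 + 1) [], x.1.unpair.2, x.2) := by
    refine SI.ex (p := fun (x : ℕ × Bool) (L : List (List Bool)) => (L.getD 0 [] = [] ∧
      ∀ i < x.1 + 1, ∃ b' : Bool, w i = b' ∧ St1 z (i, L.getD i [] ++ [b']) (L.getD (i + 1) [])) ∧
      Fz z x.1.unpair.1 (L.getD (x.1 + 1) [], x.1.unpair.2, x.2)) (SI.and ?_ ?_)
    · exact si_steps hz (α := ℕ × Bool) (p := fun y b' => w y.2.1 = b') (f := fun x => x.1 + 1)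
        (Primrec.succ.comp Primrec.fst) (SI.query.comp (f := fun x :
          ((ℕ × Bool) × ℕ × List (List Bool)) × Bool => (x.1.2.1, x.2)) ((Primrec.fst.comp
            (Primrec.snd.comp Primrec.fst)).pair Primrec.snd))
    · exact ((si_F z).1.trans hz).comp (f := fun y : (ℕ × Bool) × List (List Bool) =>
        (y.1.1.unpair.1, (y.2.getD (y.1.1 + 1) [], y.1.1.unpair.2, y.1.2)))
        ((Primrec.fst.comp (Primrec.unpair.comp (Primrec.fst.comp Primrec.fst))).pair
          (((Primrec.list_getD []).comp Primrec.snd (Primrec.succ.comp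
            (Primrec.fst.comp Primrec.fst))).pair ((Primrec.snd.comp (Primrec.unpair.comp
              (Primrec.fst.comp Primrec.fst))).pair (Primrec.snd.comp Primrec.fst))))
  refine h1.of_eq fun x => ?_
  obtain ⟨m, b⟩ := x
  simp only
  rw [truth_Sw]
  constructor
  · rintro ⟨L, ⟨h2, h3⟩, h4⟩
    have h5 := getD_eq_Sw h2 (fun i hi _ => h3 i hi) (m + 1) le_rfl
    rwa [h5] at h4
  · intro h2
    refine ⟨(List.range (m + 1 + 1)).map (Sw z w), ⟨?_, ?_⟩, ?_⟩
    · exact getD_range_Sw z w (m + 1) (Nat.zero_le _)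
    · intro i hi
      refine ⟨w i, rfl, ?_⟩
      rw [getD_range_Sw z w (m + 1) hi.le, getD_range_Sw z w (m + 1) hi]
      exact Sw_st1 z w i
    · rw [getD_range_Sw z w (m + 1) le_rfl]
      exact h2

theorem join_odd (z G : ℕ → Bool) (n : ℕ) : join z G (2 * n + 1) = G n := by
  simp only [join]
  rw [if_neg (by omega)]
  congr 1
  omega

theorem join_even (z G : ℕ → Bool) (n : ℕ) : join z G (2 * n) = z n := by
  simp only [join]
  rw [if_pos (by omega)]
  congr 1
  omega

theorem tLe_join (z G : ℕ → Bool) : TLe z (join z G) := by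
  have hf : Primrec fun n : ℕ => 2 * n := Primrec.nat_mul.comp (Primrec.const 2) Primrec.id
  exact tLe_of_computable hf.to_comp fun n => (join_even z G n).symm

/-- The coded real is computable from the omega jump of the join of `z` with the generic. -/
theorem le_om_join (z w : ℕ → Bool) : TLe w (om (join z (gen z w))) := by
  generalize hu : join z (gen z w) = u
  have hzu : TLe z u := hu ▸ tLe_join z _
  have hz : TLe (om z) (om u) := tLe_om_om (k := 0) hzu
  have huu : TLe u (om u) := tLe_jn_om u 0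
  have hq : SI (om u) fun x : ℕ × Bool => u x.1 = x.2 := tLe_iff_SI.1 huu
  rw [tLe_iff_SI]
  have h1 : SI (om u) fun x : ℕ × Bool => ∃ L : List (List Bool), (L.getD 0 [] = [] ∧
      ∀ i < x.1, ∃ b' : Bool, u (2 * (L.getD i []).length + 1) = b' ∧
        St1 z (i, L.getD i [] ++ [b']) (L.getD (i + 1) [])) ∧
      u (2 * (L.getD x.1 []).length + 1) = x.2 := by
    have hlen : ∀ {γ : Type} [Primcodable γ] {f : γ → List (List Bool)} {g : γ → ℕ},
        Primrec f → Primrec g → Primrec fun y => 2 * ((f y).getD (g y) []).length + 1 := by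
      intro γ _ f g hf hg
      exact Primrec.succ.comp (Primrec.nat_mul.comp (Primrec.const 2)
        (Primrec.list_length.comp ((Primrec.list_getD []).comp hf hg)))
    refine SI.ex (p := fun (x : ℕ × Bool) (L : List (List Bool)) => (L.getD 0 [] = [] ∧
      ∀ i < x.1, ∃ b' : Bool, u (2 * (L.getD i []).length + 1) = b' ∧
        St1 z (i, L.getD i [] ++ [b']) (L.getD (i + 1) [])) ∧
      u (2 * (L.getD x.1 []).length + 1) = x.2) (SI.and ?_ ?_)
    · exact si_steps hz (α := ℕ × Bool) (p := fun y b' =>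
        u (2 * (y.2.2.getD y.2.1 []).length + 1) = b') (f := fun x => x.1) Primrec.fst
        (hq.comp (f := fun x : ((ℕ × Bool) × ℕ × List (List Bool)) × Bool =>
          (2 * (x.1.2.2.getD x.1.2.1 []).length + 1, x.2)) (Primrec.pair (hlen
            (Primrec.snd.comp (Primrec.snd.comp Primrec.fst)) (Primrec.fst.comp
              (Primrec.snd.comp Primrec.fst))) Primrec.snd))
    · exact hq.comp (f := fun y : (ℕ × Bool) × List (List Bool) =>
        (2 * (y.2.getD y.1.1 []).length + 1, y.1.2)) (Primrec.pair (hlen Primrec.snd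
          (Primrec.fst.comp Primrec.fst)) (Primrec.snd.comp Primrec.fst))
  have key : ∀ k, u (2 * (Sw z w k).length + 1) = w k := by
    intro k
    rw [← hu, join_odd, gen_length]
  refine h1.of_eq fun x => ?_
  obtain ⟨m, b⟩ := x
  simp only
  constructor
  · rintro ⟨L, ⟨h2, h3⟩, h4⟩
    have h5 := getD_eq_Sw (z := z) (w := w) h2 (N := m) (fun i hi hi' => by
      obtain ⟨b', h6, h7⟩ := h3 i hi
      rw [hi', key] at h6
      exact ⟨b', h6, h7⟩) m le_rfl
    rw [h5, key] at h4
    exact h4
  · intro h2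
    refine ⟨(List.range (m + 1)).map (Sw z w), ⟨?_, ?_⟩, ?_⟩
    · exact getD_range_Sw z w m (Nat.zero_le _)
    · intro i hi
      refine ⟨w i, ?_, ?_⟩
      · rw [getD_range_Sw z w m hi.le, key]
      · rw [getD_range_Sw z w m hi.le, getD_range_Sw z w m hi]
        exact Sw_st1 z w i
    · rw [getD_range_Sw z w m le_rfl, key]
      exact h2

end Pool.Agent.H685R3
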