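import Pool.Agent.H685R3.KDefs

set_option autoImplicit false

namespace Pool.Agent.H685R3

/-- The `ω`-jump of `u`: the bit at the number coding the pair `(n, e)` is the bit at `e` of the
`n`-th iterate of the Turing jump of `u`. -/
noncomputable def omegaJump (u : ℕ → Bool) (m : ℕ) : Bool :=
  (turingJump^[m.unpair.1] u) m.unpair.2

/-- `x` is arithmetical in `y`: it is Turing reducible to an iterate of the Turing jump of `y`. -/
def ArithLe (x y : ℕ → Bool) : Prop :=
  ∃ n : ℕ, TuringReducible (charFn x) (charFn (turingJump^[n] y))

/-- `A` is closed under arithmetical equivalence. -/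
def ArithInvariant (A : Set (ℕ → Bool)) : Prop :=
  ∀ x y, ArithLe x y → ArithLe y x → x ∈ A → y ∈ A

end Pool.Agent.H685R3
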