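import Pool.Agent.H685R3.ODefs
import Pool.Agent.H685R3.Inw
import Pool.Agent.H685R3.KMain

set_option autoImplicit false

namespace Pool.Agent.H685R3

open Pool.Agent.Helper227

theorem iterate_turingJump (u : ℕ → Bool) (n : ℕ) : turingJump^[n] u = jn u n := by
  induction n with
  | zero => rfl
  | succ n ih =>
    rw [Function.iterate_succ_apply', ih]
    rfl

theorem omegaJump_eq (u : ℕ → Bool) : omegaJump u = om u := by
  funext m
  rw [omegaJump, iterate_turingJump]
  rfl

theorem ArithLe.om {x y : ℕ → Bool} (h : ArithLe x y) : TLe (om x) (om y) := by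
  obtain ⟨n, hn⟩ := h
  rw [iterate_turingJump] at hn
  exact tLe_om_om hn

theorem arithInvariant_om {B : Set (ℕ → Bool)} (hB : TuringInvariant B) :
    ArithInvariant {u | omegaJump u ∈ B} := by
  intro x y h h' hx
  have hx : omegaJump x ∈ B := hx
  change omegaJump y ∈ B
  rw [omegaJump_eq] at hx ⊢
  exact hB _ _ h.om h'.om hx

theorem ArithInvariant.turingInvariant {B : Set (ℕ → Bool)} (hB : ArithInvariant B) :
    TuringInvariant B := fun x y h h' hx => hB x y ⟨0, h⟩ ⟨0, h'⟩ hx

theorem wins_om {β : ℕ} (hβ : β < 2) {B : Set (ℕ → Bool)} (hB : TuringInvariant B) :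
    Wins β {u | omegaJump u ∈ B} ↔ Wins β B := by
  constructor
  · intro h
    obtain ⟨z, hz⟩ := cone_of_wins hβ (arithInvariant_om hB).turingInvariant h
    refine wins_of_cone hβ (z := om z) fun w hw => ?_
    have h1 : omegaJump (join z (gen z w)) ∈ B := hz _ (tLe_join z _)
    rw [omegaJump_eq] at h1
    exact hB _ _ (om_join_le hw) (le_om_join z w) h1
  · intro h
    obtain ⟨z, hz⟩ := cone_of_wins hβ hB h
    refine wins_of_cone hβ (z := z) fun u hu => ?_
    change omegaJump u ∈ B
    rw [omegaJump_eq]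
    exact hz _ (TuringReducible.trans hu (tLe_jn_om u 0))

theorem omain {A : Set (ℕ → Bool)} (hA : PermInvariant A) :
    ArithInvariant {u | ttJump (omegaJump u) ∈ A} ∧
      (WinsI {u | ttJump (omegaJump u) ∈ A} ↔ WinsI A) ∧
      (WinsII {u | ttJump (omegaJump u) ∈ A} ↔ WinsII A) :=
  ⟨arithInvariant_om (turingInvariant_K hA),
    (wins_om (β := 0) (by omega) (turingInvariant_K hA)).trans (wins_iff (by omega) hA),
    (wins_om (β := 1) (by omega) (turingInvariant_K hA.compl)).trans
      (wins_iff (by omega) hA.compl)⟩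

end Pool.Agent.H685R3
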