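import Pool.Agent.H685R3.Inv

set_option autoImplicit false

namespace Pool.Agent.H685R3

open Encodable
open Nat.Partrec (Code)
open Pool.Agent.Helper227

theorem s1_graph : S1 fun x : (Code × ℕ) × ℕ => x.2 ∈ x.1.1.eval x.1.2 := by
  have h : S1 fun x : (Code × ℕ) × ℕ => ∃ k : ℕ, Code.evaln k x.1.1 x.1.2 = some x.2 := by
    refine S1.ex (S1.of_prim ?_)
    exact Primrec.eq.comp (Code.primrec_evaln.comp ((Primrec.snd.pair
      (Primrec.fst.comp (Primrec.fst.comp Primrec.fst))).pair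
        (Primrec.snd.comp (Primrec.fst.comp Primrec.fst))))
      (Primrec.option_some.comp (Primrec.snd.comp Primrec.fst))
  refine h.of_eq fun x => ?_
  rw [Code.evaln_complete]
  rfl

theorem exists_smn {α : Type*} [Primcodable α] {g : Code × α → ℕ} (hg : Primrec g) :
    ∃ s : Code → Code, Primrec s ∧ ∀ c a, g (c, a) ∈ (s c).eval (encode a) := by
  have h1 : Primrec fun n : ℕ => ((decode (α := Code × α) n).map g).getD 0 :=
    Primrec.option_getD.comp (Primrec.option_map Primrec.decode (hg.comp Primrec.snd))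
      (Primrec.const 0)
  obtain ⟨cg, hcg⟩ := Code.exists_code.1 (Nat.Partrec.of_primrec (Primrec.nat_iff.1 h1))
  refine ⟨fun c => Code.curry cg (encode c),
    Code.primrec₂_curry.comp (Primrec.const cg) Primrec.encode, fun c a => ?_⟩
  rw [Code.eval_curry, hcg]
  have h2 : Nat.pair (encode c) (encode a) = encode (c, a) := rfl
  rw [h2]
  simp

theorem exists_gj : ∃ g : Code × ℕ → ℕ, Primrec g ∧ ∀ (X Y : ℕ → Bool) (c : Code),
    (∀ i, ∃ m, m ∈ c.eval i ∧ X i = Y m) → ∀ e, jump X e = jump Y (g (c, e)) := by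
  have h : US fun Y (x : Code × ℕ) => ∃ ρ : List Bool, Halt x.2 ρ ∧
      ∀ i < ρ.length, ∃ m, m ∈ x.1.eval i ∧ Y m = ρ.getD i false := by
    refine US.ex (p := fun Y (x : Code × ℕ) (ρ : List Bool) => Halt x.2 ρ ∧
      ∀ i < ρ.length, ∃ m, m ∈ x.1.eval i ∧ Y m = ρ.getD i false) (US.and (US.of_s1 ?_) ?_)
    · exact s1_Halt.comp ((Primrec.snd.comp Primrec.fst).pair Primrec.snd)
    · refine US.all_lt (α := (Code × ℕ) × List Bool) (p := fun Y x i =>
        ∃ m, m ∈ x.1.1.eval i ∧ Y m = x.2.getD i false) (f := fun x => x.2.length) ?_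
        (Primrec.list_length.comp Primrec.snd)
      refine US.ex (α := ((Code × ℕ) × List Bool) × ℕ) (p := fun Y x m =>
        m ∈ x.1.1.1.eval x.2 ∧ Y m = x.1.2.getD x.2 false) (US.and (US.of_s1 ?_) ?_)
      · exact s1_graph.comp (f := fun y : (((Code × ℕ) × List Bool) × ℕ) × ℕ =>
          ((y.1.1.1.1, y.1.2), y.2)) (((Primrec.fst.comp (Primrec.fst.comp (Primrec.fst.comp
            Primrec.fst))).pair (Primrec.snd.comp Primrec.fst)).pair Primrec.snd)
      · exact US.query.comp (f := fun y : (((Code × ℕ) × List Bool) × ℕ) × ℕ =>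
          (y.2, y.1.1.2.getD y.1.2 false)) (Primrec.snd.pair ((Primrec.list_getD false).comp
            (Primrec.snd.comp (Primrec.fst.comp Primrec.fst)) (Primrec.snd.comp Primrec.fst)))
  obtain ⟨g, hg, e⟩ := h.to_jump
  refine ⟨g, hg, fun X Y c hc i => ?_⟩
  have key : jump X i = true ↔ jump Y (g (c, i)) = true := by
    rw [← e Y (c, i), jump_iff]
    constructor
    · rintro ⟨k, hk⟩
      refine ⟨pre X k, hk, fun j hj => ?_⟩
      obtain ⟨m, h1, h2⟩ := hc j
      refine ⟨m, h1, ?_⟩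
      rw [pre_getD _ _ _ _ (by simpa using hj), h2]
    · rintro ⟨ρ, h1, h2⟩
      refine ⟨ρ.length, ?_⟩
      have h3 : pre X ρ.length = ρ := by
        refine List.ext_getElem (by simp) fun j h5 h6 => ?_
        rw [getElem_pre]
        obtain ⟨m, h7, h8⟩ := h2 j h6
        obtain ⟨m', h9, h10⟩ := hc j
        rw [Part.mem_unique h7 h9, ← h10] at h8
        rw [h8]
        exact List.getD_eq_getElem _ _ h6
      rw [h3]
      exact h1
  cases h1 : jump X i <;> cases h2 : jump Y (g (c, i)) <;> simp_all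

/-- The iterated jumps. -/
noncomputable def jn (u : ℕ → Bool) : ℕ → ℕ → Bool
  | 0 => u
  | n + 1 => jump (jn u n)

/-- The `ω`-jump. -/
noncomputable def om (u : ℕ → Bool) (m : ℕ) : Bool := jn u m.unpair.1 m.unpair.2

theorem om_pair (u : ℕ → Bool) (n e : ℕ) : om u (Nat.pair n e) = jn u n e := by simp [om]

theorem tLe_jn_om (u : ℕ → Bool) (n : ℕ) : TLe (jn u n) (om u) := by
  have hf : Primrec fun e : ℕ => Nat.pair n e :=
    Primrec₂.natPair.comp (Primrec.const n) Primrec.id
  exact tLe_of_computable hf.to_comp fun e => (om_pair u n e).symm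

theorem tLe_om_om {u v : ℕ → Bool} {k : ℕ} (h : TLe u (jn v k)) : TLe (om u) (om v) := by
  obtain ⟨f0, hf0, e0⟩ := jump_mLe_jump h
  obtain ⟨c0, hc0⟩ := Code.exists_code.1 (Nat.Partrec.of_primrec (Primrec.nat_iff.1 hf0))
  obtain ⟨g, hg, eg⟩ := exists_gj
  obtain ⟨s, hs, es⟩ := exists_smn hg
  have key : ∀ n i, ∃ m, m ∈ (s^[n] c0).eval i ∧ jn u (n + 1) i = jn v (k + n + 1) m := by
    intro n
    induction n with
    | zero =>
      intro i
      refine ⟨f0 i, ?_, e0 i⟩
      rw [Function.iterate_zero, id, hc0]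
      simp
    | succ n ih =>
      intro i
      refine ⟨g (s^[n] c0, i), ?_, eg _ _ _ ih i⟩
      rw [Function.iterate_succ_apply']
      exact es _ _
  have hu : TLe u (om v) := TuringReducible.trans h (tLe_jn_om v k)
  rw [tLe_iff_SI] at hu ⊢
  have h0 : PrimrecPred fun x : ℕ × Bool => x.1.unpair.1 = 0 :=
    Primrec.eq.comp (Primrec.fst.comp (Primrec.unpair.comp Primrec.fst)) (Primrec.const 0)
  have hU : Primrec fun x : ℕ × Bool => x.1.unpair.2 :=
    Primrec.snd.comp (Primrec.unpair.comp Primrec.fst)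
  have hN : Primrec fun x : ℕ × Bool => x.1.unpair.1 :=
    Primrec.fst.comp (Primrec.unpair.comp Primrec.fst)
  have hit : Primrec fun x : ℕ × Bool => s^[x.1.unpair.1 - 1] c0 :=
    Primrec.nat_iterate (f := fun x : ℕ × Bool => x.1.unpair.1 - 1) (g := fun _ => c0)
      (h := fun _ c => s c) (Primrec.pred.comp hN) (Primrec.const c0) (hs.comp Primrec.snd)
  have h1 : SI (om v) fun x : ℕ × Bool => (x.1.unpair.1 = 0 ∧ u x.1.unpair.2 = x.2) ∨
      (¬ x.1.unpair.1 = 0 ∧ ∃ m, m ∈ (s^[x.1.unpair.1 - 1] c0).eval x.1.unpair.2 ∧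
        om v (Nat.pair (k + x.1.unpair.1) m) = x.2) := by
    refine SI.or (SI.and (SI.of_prim h0) ?_) (SI.and (SI.of_prim h0.not) ?_)
    · exact hu.comp (f := fun x : ℕ × Bool => (x.1.unpair.2, x.2)) (hU.pair Primrec.snd)
    · refine SI.ex (p := fun (x : ℕ × Bool) (m : ℕ) =>
        m ∈ (s^[x.1.unpair.1 - 1] c0).eval x.1.unpair.2 ∧
          om v (Nat.pair (k + x.1.unpair.1) m) = x.2) (SI.and (SI.of_s1 ?_) ?_)
      · exact s1_graph.comp (f := fun y : (ℕ × Bool) × ℕ =>
          ((s^[y.1.1.unpair.1 - 1] c0, y.1.1.unpair.2), y.2))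
          (((hit.comp Primrec.fst).pair (hU.comp Primrec.fst)).pair Primrec.snd)
      · exact SI.query.comp (f := fun y : (ℕ × Bool) × ℕ =>
          (Nat.pair (k + y.1.1.unpair.1) y.2, y.1.2)) ((Primrec₂.natPair.comp
            (Primrec.nat_add.comp (Primrec.const k) (hN.comp Primrec.fst)) Primrec.snd).pair
              (Primrec.snd.comp Primrec.fst))
  refine h1.of_eq fun x => ?_
  obtain ⟨m, b⟩ := x
  simp only
  cases hm : m.unpair.1 with
  | zero =>
    simp only [om, hm, jn, true_and, not_true_eq_false, false_and, or_false]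
  | succ n =>
    obtain ⟨m', h2, h3⟩ := key n m.unpair.2
    have h4 : n + 1 - 1 = n := by omega
    simp only [om, hm, h3, h4, Nat.unpair_pair, ← Nat.add_assoc]
    constructor
    · rintro (⟨h5, _⟩ | ⟨_, m'', h5, h6⟩)
      · omega
      · rw [Part.mem_unique h2 h5]
        exact h6
    · intro h5
      exact Or.inr ⟨by omega, m', h2, h5⟩

end Pool.Agent.H685R3
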