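import Pool.Agent.Helper227.RD.Jump

set_option autoImplicit false

namespace Pool.Agent.H685R3

open Encodable
open Nat.Partrec (Code)
open Pool.Agent.Helper227

/-- `p` is Sigma-one in the oracle, uniformly. -/
def US {α : Type*} [Primcodable α] (p : (ℕ → Bool) → α → Prop) : Prop :=
  ∃ E : List Bool × α → Prop, S1 E ∧ (∀ σ τ a, σ <+: τ → E (σ, a) → E (τ, a)) ∧
    ∀ B a, p B a ↔ ∃ s, E (pre B s, a)

namespace US

variable {α β γ : Type*} [Primcodable α] [Primcodable β] [Primcodable γ]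

theorem toSI {p : (ℕ → Bool) → α → Prop} (hp : US p) (B : ℕ → Bool) : SI B (p B) := by
  obtain ⟨E, hE, mE, eE⟩ := hp
  exact ⟨E, hE, mE, eE B⟩

theorem of_eq {p q : (ℕ → Bool) → α → Prop} (hp : US p) (h : ∀ B a, p B a ↔ q B a) : US q :=
  (funext fun B => funext fun a => propext (h B a) : p = q) ▸ hp

theorem of_s1 {p : α → Prop} (hp : S1 p) : US fun _ => p :=
  ⟨fun x => p x.2, hp.comp Primrec.snd, fun _ _ _ _ h => h, fun _ _ => by simp⟩

theorem of_prim {p : α → Prop} (hp : PrimrecPred p) : US fun _ => p := of_s1 (S1.of_prim hp)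

theorem comp {p : (ℕ → Bool) → β → Prop} {f : α → β} (hp : US p) (hf : Primrec f) :
    US fun B a => p B (f a) := by
  obtain ⟨E, hE, mE, eE⟩ := hp
  exact ⟨fun x => E (x.1, f x.2), hE.comp (Primrec.fst.pair (hf.comp Primrec.snd)),
    fun σ τ a h => mE _ _ _ h, fun B a => eE _ _⟩

theorem and {p q : (ℕ → Bool) → α → Prop} (hp : US p) (hq : US q) :
    US fun B a => p B a ∧ q B a := by
  obtain ⟨E, hE, mE, eE⟩ := hp
  obtain ⟨F, hF, mF, eF⟩ := hq
  refine ⟨fun x => E x ∧ F x, hE.and hF, fun σ τ a h h2 => ⟨mE _ _ _ h h2.1, mF _ _ _ h h2.2⟩,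
    fun B a => ?_⟩
  refine (and_congr (eE B a) (eF B a)).trans ?_
  constructor
  · rintro ⟨⟨s, hs⟩, ⟨t, ht⟩⟩
    exact ⟨max s t, mE _ _ _ (pre_prefix B (le_max_left _ _)) hs,
      mF _ _ _ (pre_prefix B (le_max_right _ _)) ht⟩
  · rintro ⟨s, h1, h2⟩
    exact ⟨⟨s, h1⟩, ⟨s, h2⟩⟩

theorem or {p q : (ℕ → Bool) → α → Prop} (hp : US p) (hq : US q) :
    US fun B a => p B a ∨ q B a := by
  obtain ⟨E, hE, mE, eE⟩ := hp
  obtain ⟨F, hF, mF, eF⟩ := hq
  refine ⟨fun x => E x ∨ F x, hE.or hF, fun σ τ a h h2 => h2.imp (mE _ _ _ h) (mF _ _ _ h),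
    fun B a => ?_⟩
  exact (or_congr (eE B a) (eF B a)).trans exists_or.symm

theorem ex {p : (ℕ → Bool) → α → β → Prop} (hp : US fun B (x : α × β) => p B x.1 x.2) :
    US fun B a => ∃ b, p B a b := by
  obtain ⟨E, hE, mE, eE⟩ := hp
  refine ⟨fun x => ∃ b, E (x.1, (x.2, b)), S1.ex (hE.comp ?_), ?_, fun B a => ?_⟩
  · exact (Primrec.fst.comp Primrec.fst).pair ((Primrec.snd.comp Primrec.fst).pair Primrec.snd)
  · rintro σ τ a h ⟨b, hb⟩
    exact ⟨b, mE _ _ _ h hb⟩
  · constructor
    · rintro ⟨b, hb⟩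
      obtain ⟨s, hs⟩ := (eE B (a, b)).1 hb
      exact ⟨s, b, hs⟩
    · rintro ⟨s, b, hs⟩
      exact ⟨b, (eE B (a, b)).2 ⟨s, hs⟩⟩

theorem all_mem {p : (ℕ → Bool) → α → β → Prop} {f : α → List β}
    (hp : US fun B (x : α × β) => p B x.1 x.2)
    (hf : Primrec f) : US fun B a => ∀ b ∈ f a, p B a b := by
  obtain ⟨E, hE, mE, eE⟩ := hp
  refine ⟨fun x => ∀ b ∈ f x.2, E (x.1, (x.2, b)), S1.all_mem (hE.comp ?_) (hf.comp Primrec.snd),
    ?_, fun B a => ?_⟩
  · exact (Primrec.fst.comp Primrec.fst).pair ((Primrec.snd.comp Primrec.fst).pair Primrec.snd)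
  · rintro σ τ a h h2 b hb
    exact mE _ _ _ h (h2 b hb)
  · have : ∀ L : List β, (∀ b ∈ L, p B a b) ↔ ∃ s, ∀ b ∈ L, E (pre B s, (a, b)) := by
      intro L
      induction L with
      | nil => simp
      | cons c L ih =>
        simp only [List.mem_cons, forall_eq_or_imp, ih]
        have := eE B (a, c)
        simp only at this
        rw [this]
        constructor
        · rintro ⟨⟨m, hm'⟩, ⟨n, hn⟩⟩
          exact ⟨max m n, mE _ _ _ (pre_prefix B (le_max_left _ _)) hm',
            fun b hb => mE _ _ _ (pre_prefix B (le_max_right _ _)) (hn b hb)⟩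
        · rintro ⟨n, h1, h2⟩
          exact ⟨⟨n, h1⟩, ⟨n, h2⟩⟩
    exact this _

theorem all_lt {p : (ℕ → Bool) → α → ℕ → Prop} {f : α → ℕ}
    (hp : US fun B (x : α × ℕ) => p B x.1 x.2)
    (hf : Primrec f) : US fun B a => ∀ b < f a, p B a b :=
  (all_mem hp (Primrec.list_range.comp hf)).of_eq (by simp)

theorem query : US fun B (x : ℕ × Bool) => B x.1 = x.2 := by
  refine ⟨fun x => x.1[x.2.1]? = some x.2.2, S1.of_prim ?_, ?_, ?_⟩
  · exact Primrec.eq.comp (Primrec.list_getElem?.comp Primrec.fst (Primrec.fst.comp Primrec.snd))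
      (Primrec.option_some.comp (Primrec.snd.comp Primrec.snd))
  · rintro σ τ ⟨n, b⟩ h h2
    simp only at h2 ⊢
    obtain ⟨ρ, rfl⟩ := h
    rw [List.getElem?_append_left]
    · exact h2
    · by_contra hc
      rw [List.getElem?_eq_none (by omega)] at h2
      cases h2
  · rintro B ⟨n, b⟩
    simp only
    constructor
    · rintro rfl
      exact ⟨n + 1, pre_getElem? B _ _ (by omega)⟩
    · rintro ⟨s, hs⟩
      by_cases h : n < s
      · rw [pre_getElem? B _ _ h] at hs
        simpa using hs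
      · rw [pre_getElem?_none B _ _ (by omega)] at hs
        cases hs

/-- A primitive recursive query to an initial segment. -/
theorem at_pre {Q : List Bool × α → Prop} {s : α → ℕ} (hQ : PrimrecPred Q) (hs : Primrec s) :
    US fun B a => Q (pre B (s a), a) := by
  have h1 : US fun B (a : α) => ∃ ρ : List Bool, (ρ.length = s a ∧ Q (ρ, a)) ∧
      ∀ i < ρ.length, B i = ρ.getD i false := by
    refine ex (p := fun B (a : α) (ρ : List Bool) => (ρ.length = s a ∧ Q (ρ, a)) ∧
      ∀ i < ρ.length, B i = ρ.getD i false) (and (of_prim (PrimrecPred.and ?_ ?_)) ?_)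
    · exact Primrec.eq.comp (Primrec.list_length.comp Primrec.snd) (hs.comp Primrec.fst)
    · exact hQ.comp (Primrec.snd.pair Primrec.fst)
    · refine all_lt (α := α × List Bool) (p := fun B x i => B i = x.2.getD i false)
        (f := fun x => x.2.length) ?_ (Primrec.list_length.comp Primrec.snd)
      exact query.comp (f := fun z : (α × List Bool) × ℕ => (z.2, z.1.2.getD z.2 false))
        (Primrec.snd.pair ((Primrec.list_getD false).comp (Primrec.snd.comp Primrec.fst) Primrec.snd))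
  refine h1.of_eq fun B a => ?_
  constructor
  · rintro ⟨ρ, ⟨h2, h3⟩, h4⟩
    have : pre B (s a) = ρ := by
      refine List.ext_getElem (by simp [h2]) fun i h5 h6 => ?_
      rw [getElem_pre, h4 i h6]
      simp [h6]
    rwa [this]
  · intro h
    exact ⟨pre B (s a), ⟨by simp, h⟩, fun i hi => (pre_getD B _ _ _ (by simpa using hi)).symm⟩

/-- Substituting the even part of the oracle. -/
theorem even {p : (ℕ → Bool) → α → Prop} (hp : US p) :
    US fun B a => p (fun n => B (2 * n)) a := by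
  obtain ⟨E, hE, mE, eE⟩ := hp
  have h1 : US fun B (a : α) => ∃ ρ : List Bool, E (ρ, a) ∧
      ∀ i < ρ.length, B (2 * i) = ρ.getD i false := by
    refine ex (p := fun B (a : α) (ρ : List Bool) => E (ρ, a) ∧
      ∀ i < ρ.length, B (2 * i) = ρ.getD i false) (and (of_s1 (hE.comp ?_)) ?_)
    · exact Primrec.snd.pair Primrec.fst
    · refine all_lt (α := α × List Bool) (p := fun B x i => B (2 * i) = x.2.getD i false)
        (f := fun x => x.2.length) ?_ (Primrec.list_length.comp Primrec.snd)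
      exact query.comp (f := fun z : (α × List Bool) × ℕ => (2 * z.2, z.1.2.getD z.2 false))
        ((Primrec.nat_mul.comp (Primrec.const 2) Primrec.snd).pair
          ((Primrec.list_getD false).comp (Primrec.snd.comp Primrec.fst) Primrec.snd))
  refine h1.of_eq fun B a => ?_
  rw [eE]
  constructor
  · rintro ⟨ρ, h2, h4⟩
    refine ⟨ρ.length, ?_⟩
    have : pre (fun n => B (2 * n)) ρ.length = ρ := by
      refine List.ext_getElem (by simp) fun i h5 h6 => ?_
      rw [getElem_pre, h4 i h6]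
      simp [h6]
    rwa [this]
  · rintro ⟨s, h⟩
    exact ⟨pre (fun n => B (2 * n)) s, h, fun i hi =>
      (pre_getD (fun n => B (2 * n)) _ _ _ (by simpa using hi)).symm⟩

/-- Uniform completeness of the jump, by a primitive recursive many-one reduction. -/
theorem to_jump {p : (ℕ → Bool) → α → Prop} (hp : US p) :
    ∃ f : α → ℕ, Primrec f ∧ ∀ B a, p B a ↔ jump B (f a) = true := by
  obtain ⟨E, hE, mE, eE⟩ := hp
  have h1 : S1 fun m : ℕ => ∃ a : α, ∃ σ : List Bool, ∃ n : ℕ,
      m = Nat.pair (encode a) (encode (σ, n)) ∧ E (σ, a) := by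
    refine S1.ex (S1.ex (S1.ex (S1.and (S1.of_prim ?_) (hE.comp ?_))))
    · refine Primrec.eq.comp (Primrec.fst.comp (Primrec.fst.comp Primrec.fst)) ?_
      refine Primrec₂.natPair.comp (Primrec.encode.comp
        (Primrec.snd.comp (Primrec.fst.comp Primrec.fst))) (Primrec.encode.comp ?_)
      exact (Primrec.snd.comp Primrec.fst).pair Primrec.snd
    · exact (Primrec.snd.comp Primrec.fst).pair (Primrec.snd.comp (Primrec.fst.comp Primrec.fst))
  obtain ⟨c, hc⟩ := Nat.Partrec.Code.exists_code.1 h1.re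
  refine ⟨fun a => encode (Code.curry c (encode a)), ?_, fun B a => ?_⟩
  · have h2 : Primrec fun a : α => Code.curry c (encode a) :=
      Nat.Partrec.Code.primrec₂_curry.comp (Primrec.const c) Primrec.encode
    exact Primrec.encode.comp h2
  · rw [jump_eq_true]
    simp only [WE, Set.mem_ofPred_eq, Denumerable.ofNat_encode, Nat.Partrec.Code.eval_curry]
    rw [eE, hc]
    refine exists_congr fun k => ?_
    simp [Part.assert, pre]

end US

/-- Nonuniform completeness of the jump, primitive recursively. -/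
theorem SI_to_jump {A : ℕ → Bool} {α : Type*} [Primcodable α] {p : α → Prop} (hp : SI A p) :
    ∃ f : α → ℕ, Primrec f ∧ ∀ a, p a ↔ jump A (f a) = true := by
  obtain ⟨E, hE, mE, eE⟩ := hp
  have : US fun B (a : α) => ∃ s, E (pre B s, a) := ⟨E, hE, mE, fun _ _ => Iff.rfl⟩
  obtain ⟨f, hf, h⟩ := this.to_jump
  exact ⟨f, hf, fun a => (eE a).trans (h A a)⟩

end Pool.Agent.H685R3
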