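import Pool.Agent.H685R3.Defs
import Pool.Agent.H685R3.US

set_option autoImplicit false

namespace Pool.Agent.H685R3

open Encodable
open Pool.Agent.Helper227

theorem hist_eq_pre (x : ℕ → Bool) (n : ℕ) : hist x n = pre x n := rfl

namespace PRF

theorem of_eq {Φ Ψ : (ℕ → ℕ) → ℕ → ℕ} (h : PRF Φ) (e : ∀ g n, Φ g n = Ψ g n) : PRF Ψ :=
  (funext fun g => funext fun n => e g n : Φ = Ψ) ▸ h

theorem of_natPrimrec {f : ℕ → ℕ} (hf : Nat.Primrec f) : PRF fun _ => f := by
  induction hf with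
  | zero => exact PRF.zero
  | succ => exact PRF.succ
  | left => exact PRF.left
  | right => exact PRF.right
  | pair _ _ h1 h2 => exact PRF.pair h1 h2
  | comp _ _ h1 h2 => exact PRF.comp h1 h2
  | prec _ _ h1 h2 => exact (PRF.prec h1 h2).of_eq fun g n => rfl

theorem of_primrec {f : ℕ → ℕ} (hf : Primrec f) : PRF fun _ => f :=
  of_natPrimrec (Primrec.nat_iff.1 hf)

/-- post-composition with a primitive recursive function. -/
theorem post {Φ : (ℕ → ℕ) → ℕ → ℕ} {f : ℕ → ℕ} (hf : Primrec f) (h : PRF Φ) :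
    PRF fun g n => f (Φ g n) := PRF.comp (of_primrec hf) h

/-- pre-composition with a primitive recursive function. -/
theorem precomp {Φ : (ℕ → ℕ) → ℕ → ℕ} {f : ℕ → ℕ} (h : PRF Φ) (hf : Primrec f) :
    PRF fun g n => Φ g (f n) := PRF.comp h (of_primrec hf)

/-- two-argument post-composition. -/
theorem post₂ {Φ Ψ : (ℕ → ℕ) → ℕ → ℕ} {f : ℕ → ℕ → ℕ} (hf : Primrec₂ f) (h : PRF Φ)
    (h' : PRF Ψ) : PRF fun g n => f (Φ g n) (Ψ g n) := by
  have h1 : Primrec fun t : ℕ => f t.unpair.1 t.unpair.2 :=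
    hf.comp (Primrec.fst.comp Primrec.unpair) (Primrec.snd.comp Primrec.unpair)
  exact (post h1 (PRF.pair h h')).of_eq fun g n => by simp

/-- simple recursion. -/
theorem rec0 {Ψ : (ℕ → ℕ) → ℕ → ℕ} (c : ℕ) (h : PRF Ψ) :
    PRF fun g n => Nat.rec (motive := fun _ => ℕ) c (fun y IH => Ψ g (Nat.pair y IH)) n := by
  have h1 := PRF.prec (of_primrec (Primrec.const c)) (PRF.comp h PRF.right)
  have h2 : Primrec fun n : ℕ => Nat.pair 0 n :=
    Primrec₂.natPair.comp (Primrec.const 0) Primrec.id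
  refine (precomp h1 h2).of_eq fun g n => ?_
  simp

theorem subst {Φ Ψ : (ℕ → ℕ) → ℕ → ℕ} (h : PRF Φ) (h' : PRF Ψ) : PRF fun g => Φ (Ψ g) := by
  induction h with
  | zero => exact PRF.zero
  | succ => exact PRF.succ
  | left => exact PRF.left
  | right => exact PRF.right
  | oracle => exact h'
  | pair _ _ h1 h2 => exact PRF.pair h1 h2
  | comp _ _ h1 h2 => exact PRF.comp h1 h2
  | prec _ _ h1 h2 => exact PRF.prec h1 h2

end PRF

theorem PLe.refl (x : ℕ → Bool) : PLe x x := ⟨_, PRF.oracle, fun _ => rfl⟩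

theorem PLe.trans {x y z : ℕ → Bool} (h : PLe x y) (h' : PLe y z) : PLe x z := by
  obtain ⟨Φ, hΦ, e⟩ := h
  obtain ⟨Ψ, hΨ, e'⟩ := h'
  refine ⟨fun g => Φ (Ψ g), hΦ.subst hΨ, fun n => ?_⟩
  rw [e n]
  have : (fun m => (y m).toNat) = Ψ fun m => (z m).toNat := funext e'
  rw [this]

theorem MLe.pLe {x y : ℕ → Bool} (h : MLe x y) : PLe x y := by
  obtain ⟨f, hf, e⟩ := h
  exact ⟨fun g n => g (f n), PRF.precomp PRF.oracle hf, fun n => by rw [e n]⟩

/-- Turing reducibility becomes many-one reducibility to the jump. -/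
theorem mLe_jump {z u : ℕ → Bool} (h : TLe z u) : MLe z (jump u) := by
  have h1 : SI u fun n : ℕ => z n = true :=
    (tLe_iff_SI.1 h).comp (f := fun n : ℕ => (n, true)) (Primrec.id.pair (Primrec.const true))
  obtain ⟨f, hf, e⟩ := SI_to_jump h1
  refine ⟨f, hf, fun n => ?_⟩
  have := e n
  cases hz : z n <;> cases hj : jump u (f n) <;> simp_all

theorem jump_mLe_jump {x y : ℕ → Bool} (h : TLe x y) : MLe (jump x) (jump y) := by
  obtain ⟨f, hf, e⟩ := SI_to_jump ((si_jump x).trans h)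
  refine ⟨f, hf, fun n => ?_⟩
  have := e n
  cases hz : jump x n <;> cases hj : jump y (f n) <;> simp_all

theorem turingInvariant_of_manyOne {A : Set (ℕ → Bool)} (hA : ManyOneInvariant A) :
    TuringInvariant (jumpPreimage A) := fun _ _ h h' hx =>
  hA _ _ (jump_mLe_jump h) (jump_mLe_jump h') hx

theorem manyOne_of_primrec {A : Set (ℕ → Bool)} (hA : PrimrecInvariant A) :
    ManyOneInvariant A := fun _ _ h h' hx => hA _ _ h.pLe h'.pLe hx

end Pool.Agent.H685R3
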