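import Pool.Agent.H685R3.KDefs

set_option autoImplicit false

namespace Pool.Agent.H685R3

/-- All `x` that compute `z` or are Turing equivalent to `Φ y` for some `y` in `D`. -/
def attached (z : ℕ → Bool) (Φ : (ℕ → Bool) → ℕ → Bool) (D : Set (ℕ → Bool)) :
    Set (ℕ → Bool) :=
  {x | TuringReducible (charFn z) (charFn x) ∨ ∃ y ∈ D,
    TuringReducible (charFn x) (charFn (Φ y)) ∧ TuringReducible (charFn (Φ y)) (charFn x)}

end Pool.Agent.H685R3
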