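import Pool.Agent.H685R3.Tree

set_option autoImplicit false

namespace Pool.Agent.H685R3

open Encodable
open Pool.Agent.Helper227

namespace Tree

/-- The bits at the free positions. -/
noncomputable def dec (x : ℕ → Bool) (k : ℕ) : Bool := x (len k)

/-- The closed rule set: the first move off the tree, if any, is made at an odd position. -/
def Rul : Set (ℕ → Bool) :=
  {x | ∀ n, (∀ j < 2 * n, x j = Phi (dec x) j) → x (2 * n) = Phi (dec x) (2 * n)}

/-- The Turing invariant set attached to `D`. -/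
def Sat (D : Set (ℕ → Bool)) : Set (ℕ → Bool) :=
  {x | TLe zz x ∨ ∃ y ∈ D, TLe x (Phi y) ∧ TLe (Phi y) x}

theorem dec_phi (y : ℕ → Bool) : dec (Phi y) = y := funext fun k => phi_len y k

theorem dec_congr {x x' : ℕ → Bool} {n : ℕ} (h : ∀ j < n, x j = x' j) {i : ℕ} (hi : len i < n) :
    dec x i = dec x' i := h _ hi

theorem phi_dec_congr {x x' : ℕ → Bool} {n : ℕ} (h : ∀ j < n, x j = x' j) {j : ℕ} (hj : j < n) :
    Phi (dec x) j = Phi (dec x') j := phi_congr fun _ hi => dec_congr h (by omega)

theorem phi_dec_congr' {x x' : ℕ → Bool} {n : ℕ} (h : ∀ j < n, x j = x' j)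
    (hn : ¬ ∃ k, len k = n) : Phi (dec x) n = Phi (dec x') n :=
  phi_congr fun i hi => dec_congr h (lt_of_le_of_ne hi fun h1 => hn ⟨i, h1⟩)

theorem phi_mem_Rul (y : ℕ → Bool) : Phi y ∈ Rul := by
  intro n _
  rw [dec_phi]

theorem phi_mem_Sat {D : Set (ℕ → Bool)} {y : ℕ → Bool} : Phi y ∈ Sat D ↔ y ∈ D := by
  constructor
  · rintro (h | ⟨y', h1, h2, _⟩)
    · exact absurd h (not_tLe_zz y)
    · by_contra hc
      exact not_tLe (y := y) (y' := y') (by rintro rfl; exact hc h1) h2
  · intro h
    exact Or.inr ⟨y, h, TuringReducible.refl _, TuringReducible.refl _⟩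

theorem turingInvariant_Sat (D : Set (ℕ → Bool)) : TuringInvariant (Sat D) := by
  rintro x x' h h' (h1 | ⟨y, h1, h2, h3⟩)
  · exact Or.inl (TuringReducible.trans h1 h)
  · exact Or.inr ⟨y, h1, TuringReducible.trans h' h2, TuringReducible.trans h3 h⟩

theorem dev {x : ℕ → Bool} {n : ℕ} (h1 : ∀ j < n, x j = Phi (dec x) j)
    (h2 : x n ≠ Phi (dec x) n) : (n % 2 = 0 → x ∉ Rul) ∧ (n % 2 = 1 → x ∈ Rul) := by
  refine ⟨fun h3 h4 => ?_, fun h3 m h4 => ?_⟩
  · have h5 := h4 (n / 2)
    rw [show 2 * (n / 2) = n by omega] at h5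
    exact h2 (h5 h1)
  · rcases lt_trichotomy (2 * m) n with h | h | h
    · exact h1 _ h
    · omega
    · exact absurd (h4 n h) h2

/-- The moves coding the cone. -/
noncomputable def ww (j : ℕ) : Bool := zz ((j / 2).unpair.1)

theorem tLe_of_ww {x : ℕ → Bool} {n : ℕ} (hn : 0 < n) (h : ∀ j, n < j → j % 2 = 0 → x j = ww j) :
    TLe zz x := by
  have hf : Primrec fun i : ℕ => 2 * Nat.pair i n :=
    Primrec.nat_mul.comp (Primrec.const 2) (Primrec₂.natPair.comp Primrec.id (Primrec.const n))
  refine tLe_of_computable hf.to_comp fun i => ?_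
  have h1 := Nat.right_le_pair i n
  have h2 := h (2 * Nat.pair i n) (by omega) (by omega)
  rw [h2, ww]
  have h3 : 2 * Nat.pair i n / 2 = Nat.pair i n := by omega
  simp [h3]

open Classical in
/-- The answer at position `n` of the lifted strategy. -/
noncomputable def val (s : List Bool → Bool) (x : ℕ → Bool) (n : ℕ) : Bool :=
  if ∀ j < n, x j = Phi (dec x) j then
    (if h : ∃ k, len k = n then s (hist (dec x) h.choose) else Phi (dec x) n)
  else ww n

theorem hist_congr {x x' : ℕ → Bool} {n : ℕ} (h : ∀ j < n, x j = x' j) : hist x n = hist x' n := by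
  refine List.ext_getElem (by simp [hist]) fun i h1 _ => ?_
  simp only [hist, List.getElem_map, List.getElem_range]
  exact h i (by simpa [hist] using h1)

theorem val_congr (s : List Bool → Bool) {x x' : ℕ → Bool} {n : ℕ} (h : ∀ j < n, x j = x' j) :
    val s x n = val s x' n := by
  have h1 : (∀ j < n, x j = Phi (dec x) j) ↔ ∀ j < n, x' j = Phi (dec x') j := by
    constructor
    · intro h2 j hj
      rw [← h j hj, h2 j hj]
      exact phi_dec_congr h hj
    · intro h2 j hj
      rw [h j hj, h2 j hj]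
      exact (phi_dec_congr h hj).symm
  unfold val
  by_cases h2 : ∀ j < n, x' j = Phi (dec x') j
  · rw [if_pos (h1.2 h2), if_pos h2]
    by_cases h3 : ∃ k, len k = n
    · rw [dif_pos h3, dif_pos h3]
      congr 1
      refine hist_congr fun i hi => dec_congr h ?_
      have := len_strictMono hi
      have := h3.choose_spec
      omega
    · rw [dif_neg h3, dif_neg h3]
      exact phi_dec_congr' h h3
  · rw [if_neg fun h3 => h2 (h1.1 h3), if_neg h2]

theorem val_len {s : List Bool → Bool} {x : ℕ → Bool} {k : ℕ}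
    (h : ∀ j < len k, x j = Phi (dec x) j) : val s x (len k) = s (hist (dec x) k) := by
  have h1 : ∃ i, len i = len k := ⟨k, rfl⟩
  have h2 : h1.choose = k := len_strictMono.injective h1.choose_spec
  rw [val, if_pos h, dif_pos h1, h2]

/-- Lifting a strategy for the game `D`. -/
noncomputable def lift (s : List Bool → Bool) (L : List Bool) : Bool :=
  val s (fun i => L.getD i false) L.length

theorem lift_hist (s : List Bool → Bool) (x : ℕ → Bool) (n : ℕ) :
    lift s (hist x n) = val s x n := by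
  have h1 : (hist x n).length = n := by simp [hist]
  rw [lift, h1]
  exact val_congr s fun j hj => pre_getD x n j false hj

/-- The analysis of a play by a lifted strategy. -/
theorem lift_play {β : ℕ} (hβ : β < 2) {s : List Bool → Bool} {x : ℕ → Bool}
    (hx : ∀ m, x (2 * m + β) = lift s (hist x (2 * m + β))) :
    (x = Phi (dec x) ∧ ∀ m, dec x (2 * m + β) = s (hist (dec x) (2 * m + β))) ∨
      ∃ n, (∀ j < n, x j = Phi (dec x) j) ∧ x n ≠ Phi (dec x) n ∧ n % 2 ≠ β ∧
        ∀ j, n < j → j % 2 = β → x j = ww j := by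
  have hx' : ∀ n, n % 2 = β → x n = val s x n := by
    intro n hn
    have h1 := hx (n / 2)
    rw [show 2 * (n / 2) + β = n by omega, lift_hist] at h1
    exact h1
  by_cases hd : x = Phi (dec x)
  · refine Or.inl ⟨hd, fun m => ?_⟩
    have h1 : len (2 * m + β) % 2 = β := by rw [len_mod]; omega
    have h2 := hx' _ h1
    rw [val_len fun j _ => congrFun hd j] at h2
    exact h2
  · right
    classical
    have hex : ∃ n, x n ≠ Phi (dec x) n := Function.ne_iff.1 hd
    have h1 := Nat.find_spec hex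
    have h2 : ∀ j < Nat.find hex, x j = Phi (dec x) j := fun j hj =>
      not_not.1 (Nat.find_min hex hj)
    generalize Nat.find hex = n at h1 h2
    refine ⟨n, h2, h1, fun h3 => h1 ?_, fun j hj h3 => ?_⟩
    · by_cases h4 : ∃ k, len k = n
      · obtain ⟨k, rfl⟩ := h4
        rw [phi_len]
        rfl
      · rw [hx' n h3, val, if_pos h2, dif_neg h4]
    · rw [hx' j h3, val, if_neg fun h4 => h1 (h4 n hj)]

theorem winsI_lift {D : Set (ℕ → Bool)} (h : WinsI D) : WinsI (Sat D ∩ Rul) := by
  obtain ⟨s, hs⟩ := h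
  refine ⟨lift s, fun x hx => ?_⟩
  rcases lift_play (β := 0) (by omega) hx with ⟨h1, h2⟩ | ⟨n, h1, h2, h3, h4⟩
  · rw [h1]
    exact ⟨phi_mem_Sat.2 (hs _ h2), phi_mem_Rul _⟩
  · exact ⟨Or.inl (tLe_of_ww (n := n) (by omega) h4), (dev h1 h2).2 (by omega)⟩

theorem winsII_lift {D : Set (ℕ → Bool)} (h : WinsII D) : WinsII (Sat D ∩ Rul) := by
  obtain ⟨s, hs⟩ := h
  refine ⟨lift s, fun x hx hx' => ?_⟩
  rcases lift_play (β := 1) (by omega) hx with ⟨h1, h2⟩ | ⟨n, h1, h2, h3, h4⟩
  · have h3 := hx'.1
    rw [h1, phi_mem_Sat] at h3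
    exact hs _ h2 h3
  · exact (dev h1 h2).1 (by omega) hx'.2

/-- The histories of a continuation. -/
def cont (β : ℕ) (s : List Bool → Bool) (x w : ℕ → Bool) (n : ℕ) : ℕ → List Bool
  | 0 => []
  | j + 1 => cont β s x w n j ++
      [if j < n then x j else if j % 2 = β then s (cont β s x w n j) else w j]

theorem exists_cont {β : ℕ} (s : List Bool → Bool) (x w : ℕ → Bool) (n : ℕ)
    (hx : ∀ m, 2 * m + β < n → x (2 * m + β) = s (hist x (2 * m + β))) (hβ : β < 2) :
    ∃ x' : ℕ → Bool, (∀ j < n, x' j = x j) ∧ (∀ m, x' (2 * m + β) = s (hist x' (2 * m + β))) ∧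
      ∀ j, n ≤ j → j % 2 ≠ β → x' j = w j := by
  let x' : ℕ → Bool := fun j =>
    if j < n then x j else if j % 2 = β then s (cont β s x w n j) else w j
  have h1 : ∀ j, hist x' j = cont β s x w n j := by
    intro j
    induction j with
    | zero => rfl
    | succ j ih =>
      rw [cont, ← ih]
      rw [hist_eq_pre, hist_eq_pre, pre_succ]
      congr 2
      simp only [x']
      rw [← ih]
      rfl
  have h2 : ∀ j < n, x' j = x j := fun j hj => by simp only [x']; rw [if_pos hj]
  refine ⟨x', h2, fun m => ?_, fun j h3 h4 => ?_⟩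
  · by_cases h3 : 2 * m + β < n
    · rw [h2 _ h3, hx m h3]
      congr 1
      exact hist_congr fun j hj => (h2 j (by omega)).symm
    · rw [h1]
      simp only [x']
      rw [if_neg h3, if_pos (by omega)]
  · simp only [x']
    rw [if_neg (by omega), if_neg h4]

/-- Restricting a strategy to the tree. -/
noncomputable def restr (s : List Bool → Bool) (L : List Bool) : Bool :=
  s (hist (Phi fun i => L.getD i false) (len L.length))

theorem restr_hist (s : List Bool → Bool) (y : ℕ → Bool) (k : ℕ) :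
    restr s (hist y k) = s (hist (Phi y) (len k)) := by
  have h1 : (hist y k).length = k := by simp [hist]
  rw [restr, h1]
  congr 1
  refine hist_congr fun j hj => phi_congr fun i hi => ?_
  exact pre_getD y k i false (len_strictMono.lt_iff_lt.1 (by omega))

theorem restr_play {β : ℕ} (hβ : β < 2) {s : List Bool → Bool} {y : ℕ → Bool}
    (hy : ∀ m, y (2 * m + β) = restr s (hist y (2 * m + β))) :
    (∀ m, Phi y (2 * m + β) = s (hist (Phi y) (2 * m + β))) ∨
      ∃ (x : ℕ → Bool) (n : ℕ), (∀ m, x (2 * m + β) = s (hist x (2 * m + β))) ∧ n % 2 = β ∧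
        (∀ j < n, x j = Phi (dec x) j) ∧ x n ≠ Phi (dec x) n ∧
        ∀ j, n ≤ j → j % 2 ≠ β → x j = ww j := by
  by_cases hc : ∀ m, Phi y (2 * m + β) = s (hist (Phi y) (2 * m + β))
  · exact Or.inl hc
  · right
    classical
    obtain ⟨m0, hm0⟩ := not_forall.1 hc
    have hex : ∃ m, ¬ Phi y (2 * m + β) = s (hist (Phi y) (2 * m + β)) := ⟨m0, hm0⟩
    have h1 := Nat.find_spec hex
    have h2 : ∀ m < Nat.find hex, Phi y (2 * m + β) = s (hist (Phi y) (2 * m + β)) :=
      fun m hm => not_not.1 (Nat.find_min hex hm)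
    generalize Nat.find hex = m at h1 h2
    have h3 : ¬ ∃ k, len k = 2 * m + β := by
      rintro ⟨k, hk⟩
      apply h1
      have h4 : k % 2 = β := by rw [← len_mod, hk]; omega
      have h5 := hy (k / 2)
      rw [show 2 * (k / 2) + β = k by omega, restr_hist] at h5
      rw [← hk, phi_len]
      exact h5
    obtain ⟨x, h4, h5, h6⟩ := exists_cont (β := β) s (Phi y) ww (2 * m + β)
      (fun i hi => h2 i (by omega)) hβ
    refine ⟨x, 2 * m + β, h5, by omega, fun j hj => ?_, ?_, h6⟩
    · rw [phi_dec_congr h4 hj, dec_phi]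
      exact h4 j hj
    · rw [phi_dec_congr' h4 h3, dec_phi, h5 m, hist_congr h4]
      exact Ne.symm h1

theorem winsI_restr {D : Set (ℕ → Bool)} (h : WinsI (Sat D ∩ Rul)) : WinsI D := by
  obtain ⟨s, hs⟩ := h
  refine ⟨restr s, fun y hy => ?_⟩
  rcases restr_play (β := 0) (by omega) hy with h1 | ⟨x, n, h1, h2, h3, h4, _⟩
  · exact phi_mem_Sat.1 (hs _ h1).1
  · exact absurd (hs x h1).2 ((dev h3 h4).1 h2)

theorem winsII_restr {D : Set (ℕ → Bool)} (h : WinsII (Sat D ∩ Rul)) : WinsII D := by
  obtain ⟨s, hs⟩ := h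
  refine ⟨restr s, fun y hy hyD => ?_⟩
  rcases restr_play (β := 1) (by omega) hy with h1 | ⟨x, n, h1, h2, h3, h4, h5⟩
  · exact hs _ h1 ⟨phi_mem_Sat.2 hyD, phi_mem_Rul y⟩
  · refine hs x h1 ⟨Or.inl (tLe_of_ww (n := n) (by omega) fun j hj h6 => h5 j hj.le (by omega)), ?_⟩
    exact (dev h3 h4).2 h2

/-- Finite dependence gives continuity. -/
theorem continuous_of_finite {f : (ℕ → Bool) → Bool} (n : ℕ)
    (h : ∀ x x' : ℕ → Bool, (∀ j < n, x j = x' j) → f x = f x') : Continuous f := by
  have h1 : f = (fun w : Fin n → Bool => f fun j => if hj : j < n then w ⟨j, hj⟩ else false) ∘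
      fun x : ℕ → Bool => fun i : Fin n => x i := by
    funext x
    refine h _ _ fun j hj => ?_
    simp [hj]
  rw [h1]
  exact continuous_of_discreteTopology.comp (continuous_pi fun i => continuous_apply _)

theorem continuous_Phi : Continuous Phi := by
  refine continuous_pi fun n => continuous_of_finite (n + 1) fun x x' h => ?_
  refine phi_congr fun i hi => h i ?_
  have := le_len i
  omega

theorem isClosed_Rul : IsClosed Rul := by
  classical
  have h1 : Rul = ⋂ n : ℕ, (fun x : ℕ → Bool => decide ((∀ j < 2 * n, x j = Phi (dec x) j) →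
      x (2 * n) = Phi (dec x) (2 * n))) ⁻¹' {true} := by
    ext x
    simp only [Rul, Set.mem_ofPred_eq, Set.mem_iInter, Set.mem_preimage, Set.mem_singleton_iff,
      decide_eq_true_iff]
  rw [h1]
  refine isClosed_iInter fun n => IsClosed.preimage ?_ (isClosed_discrete _)
  refine continuous_of_finite (2 * n + 1) fun x x' h => ?_
  have h2 : ∀ j < 2 * n + 1, (x j = Phi (dec x) j) ↔ (x' j = Phi (dec x') j) := by
    intro j hj
    rw [h j hj, phi_dec_congr h hj]
  congr 1
  refine propext ?_
  refine imp_congr (forall_congr' fun j => forall_congr' fun hj => h2 j (by omega))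
    (h2 (2 * n) (by omega))

end Tree

end Pool.Agent.H685R3
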