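import Pool.Agent.H685R3.HMono

set_option autoImplicit false

namespace Pool.Agent.H685R3

open Encodable
open Nat.Partrec (Code)
open Pool.Agent.Helper227

/-- The bit coded by a number. -/
def xb (v : ℕ) : Bool := decide (v.unpair.1 = 1)

/-- The set coded by a function. -/
def xo (h : ℕ → ℕ) (n : ℕ) : Bool := xb (h n)

/-- The function coded by a function. -/
def fo (h : ℕ → ℕ) (n : ℕ) : ℕ := (h n).unpair.2

/-- Coding of a set and a function. -/
def mk (x : ℕ → Bool) (F : ℕ → ℕ) (n : ℕ) : ℕ := Nat.pair (x n).toNat (F n)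

theorem xo_mk (x : ℕ → Bool) (F : ℕ → ℕ) : xo (mk x F) = x := by
  funext n
  cases h : x n <;> simp [xo, xb, mk, h]

theorem fo_mk (x : ℕ → Bool) (F : ℕ → ℕ) : fo (mk x F) = F := by
  funext n
  simp [fo, mk]

/-- `F` witnesses, in its columns, that the numbers in `δ` are not in the hyperjump of the join of
`z` and `x`. -/
def Good (z : ℕ → Bool) (δ : List Bool) (x : ℕ → Bool) (F : ℕ → ℕ) : Prop :=
  ∀ e, δ.getD e false = true → ∀ k,
    ¬ Halt3 e (prn (fun m => F (Nat.pair e m)) k) (pre (join z x) k)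

/-- Conditions. -/
abbrev Cn := List Bool × List ℕ × List Bool

/-- The class of the condition `c`. -/
def Cl (z : ℕ → Bool) (c : Cn) (x : ℕ → Bool) : Prop :=
  pre x c.1.length = c.1 ∧ ∃ F, prn F c.2.1.length = c.2.1 ∧ Good z c.2.2 x F

/-- The condition is large. -/
def Lg (z : ℕ → Bool) (c : Cn) : Prop := ¬ {x | Cl z c x}.Countable

/-- A perfect scheme for the condition. -/
structure Scheme (z : ℕ → Bool) (c : Cn) (S : List Bool → List ℕ) : Prop where
  l1 : c.1.length ≤ (S []).length
  l2 : c.2.1.length ≤ (S []).length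
  r1 : ∀ i < c.1.length, xb ((S []).getD i 0) = c.1.getD i false
  r2 : ∀ i < c.2.1.length, ((S []).getD i 0).unpair.2 = c.2.1.getD i 0
  mono : ∀ s b, S s <+: S (b :: s)
  inc : ∀ s, ∃ i, i < (S (true :: s)).length ∧ i < (S (false :: s)).length ∧
    xb ((S (true :: s)).getD i 0) ≠ xb ((S (false :: s)).getD i 0)
  ok : ∀ s e k, c.2.2.getD e false = true → k ≤ (S s).length →
    (∀ m < k, Nat.pair e m < (S s).length) →
    ¬ Halt3 e (prn (fun m => ((S s).getD (Nat.pair e m) 0).unpair.2) k)
      (pre (join z fun i => xb ((S s).getD i 0)) k)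

/-- The finite sequence of the first choices, last choice first. -/
def rp (α : ℕ → Bool) : ℕ → List Bool
  | 0 => []
  | n + 1 => α n :: rp α n

theorem getD_prefix {ρ ρ' : List ℕ} (h : ρ <+: ρ') {i : ℕ} (hi : i < ρ.length) :
    ρ'.getD i 0 = ρ.getD i 0 := by
  obtain ⟨τ, rfl⟩ := h
  exact List.getD_append _ _ _ _ hi

theorem pre_congr {x y : ℕ → Bool} {k : ℕ} (h : ∀ i < k, x i = y i) : pre x k = pre y k := by
  refine List.ext_getElem (by simp) fun i h1 h2 => ?_
  rw [getElem_pre, getElem_pre]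
  exact h i (by simpa using h1)

theorem prn_congr {x y : ℕ → ℕ} {k : ℕ} (h : ∀ i < k, x i = y i) : prn x k = prn y k := by
  refine List.ext_getElem (by simp) fun i h1 h2 => ?_
  rw [getElem_prn, getElem_prn]
  exact h i (by simpa using h1)

theorem join_congr {z x y : ℕ → Bool} {k : ℕ} (h : ∀ i < k, x i = y i) :
    ∀ i < k, join z x i = join z y i := by
  intro i hi
  unfold join
  split_ifs
  · rfl
  · exact h _ (by omega)

section
variable {z : ℕ → Bool} {c : Cn} {S : List Bool → List ℕ} (hS : Scheme z c S)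
include hS

theorem Scheme.lt (s : List Bool) (b : Bool) : (S s).length < (S (b :: s)).length := by
  obtain ⟨i, h1, h2, h3⟩ := hS.inc s
  have h4 : ¬ i < (S s).length := by
    intro h
    apply h3
    rw [getD_prefix (hS.mono s true) h, getD_prefix (hS.mono s false) h]
  cases b <;> omega

theorem Scheme.le_length (α : ℕ → Bool) (n : ℕ) : n ≤ (S (rp α n)).length := by
  induction n with
  | zero => simp
  | succ n ih =>
    have := hS.lt (rp α n) (α n)
    simp only [rp]
    omega

theorem Scheme.prefix_le (α : ℕ → Bool) {n n' : ℕ} (h : n ≤ n') :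
    S (rp α n) <+: S (rp α n') := by
  induction h with
  | refl => exact List.prefix_rfl
  | step _ ih => exact ih.trans (hS.mono _ _)

/-- The branch of the scheme. -/
def branch (S : List Bool → List ℕ) (α : ℕ → Bool) (n : ℕ) : ℕ := (S (rp α (n + 1))).getD n 0

theorem Scheme.branch_eq (α : ℕ → Bool) {n i : ℕ} (hi : i < (S (rp α n)).length) :
    branch S α i = (S (rp α n)).getD i 0 := by
  have h1 : i < (S (rp α (i + 1))).length := hS.le_length α (i + 1)
  rcases le_total n (i + 1) with h | h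
  · exact getD_prefix (hS.prefix_le α h) hi
  · exact (getD_prefix (hS.prefix_le α h) h1).symm

theorem Scheme.cl (α : ℕ → Bool) : Cl z c (xo (branch S α)) := by
  refine ⟨pre_eq_of fun i hi => ?_, fo (branch S α), prn_eq_of fun i hi => ?_, ?_⟩
  · rw [← hS.r1 i hi, xo, hS.branch_eq α (n := 0)]
    · rfl
    · exact lt_of_lt_of_le hi hS.l1
  · rw [← hS.r2 i hi, fo, hS.branch_eq α (n := 0)]
    · rfl
    · exact lt_of_lt_of_le hi hS.l2
  · intro e he k hk
    obtain ⟨N, hN⟩ : ∃ N, k ≤ N ∧ ∀ m < k, Nat.pair e m < N := by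
      refine ⟨Nat.pair e k + k + 1, by omega, fun m hm => ?_⟩
      have := Nat.pair_lt_pair_right e hm
      omega
    have hlen := hS.le_length α N
    refine hS.ok (rp α N) e k he (by omega) (fun m hm => ?_) ?_
    · have := hN.2 m hm
      omega
    · have h1 : prn (fun m => ((S (rp α N)).getD (Nat.pair e m) 0).unpair.2) k =
          prn (fun m => fo (branch S α) (Nat.pair e m)) k := by
        refine prn_congr fun m hm => ?_
        have := hN.2 m hm
        rw [fo, hS.branch_eq α (n := N) (by omega)]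
      have h2 : pre (join z fun i => xb ((S (rp α N)).getD i 0)) k =
          pre (join z (xo (branch S α))) k := by
        refine pre_congr (join_congr fun i hi => ?_)
        rw [xo, hS.branch_eq α (n := N) (by omega)]
      rw [h1, h2]
      exact hk

theorem Scheme.inj : Function.Injective fun α => xo (branch S α) := by
  intro α β h
  by_contra hne
  have hex : ∃ n, α n ≠ β n := Function.ne_iff.1 hne
  classical
  have h1 := Nat.find_spec hex
  have h2 : ∀ m < Nat.find hex, α m = β m := fun m hm => not_not.1 (Nat.find_min hex hm)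
  generalize Nat.find hex = n at h1 h2
  have h3 : ∀ m ≤ n, rp α m = rp β m := by
    intro m
    induction m with
    | zero => intro _; rfl
    | succ m ih =>
      intro hm
      simp only [rp]
      rw [ih (by omega), h2 m (by omega)]
  obtain ⟨i, h4, h5, h6⟩ := hS.inc (rp α n)
  have h7 : ∀ γ : ℕ → Bool, rp γ n = rp α n → ∀ b, γ n = b →
      i < (S (b :: rp α n)).length → xo (branch S γ) i = xb ((S (b :: rp α n)).getD i 0) := by
    intro γ h8 b h9 h10
    have h11 : rp γ (n + 1) = b :: rp α n := by simp only [rp]; rw [h8, h9]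
    rw [xo, hS.branch_eq γ (n := n + 1) (by rw [h11]; exact h10), h11]
  have h8 := congrFun h i
  simp only at h8
  cases ha : α n with
  | true =>
    have hb : β n = false := by cases hb : β n <;> simp_all
    rw [h7 α rfl true ha h4, h7 β (h3 n le_rfl).symm false hb h5] at h8
    exact h6 h8
  | false =>
    have hb : β n = true := by cases hb : β n <;> simp_all
    rw [h7 α rfl false ha h5, h7 β (h3 n le_rfl).symm true hb h4] at h8
    exact h6 h8.symm

theorem Scheme.lg : Lg z c := by
  intro hc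
  have h1 : ((fun α => xo (branch S α)) ⁻¹' {x | Cl z c x}).Countable :=
    hc.preimage_of_injOn hS.inj.injOn
  have h2 : (fun α => xo (branch S α)) ⁻¹' {x | Cl z c x} = Set.univ := by
    ext α
    simpa using hS.cl α
  rw [h2, Set.countable_univ_iff] at h1
  obtain ⟨f, hf⟩ := exists_surjective_nat (ℕ → Bool)
  obtain ⟨n, hn⟩ := hf fun m => !f m m
  have := congrFun hn n
  simp at this

end

/-- The class of a finite sequence of pairs. -/
def Wc (z : ℕ → Bool) (c : Cn) (ρ : List ℕ) : Set (ℕ → Bool) :=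
  {x | ∃ h, prn h ρ.length = ρ ∧ xo h = x ∧ pre (xo h) c.1.length = c.1 ∧
    prn (fo h) c.2.1.length = c.2.1 ∧ Good z c.2.2 (xo h) (fo h)}

theorem exists_good {z : ℕ → Bool} {c : Cn} {ρ : List ℕ} (h : ¬ (Wc z c ρ).Countable) :
    ∃ x ∈ Wc z c ρ, ∃ y ∈ Wc z c ρ, x ≠ y ∧
      (∀ ρ', x ∈ Wc z c ρ' → ¬ (Wc z c ρ').Countable) ∧
      ∀ ρ', y ∈ Wc z c ρ' → ¬ (Wc z c ρ').Countable := by
  have hb : (⋃ ρ' ∈ {ρ' | (Wc z c ρ').Countable}, Wc z c ρ').Countable :=
    (Set.to_countable _).biUnion fun ρ' h' => h'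
  have h1 : ¬ (Wc z c ρ \ ⋃ ρ' ∈ {ρ' | (Wc z c ρ').Countable}, Wc z c ρ').Countable := by
    intro h2
    apply h
    refine (h2.union hb).mono fun x hx => ?_
    by_cases h3 : x ∈ ⋃ ρ' ∈ {ρ' | (Wc z c ρ').Countable}, Wc z c ρ'
    · exact Or.inr h3
    · exact Or.inl ⟨hx, h3⟩
  have h2 : ¬ (Wc z c ρ \ ⋃ ρ' ∈ {ρ' | (Wc z c ρ').Countable}, Wc z c ρ').Subsingleton :=
    fun h3 => h1 h3.countable
  rw [Set.not_subsingleton_iff] at h2
  obtain ⟨x, hx, y, hy, hxy⟩ := h2
  refine ⟨x, hx.1, y, hy.1, hxy, fun ρ' h3 h4 => hx.2 ?_, fun ρ' h3 h4 => hy.2 ?_⟩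
  · exact Set.mem_biUnion (show ρ' ∈ {ρ' | (Wc z c ρ').Countable} from h4) h3
  · exact Set.mem_biUnion (show ρ' ∈ {ρ' | (Wc z c ρ').Countable} from h4) h3

theorem split {z : ℕ → Bool} {c : Cn} {ρ : List ℕ} (h : ¬ (Wc z c ρ).Countable) :
    ∃ R : Bool → List ℕ, (∀ b, ρ <+: R b ∧ ¬ (Wc z c (R b)).Countable) ∧
      ∃ i, i < (R true).length ∧ i < (R false).length ∧
        xb ((R true).getD i 0) ≠ xb ((R false).getD i 0) := by
  obtain ⟨x, ⟨h1, a1, a2, a3⟩, y, ⟨h2, b1, b2, b3⟩, hxy, hx, hy⟩ := exists_good h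
  obtain ⟨n, hn⟩ := Function.ne_iff.1 hxy
  refine ⟨fun b => prn (cond b h1 h2) (ρ.length + n + 1), fun b => ⟨?_, ?_⟩, n, ?_, ?_, ?_⟩
  · cases b
    · conv_lhs => rw [← b1]
      exact prn_prefix h2 (by omega)
    · conv_lhs => rw [← a1]
      exact prn_prefix h1 (by omega)
  · cases b
    · exact hy _ ⟨h2, by simp, b2, b3⟩
    · exact hx _ ⟨h1, by simp, a2, a3⟩
  · simp only [length_prn]
    omega
  · simp only [length_prn]
    omega
  · rw [prn_getD _ (by omega), prn_getD _ (by omega)]
    rw [← a2, ← b2] at hn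
    exact hn

theorem wc_nil (z : ℕ → Bool) (c : Cn) : Wc z c [] = {x | Cl z c x} := by
  ext x
  constructor
  · rintro ⟨h, _, rfl, h1, h2, h3⟩
    exact ⟨h1, fo h, h2, h3⟩
  · rintro ⟨h1, F, h2, h3⟩
    refine ⟨mk x F, rfl, xo_mk x F, ?_⟩
    rw [xo_mk, fo_mk]
    exact ⟨h1, h2, h3⟩

/-- The perfect set theorem for the classes. -/
theorem lg_iff (z : ℕ → Bool) (c : Cn) : Lg z c ↔ ∃ S, Scheme z c S := by
  constructor
  · intro hL
    have hL' : ¬ (Wc z c []).Countable := by rw [wc_nil]; exact hL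
    obtain ⟨x, ⟨h, a1, a2, a3, a4, a5⟩, _, _, _, hx, _⟩ := exists_good hL'
    have hroot : ¬ (Wc z c (prn h (max c.1.length c.2.1.length))).Countable :=
      hx _ ⟨h, by simp, a2, a3, a4, a5⟩
    choose! R hR1 hR2 using fun (ρ : List ℕ) (hρ : ¬ (Wc z c ρ).Countable) => split hρ
    let S : List Bool → List ℕ := fun s =>
      List.rec (prn h (max c.1.length c.2.1.length)) (fun b _ ρ => R ρ b) s
    have hK : ∀ s, ¬ (Wc z c (S s)).Countable := by
      intro s
      induction s with
      | nil => exact hroot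
      | cons b s ih => exact (hR1 _ ih b).2
    refine ⟨S, ⟨?_, ?_, ?_, ?_, ?_, ?_, ?_⟩⟩
    · change _ ≤ (prn h (max c.1.length c.2.1.length)).length
      rw [length_prn]
      exact le_max_left _ _
    · change _ ≤ (prn h (max c.1.length c.2.1.length)).length
      rw [length_prn]
      exact le_max_right _ _
    · intro i hi
      change xb ((prn h (max c.1.length c.2.1.length)).getD i 0) = _
      rw [prn_getD _ (lt_of_lt_of_le hi (le_max_left _ _))]
      conv_rhs => rw [← a3]
      exact (pre_getD (xo h) _ _ _ hi).symm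
    · intro i hi
      change ((prn h (max c.1.length c.2.1.length)).getD i 0).unpair.2 = _
      rw [prn_getD _ (lt_of_lt_of_le hi (le_max_right _ _))]
      conv_rhs => rw [← a4]
      exact (prn_getD (fo h) hi).symm
    · intro s b
      exact (hR1 _ (hK s) b).1
    · intro s
      exact hR2 _ (hK s)
    · intro s e k he hk hm
      have hne : (Wc z c (S s)).Nonempty := by
        by_contra hc
        rw [Set.not_nonempty_iff_eq_empty] at hc
        exact hK s (by rw [hc]; exact Set.countable_empty)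
      obtain ⟨y, g, b1, b2, b3, b4, b5⟩ := hne
      have h0 : ∀ i < (S s).length, (S s).getD i 0 = g i := by
        intro i hi
        conv_lhs => rw [← b1]
        exact prn_getD _ hi
      have h1 : prn (fun m => ((S s).getD (Nat.pair e m) 0).unpair.2) k =
          prn (fun m => fo g (Nat.pair e m)) k :=
        prn_congr fun m hm' => by rw [h0 _ (hm m hm'), fo]
      have h2 : pre (join z fun i => xb ((S s).getD i 0)) k = pre (join z (xo g)) k :=
        pre_congr (join_congr fun i hi => by rw [h0 _ (by omega), xo])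
      rw [h1, h2]
      exact b5 e he k
  · rintro ⟨S, hS⟩
    exact hS.lg

end Pool.Agent.H685R3
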