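import Pool.Agent.H685R3.Sch

set_option autoImplicit false

namespace Pool.Agent.H685R3

open Encodable
open Nat.Partrec (Code)
open Pool.Agent.Helper227

theorem UF.at_fun {α : Type*} [Primcodable α] {p : (ℕ → Bool) → (ℕ → ℕ) → α → ℕ → Prop}
    {f : α → ℕ} (hp : UF fun B g (x : α × ℕ) => p B g x.1 x.2) (hf : Primrec f) :
    UF fun B g a => p B g a (g (f a)) := by
  have h1 : UF fun B g a => ∃ v : ℕ, g (f a) = v ∧ p B g a v := by
    refine UF.ex (p := fun B g a v => g (f a) = v ∧ p B g a v) (UF.and ?_ hp)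
    exact UF.queryF.comp (f := fun y : α × ℕ => (f y.1, y.2)) ((hf.comp Primrec.fst).pair
      Primrec.snd)
  refine h1.of_eq fun B g a => ?_
  constructor
  · rintro ⟨v, rfl, h⟩
    exact h
  · intro h
    exact ⟨_, rfl, h⟩

/-- The list coded by a number. -/
def dcl (n : ℕ) : List ℕ := (decode (α := List ℕ) n).getD []

theorem primrec_dcl : Primrec dcl := Primrec.option_getD.comp Primrec.decode (Primrec.const [])

theorem dcl_encode (ρ : List ℕ) : dcl (encode ρ) = ρ := by simp [dcl]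

theorem primrec_xb : Primrec xb :=
  (Primrec.eq.comp (Primrec.fst.comp Primrec.unpair) (Primrec.const 1)).decide

/-- The scheme coded by a function. -/
def sch (g : ℕ → ℕ) (s : List Bool) : List ℕ := dcl (g (encode s))

theorem lg_iff' (z : ℕ → Bool) (c : Cn) : Lg z c ↔ ∃ g, Scheme z c (sch g) := by
  rw [lg_iff]
  constructor
  · rintro ⟨S, hS⟩
    refine ⟨fun n => encode (S (dl n)), ?_⟩
    have h1 : sch (fun n => encode (S (dl n))) = S := by
      funext s
      simp only [sch, dl_encode, dcl_encode]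
    rw [h1]
    exact hS
  · rintro ⟨g, hg⟩
    exact ⟨_, hg⟩

/-- Violation of the scheme conditions. -/
def Bad1 (g : ℕ → ℕ) (c : Cn) : Prop :=
  ¬ c.1.length ≤ (sch g []).length ∨ ¬ c.2.1.length ≤ (sch g []).length

def Bad2 (g : ℕ → ℕ) (c : Cn) : Prop :=
  ∃ i, (i < c.1.length ∧ ¬ xb ((sch g []).getD i 0) = c.1.getD i false) ∨
    (i < c.2.1.length ∧ ¬ ((sch g []).getD i 0).unpair.2 = c.2.1.getD i 0)

def Bad3 (g : ℕ → ℕ) : Prop :=
  ∃ x : List Bool × Bool, ¬ sch g x.1 = (sch g (x.2 :: x.1)).take (sch g x.1).length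

def Bad4 (g : ℕ → ℕ) : Prop :=
  ∃ s : List Bool, ∀ i < (sch g (true :: s)).length, ¬ i < (sch g (false :: s)).length ∨
    xb ((sch g (true :: s)).getD i 0) = xb ((sch g (false :: s)).getD i 0)

def Bad5 (z : ℕ → Bool) (g : ℕ → ℕ) (c : Cn) : Prop :=
  ∃ x : List Bool × ℕ × ℕ, (c.2.2.getD x.2.1 false = true ∧ x.2.2 ≤ (sch g x.1).length) ∧
    (∀ m < x.2.2, Nat.pair x.2.1 m < (sch g x.1).length) ∧
    ∃ ζ : List Bool, ζ.length = x.2.2 ∧
      (∀ i < x.2.2, (i % 2 = 0 ∧ z (i / 2) = ζ.getD i false) ∨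
        (¬ i % 2 = 0 ∧ xb ((sch g x.1).getD (i / 2) 0) = ζ.getD i false)) ∧
      Halt3 x.2.1 (prn (fun m => ((sch g x.1).getD (Nat.pair x.2.1 m) 0).unpair.2) x.2.2) ζ

theorem not_scheme {z : ℕ → Bool} {g : ℕ → ℕ} {c : Cn} : ¬ Scheme z c (sch g) ↔
    ((Bad1 g c ∨ Bad2 g c) ∨ (Bad3 g ∨ Bad4 g)) ∨ Bad5 z g c := by
  constructor
  · intro h
    by_contra hc
    apply h
    simp only [not_or] at hc
    obtain ⟨⟨⟨h1, h2⟩, h3, h4⟩, h5⟩ := hc
    simp only [Bad1, not_or, not_not] at h1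
    simp only [Bad2, not_exists, not_or, not_and, not_not] at h2
    simp only [Bad3, not_exists, not_not] at h3
    simp only [Bad4, not_exists] at h4
    simp only [Bad5, not_exists] at h5
    refine ⟨h1.1, h1.2, fun i hi => (h2 i).1 hi, fun i hi => (h2 i).2 hi, fun s b => ?_,
      fun s => ?_, fun s e k he hk hm hh => ?_⟩
    · rw [List.prefix_iff_eq_take]
      exact h3 (s, b)
    · have := h4 s
      push Not at this
      obtain ⟨i, h6, h7, h8⟩ := this
      exact ⟨i, h6, h7, h8⟩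
    · refine h5 (s, e, k) ⟨⟨he, hk⟩, hm, _, length_pre _ _, fun i hi => ?_, hh⟩
      rw [pre_getD _ _ _ _ hi]
      unfold join
      by_cases h6 : i % 2 = 0
      · exact Or.inl ⟨h6, by rw [if_pos h6]⟩
      · exact Or.inr ⟨h6, by rw [if_neg h6]⟩
  · rintro (((h | h) | h | h) | h) hS
    · rcases h with h | h
      · exact h hS.l1
      · exact h hS.l2
    · rcases h with ⟨i, ⟨h1, h2⟩ | ⟨h1, h2⟩⟩
      · exact h2 (hS.r1 i h1)
      · exact h2 (hS.r2 i h1)
    · obtain ⟨x, hx⟩ := h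
      exact hx (List.prefix_iff_eq_take.1 (hS.mono x.1 x.2))
    · obtain ⟨s, hs⟩ := h
      obtain ⟨i, h1, h2, h3⟩ := hS.inc s
      rcases hs i h1 with h4 | h4
      · exact h4 h2
      · exact h3 h4
    · obtain ⟨x, ⟨h1, h2⟩, h3, ζ, h4, h5, h6⟩ := h
      refine hS.ok x.1 x.2.1 x.2.2 h1 h2 h3 ?_
      have h7 : pre (join z fun i => xb ((sch g x.1).getD i 0)) x.2.2 = ζ := by
        rw [← h4]
        refine pre_eq_of fun i hi => ?_
        rw [h4] at hi
        unfold join
        rcases h5 i hi with ⟨h8, h9⟩ | ⟨h8, h9⟩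
        · rw [if_pos h8]
          exact h9
        · rw [if_neg h8]
          exact h9
      rw [h7]
      exact h6

theorem uf_Bad1 : UF fun _ g (c : Cn) => Bad1 g c := by
  have h1 : UF fun _ g (c : Cn) => ¬ c.1.length ≤ (dcl (g (encode ([] : List Bool)))).length ∨
      ¬ c.2.1.length ≤ (dcl (g (encode ([] : List Bool)))).length := by
    refine UF.at_fun (p := fun _ _ (c : Cn) v => ¬ c.1.length ≤ (dcl v).length ∨
      ¬ c.2.1.length ≤ (dcl v).length) (f := fun _ => encode ([] : List Bool))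
      (UF.of_prim (PrimrecPred.or (PrimrecPred.not ?_) (PrimrecPred.not ?_))) (Primrec.const _)
    · exact Primrec.nat_le.comp (Primrec.list_length.comp (Primrec.fst.comp Primrec.fst))
        (Primrec.list_length.comp (primrec_dcl.comp Primrec.snd))
    · exact Primrec.nat_le.comp (Primrec.list_length.comp (Primrec.fst.comp (Primrec.snd.comp
        Primrec.fst))) (Primrec.list_length.comp (primrec_dcl.comp Primrec.snd))
  exact h1

theorem uf_Bad2 : UF fun _ g (c : Cn) => Bad2 g c := by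
  refine UF.ex (p := fun _ g (c : Cn) (i : ℕ) =>
    (i < c.1.length ∧ ¬ xb ((sch g []).getD i 0) = c.1.getD i false) ∨
    (i < c.2.1.length ∧ ¬ ((sch g []).getD i 0).unpair.2 = c.2.1.getD i 0)) ?_
  have h1 : UF fun _ g (y : Cn × ℕ) =>
    (y.2 < y.1.1.length ∧
      ¬ xb ((dcl (g (encode ([] : List Bool)))).getD y.2 0) = y.1.1.getD y.2 false) ∨
    (y.2 < y.1.2.1.length ∧
      ¬ ((dcl (g (encode ([] : List Bool)))).getD y.2 0).unpair.2 = y.1.2.1.getD y.2 0) := by
    refine UF.at_fun (p := fun _ _ (y : Cn × ℕ) v => (y.2 < y.1.1.length ∧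
      ¬ xb ((dcl v).getD y.2 0) = y.1.1.getD y.2 false) ∨
    (y.2 < y.1.2.1.length ∧
      ¬ ((dcl v).getD y.2 0).unpair.2 = y.1.2.1.getD y.2 0)) (f := fun _ =>
        encode ([] : List Bool)) (UF.of_prim (PrimrecPred.or (PrimrecPred.and ?_
          (PrimrecPred.not ?_)) (PrimrecPred.and ?_ (PrimrecPred.not ?_)))) (Primrec.const _)
    · exact Primrec.nat_lt.comp (Primrec.snd.comp Primrec.fst) (Primrec.list_length.comp
        (Primrec.fst.comp (Primrec.fst.comp Primrec.fst)))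
    · exact Primrec.eq.comp (primrec_xb.comp ((Primrec.list_getD 0).comp
        (primrec_dcl.comp Primrec.snd) (Primrec.snd.comp Primrec.fst)))
        ((Primrec.list_getD false).comp (Primrec.fst.comp (Primrec.fst.comp Primrec.fst))
          (Primrec.snd.comp Primrec.fst))
    · exact Primrec.nat_lt.comp (Primrec.snd.comp Primrec.fst) (Primrec.list_length.comp
        (Primrec.fst.comp (Primrec.snd.comp (Primrec.fst.comp Primrec.fst))))
    · exact Primrec.eq.comp (Primrec.snd.comp (Primrec.unpair.comp ((Primrec.list_getD 0).comp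
        (primrec_dcl.comp Primrec.snd) (Primrec.snd.comp Primrec.fst))))
        ((Primrec.list_getD 0).comp (Primrec.fst.comp (Primrec.snd.comp (Primrec.fst.comp
          Primrec.fst))) (Primrec.snd.comp Primrec.fst))
  exact h1

theorem uf_Bad3 : UF fun _ g (_ : Cn) => Bad3 g := by
  refine UF.ex (p := fun _ g (_ : Cn) (x : List Bool × Bool) =>
    ¬ sch g x.1 = (sch g (x.2 :: x.1)).take (sch g x.1).length) ?_
  have h1 : UF fun _ g (y : Cn × List Bool × Bool) => ¬ dcl (g (encode y.2.1)) =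
      (dcl (g (encode (y.2.2 :: y.2.1)))).take (dcl (g (encode y.2.1))).length := by
    refine UF.at_fun (p := fun _ g (y : Cn × List Bool × Bool) v => ¬ dcl v =
      (dcl (g (encode (y.2.2 :: y.2.1)))).take (dcl v).length) (f := fun y => encode y.2.1)
      ?_ (Primrec.encode.comp (Primrec.fst.comp Primrec.snd))
    refine UF.at_fun (p := fun _ _ (y : (Cn × List Bool × Bool) × ℕ) v => ¬ dcl y.2 =
      (dcl v).take (dcl y.2).length) (f := fun y => encode (y.1.2.2 :: y.1.2.1))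
      (UF.of_prim (PrimrecPred.not ?_)) ?_
    · exact Primrec.eq.comp (primrec_dcl.comp (Primrec.snd.comp Primrec.fst))
        (Primrec.list_take.comp (Primrec.list_length.comp (primrec_dcl.comp
          (Primrec.snd.comp Primrec.fst))) (primrec_dcl.comp Primrec.snd))
    · exact Primrec.encode.comp (Primrec.list_cons.comp (Primrec.snd.comp
        (Primrec.snd.comp Primrec.fst)) (Primrec.fst.comp (Primrec.snd.comp Primrec.fst)))
  exact h1

theorem uf_Bad4 : UF fun _ g (_ : Cn) => Bad4 g := by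
  refine UF.ex (p := fun _ g (_ : Cn) (s : List Bool) =>
    ∀ i < (sch g (true :: s)).length, ¬ i < (sch g (false :: s)).length ∨
    xb ((sch g (true :: s)).getD i 0) = xb ((sch g (false :: s)).getD i 0)) ?_
  have h1 : UF fun _ g (y : Cn × List Bool) => ∀ i < (dcl (g (encode (true :: y.2)))).length,
      ¬ i < (dcl (g (encode (false :: y.2)))).length ∨
      xb ((dcl (g (encode (true :: y.2)))).getD i 0) =
        xb ((dcl (g (encode (false :: y.2)))).getD i 0) := by
    refine UF.at_fun (p := fun _ g (y : Cn × List Bool) v => ∀ i < (dcl v).length,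
      ¬ i < (dcl (g (encode (false :: y.2)))).length ∨
      xb ((dcl v).getD i 0) =
        xb ((dcl (g (encode (false :: y.2)))).getD i 0)) (f := fun y => encode (true :: y.2))
      ?_ (Primrec.encode.comp (Primrec.list_cons.comp (Primrec.const true) Primrec.snd))
    refine UF.at_fun (p := fun _ _ (y : (Cn × List Bool) × ℕ) v => ∀ i < (dcl y.2).length,
      ¬ i < (dcl v).length ∨ xb ((dcl y.2).getD i 0) = xb ((dcl v).getD i 0))
      (f := fun y => encode (false :: y.1.2))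
      ?_ (Primrec.encode.comp (Primrec.list_cons.comp (Primrec.const false)
        (Primrec.snd.comp Primrec.fst)))
    refine UF.all_lt (α := ((Cn × List Bool) × ℕ) × ℕ) (p := fun _ _ y i =>
      ¬ i < (dcl y.2).length ∨ xb ((dcl y.1.2).getD i 0) = xb ((dcl y.2).getD i 0))
      (f := fun y => (dcl y.1.2).length) (UF.of_prim (PrimrecPred.or (PrimrecPred.not ?_) ?_))
      (Primrec.list_length.comp (primrec_dcl.comp (Primrec.snd.comp Primrec.fst)))
    · exact Primrec.nat_lt.comp Primrec.snd (Primrec.list_length.comp (primrec_dcl.comp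
        (Primrec.snd.comp Primrec.fst)))
    · exact Primrec.eq.comp (primrec_xb.comp ((Primrec.list_getD 0).comp (primrec_dcl.comp
        (Primrec.snd.comp (Primrec.fst.comp Primrec.fst))) Primrec.snd))
        (primrec_xb.comp ((Primrec.list_getD 0).comp (primrec_dcl.comp
        (Primrec.snd.comp Primrec.fst)) Primrec.snd))
  exact h1

theorem uf_Bad5 : UF fun z g (c : Cn) => Bad5 z g c := by
  refine UF.ex (p := fun z g (c : Cn) (x : List Bool × ℕ × ℕ) =>
    (c.2.2.getD x.2.1 false = true ∧ x.2.2 ≤ (sch g x.1).length) ∧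
    (∀ m < x.2.2, Nat.pair x.2.1 m < (sch g x.1).length) ∧
    ∃ ζ : List Bool, ζ.length = x.2.2 ∧
      (∀ i < x.2.2, (i % 2 = 0 ∧ z (i / 2) = ζ.getD i false) ∨
        (¬ i % 2 = 0 ∧ xb ((sch g x.1).getD (i / 2) 0) = ζ.getD i false)) ∧
      Halt3 x.2.1 (prn (fun m => ((sch g x.1).getD (Nat.pair x.2.1 m) 0).unpair.2) x.2.2) ζ) ?_
  refine UF.at_fun (p := fun z _ (y : Cn × List Bool × ℕ × ℕ) v =>
    (y.1.2.2.getD y.2.2.1 false = true ∧ y.2.2.2 ≤ (dcl v).length) ∧
    (∀ m < y.2.2.2, Nat.pair y.2.2.1 m < (dcl v).length) ∧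
    ∃ ζ : List Bool, ζ.length = y.2.2.2 ∧
      (∀ i < y.2.2.2, (i % 2 = 0 ∧ z (i / 2) = ζ.getD i false) ∨
        (¬ i % 2 = 0 ∧ xb ((dcl v).getD (i / 2) 0) = ζ.getD i false)) ∧
      Halt3 y.2.2.1 (prn (fun m => ((dcl v).getD (Nat.pair y.2.2.1 m) 0).unpair.2) y.2.2.2) ζ)
    (f := fun y => encode y.2.1) ?_ (Primrec.encode.comp (Primrec.fst.comp Primrec.snd))
  have hc : Primrec fun x : (Cn × List Bool × ℕ × ℕ) × ℕ => x.1.1.2.2 :=
    Primrec.snd.comp (Primrec.snd.comp (Primrec.fst.comp Primrec.fst))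
  have he : Primrec fun x : (Cn × List Bool × ℕ × ℕ) × ℕ => x.1.2.2.1 :=
    Primrec.fst.comp (Primrec.snd.comp (Primrec.snd.comp Primrec.fst))
  have hk : Primrec fun x : (Cn × List Bool × ℕ × ℕ) × ℕ => x.1.2.2.2 :=
    Primrec.snd.comp (Primrec.snd.comp (Primrec.snd.comp Primrec.fst))
  have hv : Primrec fun x : (Cn × List Bool × ℕ × ℕ) × ℕ => dcl x.2 :=
    primrec_dcl.comp Primrec.snd
  have hpr : Primrec fun x : (Cn × List Bool × ℕ × ℕ) × ℕ =>
      prn (fun m => ((dcl x.2).getD (Nat.pair x.1.2.2.1 m) 0).unpair.2) x.1.2.2.2 := by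
    refine Primrec.list_map (Primrec.list_range.comp hk) ?_
    exact Primrec.snd.comp (Primrec.unpair.comp ((Primrec.list_getD 0).comp
      (hv.comp Primrec.fst) (Primrec₂.natPair.comp (he.comp Primrec.fst) Primrec.snd)))
  refine UF.and (UF.of_prim (PrimrecPred.and ?_ ?_)) (UF.and ?_ ?_)
  · exact Primrec.eq.comp ((Primrec.list_getD false).comp hc he) (Primrec.const true)
  · exact Primrec.nat_le.comp hk (Primrec.list_length.comp hv)
  · refine UF.all_lt (α := (Cn × List Bool × ℕ × ℕ) × ℕ) (p := fun _ _ x m =>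
      Nat.pair x.1.2.2.1 m < (dcl x.2).length) (f := fun x => x.1.2.2.2) (UF.of_prim ?_) hk
    exact Primrec.nat_lt.comp (Primrec₂.natPair.comp (he.comp Primrec.fst) Primrec.snd)
      (Primrec.list_length.comp (hv.comp Primrec.fst))
  · refine UF.ex (α := (Cn × List Bool × ℕ × ℕ) × ℕ) (p := fun z _ x ζ =>
      ζ.length = x.1.2.2.2 ∧
      (∀ i < x.1.2.2.2, (i % 2 = 0 ∧ z (i / 2) = ζ.getD i false) ∨
        (¬ i % 2 = 0 ∧ xb ((dcl x.2).getD (i / 2) 0) = ζ.getD i false)) ∧
      Halt3 x.1.2.2.1 (prn (fun m => ((dcl x.2).getD (Nat.pair x.1.2.2.1 m) 0).unpair.2)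
        x.1.2.2.2) ζ) (UF.and (UF.of_prim ?_) (UF.and ?_ (UF.of_s1 ?_)))
    · exact Primrec.eq.comp (Primrec.list_length.comp Primrec.snd) (hk.comp Primrec.fst)
    · refine UF.all_lt (α := ((Cn × List Bool × ℕ × ℕ) × ℕ) × List Bool) (p := fun z _ y i =>
        (i % 2 = 0 ∧ z (i / 2) = y.2.getD i false) ∨
        (¬ i % 2 = 0 ∧ xb ((dcl y.1.2).getD (i / 2) 0) = y.2.getD i false))
        (f := fun y => y.1.1.2.2.2) ?_ (hk.comp Primrec.fst)
      have hm : PrimrecPred fun y : (((Cn × List Bool × ℕ × ℕ) × ℕ) × List Bool) × ℕ =>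
          y.2 % 2 = 0 :=
        Primrec.eq.comp (Primrec.nat_mod.comp Primrec.snd (Primrec.const 2)) (Primrec.const 0)
      have hd : Primrec fun y : (((Cn × List Bool × ℕ × ℕ) × ℕ) × List Bool) × ℕ => y.2 / 2 :=
        Primrec.nat_div.comp Primrec.snd (Primrec.const 2)
      have hζ : Primrec fun y : (((Cn × List Bool × ℕ × ℕ) × ℕ) × List Bool) × ℕ =>
          y.1.2.getD y.2 false :=
        (Primrec.list_getD false).comp (Primrec.snd.comp Primrec.fst) Primrec.snd
      refine UF.or (UF.and (UF.of_prim hm) ?_) (UF.of_prim (hm.not.and ?_))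
      · exact UF.queryB.comp (f := fun y : (((Cn × List Bool × ℕ × ℕ) × ℕ) × List Bool) × ℕ =>
          (y.2 / 2, y.1.2.getD y.2 false)) (hd.pair hζ)
      · exact Primrec.eq.comp (primrec_xb.comp ((Primrec.list_getD 0).comp
          (hv.comp (Primrec.fst.comp Primrec.fst)) hd)) hζ
    · exact s1_Halt3.comp (f := fun y : ((Cn × List Bool × ℕ × ℕ) × ℕ) × List Bool =>
        (y.1.1.2.2.1, prn (fun m => ((dcl y.1.2).getD (Nat.pair y.1.1.2.2.1 m) 0).unpair.2)
          y.1.1.2.2.2, y.2)) ((he.comp Primrec.fst).pair ((hpr.comp Primrec.fst).pair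
            Primrec.snd))

/-- Largeness is decided by the hyperjump. -/
theorem exists_lg : ∃ g : Cn → ℕ, Primrec g ∧ ∀ z c, ¬ Lg z c ↔ hyperJump z (g c) = true := by
  have h1 : UF fun z g (c : Cn) =>
      ((Bad1 g c ∨ Bad2 g c) ∨ (Bad3 g ∨ Bad4 g)) ∨ Bad5 z g c :=
    UF.or (UF.or (UF.or uf_Bad1 uf_Bad2) (UF.or uf_Bad3 uf_Bad4)) uf_Bad5
  obtain ⟨g, hg, e⟩ := h1.to_hyp
  refine ⟨g, hg, fun z c => ?_⟩
  rw [← e, lg_iff', not_exists]
  exact forall_congr' fun g => not_scheme

end Pool.Agent.H685R3
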