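import Pool.Agent.H685R3.Inc
import Pool.Agent.H685R3.Inv2

set_option autoImplicit false

namespace Pool.Agent.H685R3

open Encodable
open Nat.Partrec (Code)
open Pool.Agent.Helper227

theorem mem_allStr' (σ : List Bool) : σ ∈ allStr σ.length := by
  have h : pre (fun i => σ.getD i false) σ.length = σ := by
    refine List.ext_getElem (by simp) fun i h1 h2 => ?_
    rw [getElem_pre]
    exact List.getD_eq_getElem _ _ h2
  have h2 := pre_mem_allStr (fun i => σ.getD i false) σ.length
  rwa [h] at h2

namespace Tree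

/-- The lengths at level `k`. -/
def OK (k : ℕ) (s : (Option (List Bool) → List Bool) × ℕ) : Prop :=
  (s.1 none).length = s.2 ∧ (∀ σ : List Bool, σ.length = k → (s.1 (some σ)).length = s.2) ∧
    s.2 % 2 = k % 2

/-- The step from level `k` to level `k + 1`. -/
def Ext (k : ℕ) (s s' : (Option (List Bool) → List Bool) × ℕ) : Prop :=
  s.2 < s'.2 ∧ s.1 none <+: s'.1 none ∧
  (∀ τ : List Bool, τ.length = k + 1 →
    s.1 (some (τ.take k)) ++ [τ.getD k false] <+: s'.1 (some τ)) ∧
  ∀ e ≤ k, (∀ τ τ' : List Bool, τ.length = k + 1 → τ'.length = k + 1 → τ ≠ τ' →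
      Diag (Denumerable.ofNat Code e) (s'.1 (some τ)) (s'.1 (some τ'))) ∧
    ∀ τ : List Bool, τ.length = k + 1 →
      Diag (Denumerable.ofNat Code e) (s'.1 (some τ)) (s'.1 none)

theorem exists_step (k : ℕ) (s : (Option (List Bool) → List Bool) × ℕ) :
    ∃ s', OK (k + 1) s' ∧ Ext k s s' := by
  let B : Option (List Bool) → List Bool := fun i =>
    i.elim (s.1 none) fun τ => s.1 (some (τ.take k)) ++ [τ.getD k false]
  let nodes : List (Option (List Bool)) := none :: (allStr (k + 1)).map some
  have hnone : none ∈ nodes := List.mem_cons_self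
  have hsome : ∀ τ : List Bool, τ.length = k + 1 → some τ ∈ nodes := by
    intro τ h
    refine List.mem_cons_of_mem _ (List.mem_map.2 ⟨τ, ?_, rfl⟩)
    rw [← h]
    exact mem_allStr' τ
  obtain ⟨B', h1, h2⟩ := meet_all ((List.range (k + 1)).product (nodes.product nodes)) B
  let m : ℕ := bd (nodes.map fun i => (B' i).length)
  have hm : ∀ i ∈ nodes, (B' i).length ≤ m := fun i hi => le_bd (List.mem_map.2 ⟨i, hi, rfl⟩)
  let l : ℕ := 2 * (m + s.2 + 1) + (k + 1) % 2
  let T : Option (List Bool) → List Bool := fun i =>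
    B' i ++ List.replicate (l - (B' i).length) false
  have hT : ∀ i, B' i <+: T i := fun i => List.prefix_append _ _
  have hlen : ∀ i ∈ nodes, (T i).length = l := by
    intro i hi
    have h3 := hm i hi
    have h4 : m ≤ l := by simp only [l]; omega
    simp only [T, List.length_append, List.length_replicate]
    omega
  have hd : ∀ e ≤ k, ∀ i ∈ nodes, ∀ j ∈ nodes, i ≠ j →
      Diag (Denumerable.ofNat Code e) (T i) (T j) := by
    intro e he i hi j hj hne
    have h3 := h2 (e, i, j) (List.mem_product.2 ⟨List.mem_range.2 (by omega),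
      List.mem_product.2 ⟨hi, hj⟩⟩) hne
    exact h3.mono (hT i) (hT j)
  refine ⟨(T, l), ⟨hlen _ hnone, fun σ hσ => hlen _ (hsome σ hσ), ?_⟩, ?_, ?_, ?_, ?_⟩
  · simp only [l]; omega
  · simp only [l]; omega
  · exact (h1 none).trans (hT none)
  · intro τ _
    exact (h1 (some τ)).trans (hT (some τ))
  · intro e he
    refine ⟨fun τ τ' h3 h4 h5 => hd e he _ (hsome τ h3) _ (hsome τ' h4) ?_,
      fun τ h3 => hd e he _ (hsome τ h3) _ hnone ?_⟩
    · intro h6
      exact h5 (Option.some.inj h6)
    · intro h6
      cases h6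

/-- The levels of the construction. -/
noncomputable def sq : ℕ → (Option (List Bool) → List Bool) × ℕ
  | 0 => (fun _ => [], 0)
  | k + 1 => (exists_step k (sq k)).choose

theorem sq_ext (k : ℕ) : Ext k (sq k) (sq (k + 1)) := (exists_step k (sq k)).choose_spec.2

theorem sq_ok (k : ℕ) : OK k (sq k) := by
  cases k with
  | zero => exact ⟨rfl, fun _ _ => rfl, rfl⟩
  | succ k => exact (exists_step k (sq k)).choose_spec.1

/-- The common length at level `k`. -/
noncomputable def len (k : ℕ) : ℕ := (sq k).2

theorem len_lt (k : ℕ) : len k < len (k + 1) := (sq_ext k).1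

theorem len_strictMono : StrictMono len := strictMono_nat_of_lt_succ len_lt

theorem len_mod (k : ℕ) : len k % 2 = k % 2 := (sq_ok k).2.2

theorem le_len (k : ℕ) : k ≤ len k := len_strictMono.le_apply

/-- The string of the branch `y` at level `k`. -/
noncomputable def tr (y : ℕ → Bool) (k : ℕ) : List Bool := (sq k).1 (some (pre y k))

theorem length_tr (y : ℕ → Bool) (k : ℕ) : (tr y k).length = len k :=
  (sq_ok k).2.1 _ (by simp)

theorem tr_succ (y : ℕ → Bool) (k : ℕ) : tr y k ++ [y k] <+: tr y (k + 1) := by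
  have h := (sq_ext k).2.2.1 (pre y (k + 1)) (by simp)
  rw [take_pre _ _ _ (by omega), pre_getD _ _ _ _ (by omega)] at h
  exact h

theorem tr_le (y : ℕ → Bool) {k k' : ℕ} (h : k ≤ k') : tr y k <+: tr y k' := by
  induction h with
  | refl => exact List.prefix_rfl
  | step _ ih => exact ih.trans ((List.prefix_append _ _).trans (tr_succ y _))

/-- The branch with coded bits `y`. -/
noncomputable def Phi (y : ℕ → Bool) (j : ℕ) : Bool := (tr y (j + 1)).getD j false

theorem phi_eq (y : ℕ → Bool) {k j : ℕ} (hj : j < len k) : Phi y j = (tr y k).getD j false := by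
  have h1 : j < (tr y (j + 1)).length := by
    rw [length_tr]
    have := le_len (j + 1)
    omega
  rcases le_total k (j + 1) with h | h
  · exact getD_of_prefix (tr_le y h) (by rwa [length_tr])
  · exact (getD_of_prefix (tr_le y h) h1).symm

theorem pre_phi (y : ℕ → Bool) (k : ℕ) : pre (Phi y) (tr y k).length = tr y k := by
  refine List.ext_getElem (by simp) fun i h1 h2 => ?_
  rw [getElem_pre, phi_eq y (k := k) (by rwa [length_tr] at h2)]
  exact List.getD_eq_getElem _ _ h2

theorem phi_len (y : ℕ → Bool) (k : ℕ) : Phi y (len k) = y k := by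
  rw [phi_eq y (len_lt k)]
  have h1 := getD_of_prefix (tr_succ y k) (i := len k) (by simp [length_tr])
  rw [h1, ← length_tr y k]
  simp [List.getD]

theorem phi_congr {y y' : ℕ → Bool} {n : ℕ} (h : ∀ i, len i ≤ n → y i = y' i) :
    Phi y n = Phi y' n := by
  classical
  have hex : ∃ k, n < len k := ⟨n + 1, lt_of_lt_of_le (Nat.lt_succ_self n) (le_len _)⟩
  have h1 := Nat.find_spec hex
  have h2 : ∀ i < Nat.find hex, y i = y' i := fun i hi =>
    h i (not_lt.1 (Nat.find_min hex hi))
  generalize Nat.find hex = k at h1 h2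
  rw [phi_eq y h1, phi_eq y' h1]
  have h3 : pre y k = pre y' k := List.ext_getElem (by simp) fun i h4 _ => by
    rw [getElem_pre, getElem_pre]
    exact h2 i (by simpa using h4)
  rw [tr, tr, h3]

/-- The real that no branch computes. -/
noncomputable def zz (j : ℕ) : Bool := ((sq (j + 1)).1 none).getD j false

theorem none_succ (k : ℕ) : (sq k).1 none <+: (sq (k + 1)).1 none := (sq_ext k).2.1

theorem none_le {k k' : ℕ} (h : k ≤ k') : (sq k).1 none <+: (sq k').1 none := by
  induction h with
  | refl => exact List.prefix_rfl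
  | step _ ih => exact ih.trans (none_succ _)

theorem length_none (k : ℕ) : ((sq k).1 none).length = len k := (sq_ok k).1

theorem pre_zz (k : ℕ) : pre zz ((sq k).1 none).length = (sq k).1 none := by
  refine List.ext_getElem (by simp) fun i h1 h2 => ?_
  rw [getElem_pre, ← List.getD_eq_getElem _ false h2]
  have h3 : i < ((sq (i + 1)).1 none).length := by
    rw [length_none]
    have := le_len (i + 1)
    omega
  rcases le_total k (i + 1) with h | h
  · exact getD_of_prefix (none_le h) h2
  · exact (getD_of_prefix (none_le h) h3).symm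

theorem not_tLe {y y' : ℕ → Bool} (h : y ≠ y') : ¬ TLe (Phi y) (Phi y') := by
  intro h1
  obtain ⟨c, hc⟩ := exists_red h1
  obtain ⟨i, hi⟩ := Function.ne_iff.1 h
  let k := encode c + i
  have h2 : pre y' (k + 1) ≠ pre y (k + 1) := by
    intro h3
    have h4 : (pre y' (k + 1)).getD i false = (pre y (k + 1)).getD i false := by rw [h3]
    rw [pre_getD _ _ _ _ (by omega), pre_getD _ _ _ _ (by omega)] at h4
    exact hi h4.symm
  have h3 := ((sq_ext k).2.2.2 (encode c) (by omega)).1 _ _ (by simp) (by simp) h2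
  rw [Denumerable.ofNat_encode] at h3
  exact h3 (Phi y') (Phi y) (pre_phi y' (k + 1)) (pre_phi y (k + 1)) hc

theorem not_tLe_zz (y : ℕ → Bool) : ¬ TLe zz (Phi y) := by
  intro h1
  obtain ⟨c, hc⟩ := exists_red h1
  have h3 := ((sq_ext (encode c)).2.2.2 (encode c) le_rfl).2 (pre y (encode c + 1)) (by simp)
  rw [Denumerable.ofNat_encode] at h3
  exact h3 (Phi y) zz (pre_phi y (encode c + 1)) (pre_zz (encode c + 1)) hc

end Tree

end Pool.Agent.H685R3
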