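import Pool.Agent.H685R3.Inw
import Pool.Agent.H685R3.HDefs

set_option autoImplicit false

namespace Pool.Agent.H685R3

open Encodable
open Nat.Partrec (Code)
open Pool.Agent.Helper227

/-- The first values of a function. -/
def prn (f : ℕ → ℕ) (k : ℕ) : List ℕ := (List.range k).map f

@[simp] theorem length_prn (f : ℕ → ℕ) (k : ℕ) : (prn f k).length = k := by simp [prn]

theorem getElem_prn (f : ℕ → ℕ) (k i : ℕ) (h : i < (prn f k).length) : (prn f k)[i] = f i := by
  simp [prn]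

theorem prn_getD (f : ℕ → ℕ) {k i : ℕ} (h : i < k) : (prn f k).getD i 0 = f i := by
  rw [List.getD_eq_getElem _ _ (by simpa using h), getElem_prn]

theorem prn_prefix (f : ℕ → ℕ) {k k' : ℕ} (h : k ≤ k') : prn f k <+: prn f k' := by
  obtain ⟨d, rfl⟩ := Nat.exists_eq_add_of_le h
  refine ⟨(List.range d).map fun i => f (k + i), ?_⟩
  simp [prn, List.range_add, Function.comp_def]

theorem prn_eq_of {f : ℕ → ℕ} {ρ : List ℕ} (h : ∀ i < ρ.length, f i = ρ.getD i 0) :
    prn f ρ.length = ρ := by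
  refine List.ext_getElem (by simp) fun i h1 h2 => ?_
  rw [getElem_prn, h i h2, List.getD_eq_getElem _ _ h2]

theorem pre_eq_of {f : ℕ → Bool} {ρ : List Bool} (h : ∀ i < ρ.length, f i = ρ.getD i false) :
    pre f ρ.length = ρ := by
  refine List.ext_getElem (by simp) fun i h1 h2 => ?_
  rw [getElem_pre, h i h2, List.getD_eq_getElem _ _ h2]

/-- `p` is Sigma-one in a set and a function, uniformly. -/
def UF {α : Type*} [Primcodable α] (p : (ℕ → Bool) → (ℕ → ℕ) → α → Prop) : Prop :=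
  ∃ E : (List Bool × List ℕ) × α → Prop, S1 E ∧
    (∀ σ τ ρ ρ' a, σ <+: τ → ρ <+: ρ' → E ((σ, ρ), a) → E ((τ, ρ'), a)) ∧
    ∀ B f a, p B f a ↔ ∃ s, E ((pre B s, prn f s), a)

namespace UF

variable {α β γ : Type*} [Primcodable α] [Primcodable β] [Primcodable γ]

theorem of_eq {p q : (ℕ → Bool) → (ℕ → ℕ) → α → Prop} (hp : UF p)
    (h : ∀ B f a, p B f a ↔ q B f a) : UF q :=
  (funext fun B => funext fun f => funext fun a => propext (h B f a) : p = q) ▸ hp

theorem of_s1 {p : α → Prop} (hp : S1 p) : UF fun _ _ => p :=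
  ⟨fun x => p x.2, hp.comp Primrec.snd, fun _ _ _ _ _ _ _ h => h, fun _ _ _ => by simp⟩

theorem of_prim {p : α → Prop} (hp : PrimrecPred p) : UF fun _ _ => p := of_s1 (S1.of_prim hp)

theorem comp {p : (ℕ → Bool) → (ℕ → ℕ) → β → Prop} {f : α → β} (hp : UF p) (hf : Primrec f) :
    UF fun B g a => p B g (f a) := by
  obtain ⟨E, hE, mE, eE⟩ := hp
  exact ⟨fun x => E (x.1, f x.2), hE.comp (Primrec.fst.pair (hf.comp Primrec.snd)),
    fun σ τ ρ ρ' a h h' => mE _ _ _ _ _ h h', fun B g a => eE _ _ _⟩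

theorem and {p q : (ℕ → Bool) → (ℕ → ℕ) → α → Prop} (hp : UF p) (hq : UF q) :
    UF fun B f a => p B f a ∧ q B f a := by
  obtain ⟨E, hE, mE, eE⟩ := hp
  obtain ⟨F, hF, mF, eF⟩ := hq
  refine ⟨fun x => E x ∧ F x, hE.and hF, fun σ τ ρ ρ' a h h' h2 =>
    ⟨mE _ _ _ _ _ h h' h2.1, mF _ _ _ _ _ h h' h2.2⟩, fun B f a => ?_⟩
  refine (and_congr (eE B f a) (eF B f a)).trans ?_
  constructor
  · rintro ⟨⟨s, hs⟩, ⟨t, ht⟩⟩
    exact ⟨max s t, mE _ _ _ _ _ (pre_prefix B (le_max_left _ _))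
      (prn_prefix f (le_max_left _ _)) hs,
      mF _ _ _ _ _ (pre_prefix B (le_max_right _ _)) (prn_prefix f (le_max_right _ _)) ht⟩
  · rintro ⟨s, h1, h2⟩
    exact ⟨⟨s, h1⟩, ⟨s, h2⟩⟩

theorem or {p q : (ℕ → Bool) → (ℕ → ℕ) → α → Prop} (hp : UF p) (hq : UF q) :
    UF fun B f a => p B f a ∨ q B f a := by
  obtain ⟨E, hE, mE, eE⟩ := hp
  obtain ⟨F, hF, mF, eF⟩ := hq
  refine ⟨fun x => E x ∨ F x, hE.or hF, fun σ τ ρ ρ' a h h' h2 =>
    h2.imp (mE _ _ _ _ _ h h') (mF _ _ _ _ _ h h'), fun B f a => ?_⟩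
  exact (or_congr (eE B f a) (eF B f a)).trans exists_or.symm

theorem ex {p : (ℕ → Bool) → (ℕ → ℕ) → α → β → Prop}
    (hp : UF fun B f (x : α × β) => p B f x.1 x.2) : UF fun B f a => ∃ b, p B f a b := by
  obtain ⟨E, hE, mE, eE⟩ := hp
  refine ⟨fun x => ∃ b, E (x.1, (x.2, b)), S1.ex (hE.comp ?_), ?_, fun B f a => ?_⟩
  · exact (Primrec.fst.comp Primrec.fst).pair ((Primrec.snd.comp Primrec.fst).pair Primrec.snd)
  · rintro σ τ ρ ρ' a h h' ⟨b, hb⟩
    exact ⟨b, mE _ _ _ _ _ h h' hb⟩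
  · constructor
    · rintro ⟨b, hb⟩
      obtain ⟨s, hs⟩ := (eE B f (a, b)).1 hb
      exact ⟨s, b, hs⟩
    · rintro ⟨s, b, hs⟩
      exact ⟨b, (eE B f (a, b)).2 ⟨s, hs⟩⟩

theorem all_mem {p : (ℕ → Bool) → (ℕ → ℕ) → α → β → Prop} {f : α → List β}
    (hp : UF fun B g (x : α × β) => p B g x.1 x.2)
    (hf : Primrec f) : UF fun B g a => ∀ b ∈ f a, p B g a b := by
  obtain ⟨E, hE, mE, eE⟩ := hp
  refine ⟨fun x => ∀ b ∈ f x.2, E (x.1, (x.2, b)), S1.all_mem (hE.comp ?_) (hf.comp Primrec.snd),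
    ?_, fun B g a => ?_⟩
  · exact (Primrec.fst.comp Primrec.fst).pair ((Primrec.snd.comp Primrec.fst).pair Primrec.snd)
  · rintro σ τ ρ ρ' a h h' h2 b hb
    exact mE _ _ _ _ _ h h' (h2 b hb)
  · have : ∀ L : List β, (∀ b ∈ L, p B g a b) ↔ ∃ s, ∀ b ∈ L, E ((pre B s, prn g s), (a, b)) := by
      intro L
      induction L with
      | nil => simp
      | cons c L ih =>
        simp only [List.mem_cons, forall_eq_or_imp, ih]
        have := eE B g (a, c)
        simp only at this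
        rw [this]
        constructor
        · rintro ⟨⟨m, hm'⟩, ⟨n, hn⟩⟩
          exact ⟨max m n, mE _ _ _ _ _ (pre_prefix B (le_max_left _ _))
            (prn_prefix g (le_max_left _ _)) hm',
            fun b hb => mE _ _ _ _ _ (pre_prefix B (le_max_right _ _))
              (prn_prefix g (le_max_right _ _)) (hn b hb)⟩
        · rintro ⟨n, h1, h2⟩
          exact ⟨⟨n, h1⟩, ⟨n, h2⟩⟩
    exact this _

theorem all_lt {p : (ℕ → Bool) → (ℕ → ℕ) → α → ℕ → Prop} {f : α → ℕ}
    (hp : UF fun B g (x : α × ℕ) => p B g x.1 x.2)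
    (hf : Primrec f) : UF fun B g a => ∀ b < f a, p B g a b :=
  (all_mem hp (Primrec.list_range.comp hf)).of_eq (by simp)

theorem of_us {p : (ℕ → Bool) → α → Prop} (hp : US p) : UF fun B _ a => p B a := by
  obtain ⟨E, hE, mE, eE⟩ := hp
  exact ⟨fun x => E (x.1.1, x.2), hE.comp ((Primrec.fst.comp Primrec.fst).pair Primrec.snd),
    fun σ τ ρ ρ' a h _ => mE _ _ _ h, fun B f a => eE _ _⟩

/-- Querying the set. -/
theorem queryB : UF fun B _ (x : ℕ × Bool) => B x.1 = x.2 := of_us US.query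

/-- Querying the function. -/
theorem queryF : UF fun _ f (x : ℕ × ℕ) => f x.1 = x.2 := by
  refine ⟨fun x => x.1.2[x.2.1]? = some x.2.2, S1.of_prim ?_, ?_, ?_⟩
  · exact Primrec.eq.comp (Primrec.list_getElem?.comp (Primrec.snd.comp Primrec.fst)
      (Primrec.fst.comp Primrec.snd)) (Primrec.option_some.comp (Primrec.snd.comp Primrec.snd))
  · rintro σ τ ρ ρ' ⟨n, b⟩ _ h h2
    simp only at h2 ⊢
    obtain ⟨ρ, rfl⟩ := h
    rw [List.getElem?_append_left]
    · exact h2
    · by_contra hc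
      rw [List.getElem?_eq_none (by omega)] at h2
      cases h2
  · rintro B f ⟨n, b⟩
    simp only
    constructor
    · rintro rfl
      exact ⟨n + 1, by rw [List.getElem?_eq_getElem (by simp), getElem_prn]⟩
    · rintro ⟨s, hs⟩
      by_cases h : n < s
      · rw [List.getElem?_eq_getElem (by simpa using h), getElem_prn] at hs
        simpa using hs
      · rw [List.getElem?_eq_none (by simpa using h)] at hs
        cases hs

end UF

theorem hyperJump_iff {u : ℕ → Bool} {e : ℕ} : hyperJump u e = true ↔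
    ∀ f : ℕ → ℕ, ∃ k, ((Denumerable.ofNat Code e).eval (encode (prn f k, pre u k, e))).Dom := by
  exact (@decide_eq_true_iff _ (Classical.propDecidable _)).trans Iff.rfl

/-- Completeness of the hyperjump. -/
theorem UF.to_hyp {α : Type*} [Primcodable α] {p : (ℕ → Bool) → (ℕ → ℕ) → α → Prop} (hp : UF p) :
    ∃ g : α → ℕ, Primrec g ∧ ∀ B a, (∀ f, p B f a) ↔ hyperJump B (g a) = true := by
  obtain ⟨E, hE, mE, eE⟩ := hp
  have h1 : S1 fun m : ℕ => ∃ a : α, ∃ σ : List Bool, ∃ ρ : List ℕ, ∃ n : ℕ,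
      m = Nat.pair (encode a) (encode (ρ, σ, n)) ∧ E ((σ, ρ), a) := by
    refine S1.ex (S1.ex (S1.ex (S1.ex (S1.and (S1.of_prim ?_) (hE.comp ?_)))))
    · refine Primrec.eq.comp (Primrec.fst.comp (Primrec.fst.comp (Primrec.fst.comp
        Primrec.fst))) ?_
      refine Primrec₂.natPair.comp (Primrec.encode.comp (Primrec.snd.comp
        (Primrec.fst.comp (Primrec.fst.comp Primrec.fst)))) (Primrec.encode.comp ?_)
      exact (Primrec.snd.comp Primrec.fst).pair ((Primrec.snd.comp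
        (Primrec.fst.comp Primrec.fst)).pair Primrec.snd)
    · exact ((Primrec.snd.comp (Primrec.fst.comp Primrec.fst)).pair
        (Primrec.snd.comp Primrec.fst)).pair (Primrec.snd.comp
          (Primrec.fst.comp (Primrec.fst.comp Primrec.fst)))
  obtain ⟨c, hc⟩ := Nat.Partrec.Code.exists_code.1 h1.re
  refine ⟨fun a => encode (Code.curry c (encode a)), ?_, fun B a => ?_⟩
  · have h2 : Primrec fun a : α => Code.curry c (encode a) :=
      Nat.Partrec.Code.primrec₂_curry.comp (Primrec.const c) Primrec.encode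
    exact Primrec.encode.comp h2
  · rw [hyperJump_iff]
    refine forall_congr' fun f => ?_
    simp only [Denumerable.ofNat_encode, Nat.Partrec.Code.eval_curry]
    rw [eE, hc]
    refine exists_congr fun k => ?_
    simp [Part.assert]

/-- The matrix of the hyperjump. -/
theorem uf_hyp : UF fun B f (e : ℕ) =>
    ∃ k, ((Denumerable.ofNat Code e).eval (encode (prn f k, pre B k, e))).Dom := by
  have hS : S1 fun x : ℕ × List ℕ × List Bool =>
      ((Denumerable.ofNat Code x.1).eval (encode (x.2.1, x.2.2, x.1))).Dom := by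
    refine s1_eval.comp (f := fun x : ℕ × List ℕ × List Bool =>
      (Denumerable.ofNat Code x.1, encode (x.2.1, x.2.2, x.1))) (Primrec.pair
        ((Primrec.ofNat Code).comp Primrec.fst) (Primrec.encode.comp ?_))
    exact (Primrec.fst.comp Primrec.snd).pair ((Primrec.snd.comp Primrec.snd).pair Primrec.fst)
  have h1 : UF fun B f (e : ℕ) => ∃ x : List ℕ × List Bool, (x.1.length = x.2.length ∧
      ((Denumerable.ofNat Code e).eval (encode (x.1, x.2, e))).Dom) ∧
      (∀ i < x.2.length, B i = x.2.getD i false) ∧ ∀ i < x.1.length, f i = x.1.getD i 0 := by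
    refine UF.ex (p := fun B f (e : ℕ) (x : List ℕ × List Bool) => (x.1.length = x.2.length ∧
      ((Denumerable.ofNat Code e).eval (encode (x.1, x.2, e))).Dom) ∧
      (∀ i < x.2.length, B i = x.2.getD i false) ∧ ∀ i < x.1.length, f i = x.1.getD i 0)
      (UF.and (UF.and (UF.of_prim ?_) (UF.of_s1 ?_)) (UF.and ?_ ?_))
    · exact Primrec.eq.comp (Primrec.list_length.comp (Primrec.fst.comp Primrec.snd))
        (Primrec.list_length.comp (Primrec.snd.comp Primrec.snd))
    · exact hS.comp (f := fun y : ℕ × List ℕ × List Bool => (y.1, y.2.1, y.2.2)) Primrec.id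
    · refine UF.all_lt (α := ℕ × List ℕ × List Bool) (p := fun B _ x i =>
        B i = x.2.2.getD i false) (f := fun x => x.2.2.length) ?_
        (Primrec.list_length.comp (Primrec.snd.comp Primrec.snd))
      exact UF.queryB.comp (f := fun z : (ℕ × List ℕ × List Bool) × ℕ =>
        (z.2, z.1.2.2.getD z.2 false)) (Primrec.snd.pair ((Primrec.list_getD false).comp
          (Primrec.snd.comp (Primrec.snd.comp Primrec.fst)) Primrec.snd))
    · refine UF.all_lt (α := ℕ × List ℕ × List Bool) (p := fun _ f x i =>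
        f i = x.2.1.getD i 0) (f := fun x => x.2.1.length) ?_
        (Primrec.list_length.comp (Primrec.fst.comp Primrec.snd))
      exact UF.queryF.comp (f := fun z : (ℕ × List ℕ × List Bool) × ℕ =>
        (z.2, z.1.2.1.getD z.2 0)) (Primrec.snd.pair ((Primrec.list_getD 0).comp
          (Primrec.fst.comp (Primrec.snd.comp Primrec.fst)) Primrec.snd))
  refine h1.of_eq fun B f e => ?_
  constructor
  · rintro ⟨⟨ρ, σ⟩, ⟨h2, h3⟩, h4, h5⟩
    simp only at h2 h3 h4 h5
    refine ⟨σ.length, ?_⟩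
    rw [pre_eq_of h4, ← h2, prn_eq_of h5]
    exact h3
  · rintro ⟨k, hk⟩
    refine ⟨(prn f k, pre B k), ⟨by simp, hk⟩, fun i hi => ?_, fun i hi => ?_⟩
    · exact (pre_getD B _ _ _ (by simpa using hi)).symm
    · exact (prn_getD f (by simpa using hi)).symm

end Pool.Agent.H685R3
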