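import Pool.Agent.H685R3.PR

set_option autoImplicit false

namespace Pool.Agent.H685R3

open Encodable
open Pool.Agent.Helper227

/-- All strings of length `n`. -/
def allStr : ℕ → List (List Bool)
  | 0 => [[]]
  | n + 1 => (allStr n).flatMap fun σ => [σ ++ [false], σ ++ [true]]

theorem mem_allStr {n : ℕ} {σ : List Bool} : σ ∈ allStr n → σ.length = n := by
  induction n generalizing σ with
  | zero => intro h; simp [allStr] at h; simp [h]
  | succ n ih =>
    intro h
    simp only [allStr, List.mem_flatMap] at h
    obtain ⟨τ, h1, h2⟩ := h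
    have := ih h1
    simp only [List.mem_cons, List.not_mem_nil, or_false] at h2
    rcases h2 with rfl | rfl <;> simp [this]

theorem pre_mem_allStr (y : ℕ → Bool) (n : ℕ) : pre y n ∈ allStr n := by
  induction n with
  | zero => simp [allStr, pre]
  | succ n ih =>
    rw [pre_succ, allStr, List.mem_flatMap]
    refine ⟨_, ih, ?_⟩
    cases y n <;> simp

theorem primrec_allStr : Primrec allStr := by
  have h : Primrec fun n : ℕ => Nat.rec (motive := fun _ => List (List Bool)) [[]]
      (fun _ IH => IH.flatMap fun σ => [σ ++ [false], σ ++ [true]]) n := by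
    refine Primrec.nat_rec' (f := fun n : ℕ => n) (g := fun _ => [[]])
      (h := fun _ p => p.2.flatMap fun σ => [σ ++ [false], σ ++ [true]]) Primrec.id
      (Primrec.const _) ?_
    refine Primrec.list_flatMap (Primrec.snd.comp Primrec.snd) ?_
    refine Primrec.list_cons.comp ?_ (Primrec.list_cons.comp ?_ (Primrec.const []))
    · exact Primrec.list_append.comp Primrec.snd (Primrec.const [false])
    · exact Primrec.list_append.comp Primrec.snd (Primrec.const [true])
  refine h.of_eq fun n => ?_
  induction n with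
  | zero => rfl
  | succ n ih => simp only at ih ⊢; rw [ih, allStr]

/-- A bound for the elements of a list. -/
def bd (L : List ℕ) : ℕ := L.foldr (fun a s => a + s) 0

theorem le_bd {L : List ℕ} {a : ℕ} (h : a ∈ L) : a ≤ bd L := by
  induction L with
  | nil => cases h
  | cons b L ih =>
    rw [List.mem_cons] at h
    have h1 : bd (b :: L) = b + bd L := rfl
    rcases h with rfl | h
    · omega
    · have := ih h; omega

theorem primrec_bd : Primrec bd :=
  Primrec.list_foldr (f := fun L : List ℕ => L) (g := fun _ => 0) (h := fun _ p => p.1 + p.2)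
    Primrec.id (Primrec.const 0) (Primrec.nat_add.comp (Primrec.fst.comp Primrec.snd)
      (Primrec.snd.comp Primrec.snd))

/-- Primitive recursive use of a primitive recursive functional on Cantor space. -/
theorem PRF.use {Φ : (ℕ → ℕ) → ℕ → ℕ} (h : PRF Φ) :
    ∃ (E : List Bool → ℕ → ℕ) (m : ℕ → ℕ), Primrec₂ E ∧ Primrec m ∧
      ∀ (y : ℕ → Bool) (n s : ℕ), m n ≤ s → E (pre y s) n = Φ (fun k => (y k).toNat) n := by
  induction h with
  | zero => exact ⟨fun _ _ => 0, fun _ => 0, Primrec₂.const 0, Primrec.const 0, fun _ _ _ _ => rfl⟩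
  | succ => exact ⟨fun _ n => n + 1, fun _ => 0, (Primrec.succ.comp Primrec.snd),
      Primrec.const 0, fun _ _ _ _ => rfl⟩
  | left => exact ⟨fun _ n => n.unpair.1, fun _ => 0,
      (Primrec.fst.comp (Primrec.unpair.comp Primrec.snd)), Primrec.const 0, fun _ _ _ _ => rfl⟩
  | right => exact ⟨fun _ n => n.unpair.2, fun _ => 0,
      (Primrec.snd.comp (Primrec.unpair.comp Primrec.snd)), Primrec.const 0, fun _ _ _ _ => rfl⟩
  | oracle =>
    refine ⟨fun σ n => (σ.getD n false).toNat, fun n => n + 1, ?_, Primrec.succ, ?_⟩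
    · have h1 : Primrec fun b : Bool => b.toNat := Primrec.dom_finite _
      exact h1.comp ((Primrec.list_getD false).comp Primrec.fst Primrec.snd)
    · intro y n s h
      simp only at h ⊢
      rw [pre_getD _ _ _ _ (by omega)]
  | pair _ _ h1 h2 =>
    obtain ⟨E, m, hE, hm, e⟩ := h1
    obtain ⟨E', m', hE', hm', e'⟩ := h2
    refine ⟨fun σ n => Nat.pair (E σ n) (E' σ n), fun n => m n + m' n, ?_, ?_, ?_⟩
    · exact Primrec₂.natPair.comp hE hE'
    · exact Primrec.nat_add.comp hm hm'
    · intro y n s h
      simp only at h ⊢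
      rw [e y n s (by omega), e' y n s (by omega)]
  | comp _ _ h1 h2 =>
    obtain ⟨E, m, hE, hm, e⟩ := h1
    obtain ⟨E', m', hE', hm', e'⟩ := h2
    refine ⟨fun σ n => E σ (E' σ n), fun n => m' n +
      bd ((List.range (bd ((allStr (m' n)).map fun σ => E' σ n) + 1)).map m), ?_, ?_, ?_⟩
    · exact hE.comp Primrec.fst (hE'.comp Primrec.fst Primrec.snd)
    · refine Primrec.nat_add.comp hm' (primrec_bd.comp (Primrec.list_map (Primrec.list_range.comp
        (Primrec.succ.comp (primrec_bd.comp (Primrec.list_map (primrec_allStr.comp hm')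
          (hE'.comp Primrec.snd Primrec.fst))))) (hm.comp Primrec.snd)))
    · intro y n s h
      simp only at h ⊢
      have h3 : E' (pre y s) n ≤ bd ((allStr (m' n)).map fun σ => E' σ n) := by
        rw [e' y n s (by omega), ← e' y n (m' n) le_rfl]
        exact le_bd (List.mem_map.2 ⟨_, pre_mem_allStr y _, rfl⟩)
      have h4 : m (E' (pre y s) n) ≤
          bd ((List.range (bd ((allStr (m' n)).map fun σ => E' σ n) + 1)).map m) :=
        le_bd (List.mem_map.2 ⟨_, List.mem_range.2 (by omega), rfl⟩)
      rw [e y _ s (by omega), e' y n s (by omega)]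
  | prec _ _ h1 h2 =>
    obtain ⟨E, m, hE, hm, e⟩ := h1
    obtain ⟨E', m', hE', hm', e'⟩ := h2
    let R : List Bool → ℕ → ℕ → ℕ := fun σ a y => Nat.rec (motive := fun _ => ℕ) (E σ a)
        (fun y IH => E' σ (Nat.pair a (Nat.pair y IH))) y
    have hR : Primrec fun x : List Bool × ℕ × ℕ => R x.1 x.2.1 x.2.2 := by
      refine Primrec.nat_rec' (f := fun x : List Bool × ℕ × ℕ => x.2.2)
        (g := fun x => E x.1 x.2.1) (h := fun x p => E' x.1 (Nat.pair x.2.1 (Nat.pair p.1 p.2)))
        (Primrec.snd.comp Primrec.snd) (hE.comp Primrec.fst (Primrec.fst.comp Primrec.snd)) ?_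
      refine hE'.comp (Primrec.fst.comp Primrec.fst) (Primrec₂.natPair.comp
        (Primrec.fst.comp (Primrec.snd.comp Primrec.fst)) (Primrec₂.natPair.comp
          (Primrec.fst.comp Primrec.snd) (Primrec.snd.comp Primrec.snd)))
    let S : ℕ → ℕ → ℕ → ℕ := fun a y IH => IH + bd ((List.range
      (bd ((allStr IH).map fun σ => R σ a y) + 1)).map fun w => m' (Nat.pair a (Nat.pair y w)))
    have hS : Primrec fun x : ℕ × ℕ × ℕ => S x.1 x.2.1 x.2.2 := by
      refine Primrec.nat_add.comp (Primrec.snd.comp Primrec.snd) (primrec_bd.comp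
        (Primrec.list_map (Primrec.list_range.comp (Primrec.succ.comp (primrec_bd.comp
          (Primrec.list_map (primrec_allStr.comp (Primrec.snd.comp Primrec.snd)) ?_)))) ?_))
      · exact hR.comp (Primrec.snd.pair ((Primrec.fst.comp Primrec.fst).pair
          (Primrec.fst.comp (Primrec.snd.comp Primrec.fst))))
      · exact hm'.comp (Primrec₂.natPair.comp (Primrec.fst.comp Primrec.fst)
          (Primrec₂.natPair.comp (Primrec.fst.comp (Primrec.snd.comp Primrec.fst)) Primrec.snd))
    let M : ℕ → ℕ → ℕ := fun a y => Nat.rec (motive := fun _ => ℕ) (m a) (fun y IH => S a y IH) y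
    have hM : Primrec fun x : ℕ × ℕ => M x.1 x.2 := by
      refine Primrec.nat_rec' (f := fun x : ℕ × ℕ => x.2)
        (g := fun x => m x.1) (h := fun x p => S x.1 p.1 p.2)
        Primrec.snd (hm.comp Primrec.fst) ?_
      exact hS.comp ((Primrec.fst.comp Primrec.fst).pair ((Primrec.fst.comp Primrec.snd).pair
        (Primrec.snd.comp Primrec.snd)))
    refine ⟨fun σ n => R σ n.unpair.1 n.unpair.2, fun n => M n.unpair.1 n.unpair.2, ?_, ?_, ?_⟩
    · exact hR.comp (Primrec.fst.pair ((Primrec.fst.comp (Primrec.unpair.comp Primrec.snd)).pair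
        (Primrec.snd.comp (Primrec.unpair.comp Primrec.snd))))
    · exact hM.comp ((Primrec.fst.comp Primrec.unpair).pair (Primrec.snd.comp Primrec.unpair))
    · intro y n
      simp only
      generalize n.unpair.1 = a
      generalize n.unpair.2 = k
      induction k with
      | zero => intro s h; exact e y a s h
      | succ k ih =>
        intro s h
        have h3 : M a (k + 1) = M a k + bd ((List.range
          (bd ((allStr (M a k)).map fun σ => R σ a k) + 1)).map
            fun w => m' (Nat.pair a (Nat.pair k w))) := rfl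
        have h4 : R (pre y s) a (k + 1) =
          E' (pre y s) (Nat.pair a (Nat.pair k (R (pre y s) a k))) := rfl
        have h5 : R (pre y s) a k ≤ bd ((allStr (M a k)).map fun σ => R σ a k) := by
          rw [ih s (by omega), ← ih (M a k) le_rfl]
          exact le_bd (List.mem_map.2 ⟨_, pre_mem_allStr y _, rfl⟩)
        have h6 : m' (Nat.pair a (Nat.pair k (R (pre y s) a k))) ≤ bd ((List.range
          (bd ((allStr (M a k)).map fun σ => R σ a k) + 1)).map
            fun w => m' (Nat.pair a (Nat.pair k w))) :=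
          le_bd (List.mem_map.2 ⟨_, List.mem_range.2 (by omega), rfl⟩)
        rw [h4, e' y _ s (by omega), ih s (by omega)]

end Pool.Agent.H685R3
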